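import Pool.Agent.Lib.MP_a1853d_al.Spec

set_option autoImplicit false

/-!
# Module AN: an analytic lemma on almost submultiplicative sequences
-/

namespace MPa1853d

namespace AN

open Filter Topology

theorem reflect (y : ℕ → ℝ) (H : ℕ) :
    ∑ j ∈ Finset.Ico 1 H, y (H - j) = ∑ j ∈ Finset.Ico 1 H, y j := by
  have h := Finset.sum_Ico_reflect y 1 (m := H) (n := H) (by omega)
  rw [h]
  congr 1
  congr 1
  omega

/-- The inequality without the two extreme terms. -/
theorem inner {y : ℕ → ℝ} {C : ℝ} (h0 : y 0 = 1)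
    (hy : ∀ H : ℕ, 1 ≤ H → (H : ℝ) * y H ≤ C * ∑ j ∈ Finset.range (H + 1), y j * y (H - j))
    {H : ℕ} (hH : 1 ≤ H) (hpos : 0 ≤ y H) (hC : 4 * C ≤ H) :
    (H : ℝ) * y H ≤ 2 * C * ∑ j ∈ Finset.Ico 1 H, y j * y (H - j) := by
  have h1 := hy H hH
  rw [Finset.sum_range_succ, Finset.range_eq_Ico,
    Finset.sum_eq_sum_Ico_succ_bot (by omega : 0 < H)] at h1
  simp only [Nat.sub_zero, Nat.sub_self, h0, one_mul, mul_one, zero_add] at h1
  nlinarith

theorem conv_le {y : ℕ → ℝ} (hpos : ∀ n, 0 ≤ y n) {H : ℕ} {m : ℝ} (hm0 : 0 ≤ m)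
    (hm : ∀ i, i < H → H ≤ 2 * i → y i ≤ m) :
    ∑ j ∈ Finset.Ico 1 H, y j * y (H - j) ≤ 2 * m * ∑ j ∈ Finset.range H, y j := by
  have h1 : ∑ j ∈ Finset.Ico 1 H, y j * y (H - j) ≤
      ∑ j ∈ Finset.Ico 1 H, (m * y j + m * y (H - j)) := by
    refine Finset.sum_le_sum fun j hj => ?_
    rw [Finset.mem_Ico] at hj
    by_cases h : H ≤ 2 * j
    · have h2 := hm j hj.2 h
      have h3 := mul_le_mul_of_nonneg_right h2 (hpos (H - j))
      have h4 := mul_nonneg hm0 (hpos j)
      linarith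
    · have h2 := hm (H - j) (by omega) (by omega)
      have h3 := mul_le_mul_of_nonneg_left h2 (hpos j)
      have h4 := mul_nonneg hm0 (hpos (H - j))
      linarith
  rw [Finset.sum_add_distrib, ← Finset.mul_sum, ← Finset.mul_sum, reflect] at h1
  have h2 : ∑ j ∈ Finset.Ico 1 H, y j ≤ ∑ j ∈ Finset.range H, y j := by
    refine Finset.sum_le_sum_of_subset_of_nonneg ?_ fun j _ _ => hpos j
    intro j hj
    rw [Finset.mem_Ico] at hj
    exact Finset.mem_range.2 hj.2
  have h3 := mul_le_mul_of_nonneg_left h2 hm0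
  linarith

/-- Kronecker's lemma. -/
theorem small {y : ℕ → ℝ} (hpos : ∀ n, 0 ≤ y n) (hle : ∀ n, y n ≤ 1)
    (hs : Summable (fun n : ℕ => y n / (n : ℝ))) {ε : ℝ} (hε : 0 < ε) :
    ∃ M : ℕ, ∀ H : ℕ, ∑ j ∈ Finset.range H, y j ≤ M + ε * H := by
  have ht := tendsto_sum_nat_add (fun n : ℕ => y n / (n : ℝ))
  obtain ⟨M, hM1, hM⟩ := ((ht.eventually (gt_mem_nhds hε)).and (eventually_ge_atTop 1)).exists
  refine ⟨M, fun H => ?_⟩
  have hcard : ∀ k : ℕ, ∑ j ∈ Finset.range k, y j ≤ k := by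
    intro k
    calc ∑ j ∈ Finset.range k, y j ≤ ∑ j ∈ Finset.range k, (1 : ℝ) :=
          Finset.sum_le_sum fun j _ => hle j
      _ = k := by simp
  rcases le_total H M with h | h
  · have h1 := hcard H
    have h2 : (H : ℝ) ≤ M := by exact_mod_cast h
    have h3 : 0 ≤ ε * H := by positivity
    linarith
  · have h1 : ∑ j ∈ Finset.range H, y j =
        ∑ j ∈ Finset.range M, y j + ∑ j ∈ Finset.Ico M H, y j :=
      (Finset.sum_range_add_sum_Ico _ h).symm
    have h2 : ∑ j ∈ Finset.Ico M H, y j ≤ H * ∑ j ∈ Finset.Ico M H, y j / (j : ℝ) := by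
      rw [Finset.mul_sum]
      refine Finset.sum_le_sum fun j hj => ?_
      rw [Finset.mem_Ico] at hj
      have hj0 : (0 : ℝ) < j := by
        have : 0 < j := by omega
        exact_mod_cast this
      have hjH : (j : ℝ) ≤ H := by exact_mod_cast hj.2.le
      have h3 : y j = j * (y j / j) := by field_simp
      have h4 : 0 ≤ y j / j := div_nonneg (hpos j) hj0.le
      calc y j = j * (y j / j) := h3
        _ ≤ H * (y j / j) := mul_le_mul_of_nonneg_right hjH h4
    have h3 : ∑ j ∈ Finset.Ico M H, y j / (j : ℝ) ≤ ε := by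
      rw [Finset.sum_Ico_eq_sum_range]
      have h4 : Summable fun k : ℕ => y (k + M) / ((k + M : ℕ) : ℝ) :=
        (summable_nat_add_iff M).2 hs
      have h5 := h4.sum_le_tsum (Finset.range (H - M))
        (fun k _ => div_nonneg (hpos _) (Nat.cast_nonneg _))
      refine le_trans (le_of_eq ?_) (h5.trans hM1.le)
      refine Finset.sum_congr rfl fun k _ => ?_
      rw [add_comm]
    have h4 : (H : ℝ) * ∑ j ∈ Finset.Ico M H, y j / (j : ℝ) ≤ H * ε :=
      mul_le_mul_of_nonneg_left h3 (Nat.cast_nonneg _)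
    have h5 := hcard M
    linarith

theorem inv_sq_sum {H : ℕ} (hH : 1 ≤ H) :
    ∑ j ∈ Finset.Ico 1 H, 1 / ((j : ℝ) ^ 2 * ((H - j : ℕ) : ℝ) ^ 2) ≤ 8 / (H : ℝ) ^ 2 := by
  have hH0 : (0 : ℝ) < H := by exact_mod_cast hH
  have h1 : ∑ j ∈ Finset.Ico 1 H, 1 / ((j : ℝ) ^ 2 * ((H - j : ℕ) : ℝ) ^ 2) ≤
      ∑ j ∈ Finset.Ico 1 H, (2 / (H : ℝ) ^ 2 * ((j : ℝ) ^ 2)⁻¹ +
        2 / (H : ℝ) ^ 2 * (((H - j : ℕ) : ℝ) ^ 2)⁻¹) := by
    refine Finset.sum_le_sum fun j hj => ?_
    rw [Finset.mem_Ico] at hj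
    have hj0 : (0 : ℝ) < j := by
      have : 0 < j := by omega
      exact_mod_cast this
    have hk0 : (0 : ℝ) < ((H - j : ℕ) : ℝ) := by
      have : 0 < H - j := by omega
      exact_mod_cast this
    have hsum : (H : ℝ) = j + ((H - j : ℕ) : ℝ) := by
      have : H = j + (H - j) := by omega
      exact_mod_cast this
    set k : ℝ := ((H - j : ℕ) : ℝ) with hk
    rw [hsum]
    have hjk : 0 < (j : ℝ) + k := by positivity
    rw [← sub_nonneg]
    have : 2 / ((j : ℝ) + k) ^ 2 * ((j : ℝ) ^ 2)⁻¹ + 2 / ((j : ℝ) + k) ^ 2 * (k ^ 2)⁻¹ -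
        1 / ((j : ℝ) ^ 2 * k ^ 2) = ((j : ℝ) - k) ^ 2 / (((j : ℝ) + k) ^ 2 * (j ^ 2 * k ^ 2)) := by
      field_simp
      ring
    rw [this]
    positivity
  have h2 : ∑ j ∈ Finset.Ico 1 H, ((j : ℝ) ^ 2)⁻¹ ≤ 2 := by
    have h3 := sum_Ioo_inv_sq_le (α := ℝ) 0 H
    have h4 : Finset.Ioo 0 H = Finset.Ico 1 H := by
      ext j; simp only [Finset.mem_Ioo, Finset.mem_Ico]; omega
    rw [h4] at h3
    simpa using h3
  have h3 : ∑ j ∈ Finset.Ico 1 H, (((H - j : ℕ) : ℝ) ^ 2)⁻¹ ≤ 2 := by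
    rw [reflect (fun i : ℕ => ((i : ℝ) ^ 2)⁻¹) H]
    exact h2
  rw [Finset.sum_add_distrib, ← Finset.mul_sum, ← Finset.mul_sum] at h1
  have h4 : 0 < 2 / (H : ℝ) ^ 2 := by positivity
  calc _ ≤ _ := h1
    _ ≤ 2 / (H : ℝ) ^ 2 * 2 + 2 / (H : ℝ) ^ 2 * 2 := by gcongr
    _ = 8 / (H : ℝ) ^ 2 := by ring

end AN

open AN in
/-- Module AN. -/
theorem specAN : SpecAN := by
  intro y C' h0 hpos hle hy' hs
  -- we may assume `C ≥ 1`
  obtain ⟨C, hC1, hy⟩ : ∃ C : ℝ, 1 ≤ C ∧ ∀ H : ℕ, 1 ≤ H →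
      (H : ℝ) * y H ≤ C * ∑ j ∈ Finset.range (H + 1), y j * y (H - j) := by
    refine ⟨max C' 1, le_max_right _ _, fun H hH => (hy' H hH).trans ?_⟩
    refine mul_le_mul_of_nonneg_right (le_max_left _ _) ?_
    exact Finset.sum_nonneg fun j _ => mul_nonneg (hpos _) (hpos _)
  have hC0 : 0 < C := by linarith
  -- polynomial decay
  obtain ⟨M, hM⟩ := small hpos hle hs (ε := 1 / (32 * C)) (by positivity)
  obtain ⟨H1, hH1⟩ := exists_nat_ge (max (4 * C) (32 * C * M) + 1)
  have hH1a : 4 * C ≤ H1 := by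
    have := le_max_left (4 * C) (32 * C * M)
    linarith
  have hH1b : 32 * C * M ≤ H1 := by
    have := le_max_right (4 * C) (32 * C * M)
    linarith
  have hH1pos : (1 : ℝ) ≤ H1 := by
    have := le_max_left (4 * C) (32 * C * M)
    linarith
  set B : ℝ := (H1 : ℝ) ^ 2 with hB
  have hB0 : 0 < B := by positivity
  have hpoly : ∀ H : ℕ, 1 ≤ H → y H ≤ B / (H : ℝ) ^ 2 := by
    intro H
    induction H using Nat.strong_induction_on with
    | _ H ih =>
      intro hH
      have hHr : (1 : ℝ) ≤ H := by exact_mod_cast hH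
      have hHp : (0 : ℝ) < H := by linarith
      rcases lt_or_ge H H1 with h | h
      · have h1 : (H : ℝ) ≤ H1 := by exact_mod_cast h.le
        have h2 : (1 : ℝ) ≤ B / (H : ℝ) ^ 2 := by
          rw [one_le_div (by positivity), hB]
          gcongr
        exact (hle H).trans h2
      · have h1 : (H1 : ℝ) ≤ H := by exact_mod_cast h
        have h2 := inner h0 hy hH (hpos H) (hH1a.trans h1)
        have h3 := conv_le hpos (H := H) (m := 4 * B / (H : ℝ) ^ 2) (by positivity) (by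
          intro i hi1 hi2
          have hi0 : 1 ≤ i := by omega
          refine (ih i hi1 hi0).trans ?_
          have hir : (H : ℝ) ≤ 2 * i := by exact_mod_cast hi2
          have hip : (0 : ℝ) < i := by
            have : 0 < i := by omega
            exact_mod_cast this
          rw [div_le_div_iff₀ (by positivity) (by positivity)]
          nlinarith [mul_le_mul hir hir hHp.le (by positivity)])
        have h4 := hM H
        have h5 : 4 * C * ∑ j ∈ Finset.range H, y j ≤ H / 4 := by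
          have h6 : 4 * C * ∑ j ∈ Finset.range H, y j ≤ 4 * C * (M + 1 / (32 * C) * H) := by
            gcongr
          have h7 : 4 * C * (M + 1 / (32 * C) * H) = 32 * C * M / 8 + H / 8 := by
            field_simp
            ring
          rw [h7] at h6
          linarith
        set m : ℝ := 4 * B / (H : ℝ) ^ 2 with hm
        have hm0 : 0 ≤ m := by positivity
        have h8 : (H : ℝ) * y H ≤ H * (m / 4) := by
          calc (H : ℝ) * y H ≤ 2 * C * ∑ j ∈ Finset.Ico 1 H, y j * y (H - j) := h2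
            _ ≤ 2 * C * (2 * m * ∑ j ∈ Finset.range H, y j) := by gcongr
            _ = m * (4 * C * ∑ j ∈ Finset.range H, y j) := by ring
            _ ≤ m * (H / 4) := by gcongr
            _ = H * (m / 4) := by ring
        have h9 := le_of_mul_le_mul_left h8 hHp
        rw [hm] at h9
        calc y H ≤ 4 * B / (H : ℝ) ^ 2 / 4 := h9
          _ = B / (H : ℝ) ^ 2 := by ring
  -- exponential decay
  set A : ℝ := 2 * B with hA
  obtain ⟨H2, hH2⟩ := exists_nat_ge (max (4 * C) (16 * C * A) + 1)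
  have hH2a : 4 * C ≤ H2 := by
    have := le_max_left (4 * C) (16 * C * A)
    linarith
  have hH2b : 16 * C * A ≤ H2 := by
    have := le_max_right (4 * C) (16 * C * A)
    linarith
  have hH2pos : (1 : ℝ) ≤ H2 := by
    have := le_max_left (4 * C) (16 * C * A)
    linarith
  have hH2n : 1 ≤ H2 := by exact_mod_cast hH2pos
  obtain ⟨lam, hlam1, hlam2⟩ : ∃ lam : ℝ, 1 < lam ∧ lam ^ H2 ≤ 2 := by
    refine ⟨(2 : ℝ) ^ ((H2 : ℝ)⁻¹), Real.one_lt_rpow (by norm_num) (by positivity), ?_⟩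
    rw [← Real.rpow_natCast, ← Real.rpow_mul (by norm_num), inv_mul_cancel₀ (by positivity),
      Real.rpow_one]
  have hlam0 : 0 < lam := by linarith
  have hexp : ∀ H : ℕ, 1 ≤ H → y H * lam ^ H ≤ A / (H : ℝ) ^ 2 := by
    intro H
    induction H using Nat.strong_induction_on with
    | _ H ih =>
      intro hH
      have hHr : (1 : ℝ) ≤ H := by exact_mod_cast hH
      have hHp : (0 : ℝ) < H := by linarith
      rcases lt_or_ge H H2 with h | h
      · have h1 : lam ^ H ≤ 2 := (pow_le_pow_right₀ hlam1.le h.le).trans hlam2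
        calc y H * lam ^ H ≤ B / (H : ℝ) ^ 2 * 2 := by
              refine mul_le_mul (hpoly H hH) h1 (by positivity) (by positivity)
          _ = A / (H : ℝ) ^ 2 := by rw [hA]; ring
      · have h1 : (H2 : ℝ) ≤ H := by exact_mod_cast h
        have h2 := inner h0 hy hH (hpos H) (hH2a.trans h1)
        have h3 : (∑ j ∈ Finset.Ico 1 H, y j * y (H - j)) * lam ^ H ≤
            ∑ j ∈ Finset.Ico 1 H, A ^ 2 * (1 / ((j : ℝ) ^ 2 * ((H - j : ℕ) : ℝ) ^ 2)) := by
          rw [Finset.sum_mul]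
          refine Finset.sum_le_sum fun j hj => ?_
          rw [Finset.mem_Ico] at hj
          have e1 := ih j hj.2 hj.1
          have e2 := ih (H - j) (by omega) (by omega)
          have e3 : lam ^ H = lam ^ j * lam ^ (H - j) := by
            rw [← pow_add]; congr 1; omega
          have e4 := mul_le_mul e1 e2 (mul_nonneg (hpos _) (by positivity)) (by positivity)
          calc y j * y (H - j) * lam ^ H = (y j * lam ^ j) * (y (H - j) * lam ^ (H - j)) := by
                rw [e3]; ring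
            _ ≤ A / (j : ℝ) ^ 2 * (A / ((H - j : ℕ) : ℝ) ^ 2) := e4
            _ = A ^ 2 * (1 / ((j : ℝ) ^ 2 * ((H - j : ℕ) : ℝ) ^ 2)) := by
                rw [div_mul_div_comm]; ring
        rw [← Finset.mul_sum] at h3
        have h4 := inv_sq_sum hH
        have h5 : (H : ℝ) * (y H * lam ^ H) ≤ H * (A / (H : ℝ) ^ 2) := by
          calc (H : ℝ) * (y H * lam ^ H) = (H * y H) * lam ^ H := by ring
            _ ≤ (2 * C * ∑ j ∈ Finset.Ico 1 H, y j * y (H - j)) * lam ^ H := by gcongr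
            _ = 2 * C * ((∑ j ∈ Finset.Ico 1 H, y j * y (H - j)) * lam ^ H) := by ring
            _ ≤ 2 * C * (A ^ 2 * (8 / (H : ℝ) ^ 2)) :=
                mul_le_mul_of_nonneg_left
                  (h3.trans (mul_le_mul_of_nonneg_left h4 (by positivity))) (by positivity)
            _ = (16 * C * A) * (A / (H : ℝ) ^ 2) := by ring
            _ ≤ H * (A / (H : ℝ) ^ 2) := by
                gcongr
                exact hH2b.trans h1
        exact le_of_mul_le_mul_left h5 hHp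
  refine ⟨max A 1, lam, hlam1, fun n => ?_⟩
  rcases Nat.eq_zero_or_pos n with h | h
  · rw [h, h0, pow_zero, mul_one]
    exact le_max_right _ _
  · refine (hexp n h).trans (le_trans ?_ (le_max_left _ _))
    have : (1 : ℝ) ≤ n := by exact_mod_cast h
    exact div_le_self (by positivity) (one_le_pow₀ this)

end MPa1853d
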