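import Pool.Agent.Lib.MP_a1853d_al.Spec
import Mathlib

section
set_option autoImplicit false

/-!
# Module AN: an analytic lemma on almost submultiplicative sequences
-/

namespace MPa1853d

namespace AN

open Filter Topology

theorem reflect (y : ℕ → ℝ) (H : ℕ) :
    ∑ j ∈ Finset.Ico 1 H, y (H - j) = ∑ j ∈ Finset.Ico 1 H, y j := by
  have h := Finset.sum_Ico_reflect y 1 (m := H) (n := H) (by omega)
  rw [h]
  congr 1
  congr 1
  omega

/-- The inequality without the two extreme terms. -/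
theorem inner {y : ℕ → ℝ} {C : ℝ} (h0 : y 0 = 1)
    (hy : ∀ H : ℕ, 1 ≤ H → (H : ℝ) * y H ≤ C * ∑ j ∈ Finset.range (H + 1), y j * y (H - j))
    {H : ℕ} (hH : 1 ≤ H) (hpos : 0 ≤ y H) (hC : 4 * C ≤ H) :
    (H : ℝ) * y H ≤ 2 * C * ∑ j ∈ Finset.Ico 1 H, y j * y (H - j) := by
  have h1 := hy H hH
  rw [Finset.sum_range_succ, Finset.range_eq_Ico,
    Finset.sum_eq_sum_Ico_succ_bot (by omega : 0 < H)] at h1
  simp only [Nat.sub_zero, Nat.sub_self, h0, one_mul, mul_one, zero_add] at h1
  nlinarith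

theorem conv_le {y : ℕ → ℝ} (hpos : ∀ n, 0 ≤ y n) {H : ℕ} {m : ℝ} (hm0 : 0 ≤ m)
    (hm : ∀ i, i < H → H ≤ 2 * i → y i ≤ m) :
    ∑ j ∈ Finset.Ico 1 H, y j * y (H - j) ≤ 2 * m * ∑ j ∈ Finset.range H, y j := by
  have h1 : ∑ j ∈ Finset.Ico 1 H, y j * y (H - j) ≤
      ∑ j ∈ Finset.Ico 1 H, (m * y j + m * y (H - j)) := by
    refine Finset.sum_le_sum fun j hj => ?_
    rw [Finset.mem_Ico] at hj
    by_cases h : H ≤ 2 * j
    · have h2 := hm j hj.2 h
      have h3 := mul_le_mul_of_nonneg_right h2 (hpos (H - j))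
      have h4 := mul_nonneg hm0 (hpos j)
      linarith
    · have h2 := hm (H - j) (by omega) (by omega)
      have h3 := mul_le_mul_of_nonneg_left h2 (hpos j)
      have h4 := mul_nonneg hm0 (hpos (H - j))
      linarith
  rw [Finset.sum_add_distrib, ← Finset.mul_sum, ← Finset.mul_sum, reflect] at h1
  have h2 : ∑ j ∈ Finset.Ico 1 H, y j ≤ ∑ j ∈ Finset.range H, y j := by
    refine Finset.sum_le_sum_of_subset_of_nonneg ?_ fun j _ _ => hpos j
    intro j hj
    rw [Finset.mem_Ico] at hj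
    exact Finset.mem_range.2 hj.2
  have h3 := mul_le_mul_of_nonneg_left h2 hm0
  linarith

/-- Kronecker's lemma. -/
theorem small {y : ℕ → ℝ} (hpos : ∀ n, 0 ≤ y n) (hle : ∀ n, y n ≤ 1)
    (hs : Summable (fun n : ℕ => y n / (n : ℝ))) {ε : ℝ} (hε : 0 < ε) :
    ∃ M : ℕ, ∀ H : ℕ, ∑ j ∈ Finset.range H, y j ≤ M + ε * H := by
  have ht := tendsto_sum_nat_add (fun n : ℕ => y n / (n : ℝ))
  obtain ⟨M, hM1, hM⟩ := ((ht.eventually (gt_mem_nhds hε)).and (eventually_ge_atTop 1)).exists
  refine ⟨M, fun H => ?_⟩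
  have hcard : ∀ k : ℕ, ∑ j ∈ Finset.range k, y j ≤ k := by
    intro k
    calc ∑ j ∈ Finset.range k, y j ≤ ∑ j ∈ Finset.range k, (1 : ℝ) :=
          Finset.sum_le_sum fun j _ => hle j
      _ = k := by simp
  rcases le_total H M with h | h
  · have h1 := hcard H
    have h2 : (H : ℝ) ≤ M := by exact_mod_cast h
    have h3 : 0 ≤ ε * H := by positivity
    linarith
  · have h1 : ∑ j ∈ Finset.range H, y j =
        ∑ j ∈ Finset.range M, y j + ∑ j ∈ Finset.Ico M H, y j :=
      (Finset.sum_range_add_sum_Ico _ h).symm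
    have h2 : ∑ j ∈ Finset.Ico M H, y j ≤ H * ∑ j ∈ Finset.Ico M H, y j / (j : ℝ) := by
      rw [Finset.mul_sum]
      refine Finset.sum_le_sum fun j hj => ?_
      rw [Finset.mem_Ico] at hj
      have hj0 : (0 : ℝ) < j := by
        have : 0 < j := by omega
        exact_mod_cast this
      have hjH : (j : ℝ) ≤ H := by exact_mod_cast hj.2.le
      have h3 : y j = j * (y j / j) := by field_simp
      have h4 : 0 ≤ y j / j := div_nonneg (hpos j) hj0.le
      calc y j = j * (y j / j) := h3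
        _ ≤ H * (y j / j) := mul_le_mul_of_nonneg_right hjH h4
    have h3 : ∑ j ∈ Finset.Ico M H, y j / (j : ℝ) ≤ ε := by
      rw [Finset.sum_Ico_eq_sum_range]
      have h4 : Summable fun k : ℕ => y (k + M) / ((k + M : ℕ) : ℝ) :=
        (summable_nat_add_iff M).2 hs
      have h5 := h4.sum_le_tsum (Finset.range (H - M))
        (fun k _ => div_nonneg (hpos _) (Nat.cast_nonneg _))
      refine le_trans (le_of_eq ?_) (h5.trans hM1.le)
      refine Finset.sum_congr rfl fun k _ => ?_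
      rw [add_comm]
    have h4 : (H : ℝ) * ∑ j ∈ Finset.Ico M H, y j / (j : ℝ) ≤ H * ε :=
      mul_le_mul_of_nonneg_left h3 (Nat.cast_nonneg _)
    have h5 := hcard M
    linarith

theorem inv_sq_sum {H : ℕ} (hH : 1 ≤ H) :
    ∑ j ∈ Finset.Ico 1 H, 1 / ((j : ℝ) ^ 2 * ((H - j : ℕ) : ℝ) ^ 2) ≤ 8 / (H : ℝ) ^ 2 := by
  have hH0 : (0 : ℝ) < H := by exact_mod_cast hH
  have h1 : ∑ j ∈ Finset.Ico 1 H, 1 / ((j : ℝ) ^ 2 * ((H - j : ℕ) : ℝ) ^ 2) ≤
      ∑ j ∈ Finset.Ico 1 H, (2 / (H : ℝ) ^ 2 * ((j : ℝ) ^ 2)⁻¹ +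
        2 / (H : ℝ) ^ 2 * (((H - j : ℕ) : ℝ) ^ 2)⁻¹) := by
    refine Finset.sum_le_sum fun j hj => ?_
    rw [Finset.mem_Ico] at hj
    have hj0 : (0 : ℝ) < j := by
      have : 0 < j := by omega
      exact_mod_cast this
    have hk0 : (0 : ℝ) < ((H - j : ℕ) : ℝ) := by
      have : 0 < H - j := by omega
      exact_mod_cast this
    have hsum : (H : ℝ) = j + ((H - j : ℕ) : ℝ) := by
      have : H = j + (H - j) := by omega
      exact_mod_cast this
    set k : ℝ := ((H - j : ℕ) : ℝ) with hk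
    rw [hsum]
    have hjk : 0 < (j : ℝ) + k := by positivity
    rw [← sub_nonneg]
    have : 2 / ((j : ℝ) + k) ^ 2 * ((j : ℝ) ^ 2)⁻¹ + 2 / ((j : ℝ) + k) ^ 2 * (k ^ 2)⁻¹ -
        1 / ((j : ℝ) ^ 2 * k ^ 2) = ((j : ℝ) - k) ^ 2 / (((j : ℝ) + k) ^ 2 * (j ^ 2 * k ^ 2)) := by
      field_simp
      ring
    rw [this]
    positivity
  have h2 : ∑ j ∈ Finset.Ico 1 H, ((j : ℝ) ^ 2)⁻¹ ≤ 2 := by
    have h3 := sum_Ioo_inv_sq_le (α := ℝ) 0 H
    have h4 : Finset.Ioo 0 H = Finset.Ico 1 H := by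
      ext j; simp only [Finset.mem_Ioo, Finset.mem_Ico]; omega
    rw [h4] at h3
    simpa using h3
  have h3 : ∑ j ∈ Finset.Ico 1 H, (((H - j : ℕ) : ℝ) ^ 2)⁻¹ ≤ 2 := by
    rw [reflect (fun i : ℕ => ((i : ℝ) ^ 2)⁻¹) H]
    exact h2
  rw [Finset.sum_add_distrib, ← Finset.mul_sum, ← Finset.mul_sum] at h1
  have h4 : 0 < 2 / (H : ℝ) ^ 2 := by positivity
  calc _ ≤ _ := h1
    _ ≤ 2 / (H : ℝ) ^ 2 * 2 + 2 / (H : ℝ) ^ 2 * 2 := by gcongr
    _ = 8 / (H : ℝ) ^ 2 := by ring

end AN

open AN in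
/-- Module AN. -/
theorem specAN : SpecAN := by
  intro y C' h0 hpos hle hy' hs
  -- we may assume `C ≥ 1`
  obtain ⟨C, hC1, hy⟩ : ∃ C : ℝ, 1 ≤ C ∧ ∀ H : ℕ, 1 ≤ H →
      (H : ℝ) * y H ≤ C * ∑ j ∈ Finset.range (H + 1), y j * y (H - j) := by
    refine ⟨max C' 1, le_max_right _ _, fun H hH => (hy' H hH).trans ?_⟩
    refine mul_le_mul_of_nonneg_right (le_max_left _ _) ?_
    exact Finset.sum_nonneg fun j _ => mul_nonneg (hpos _) (hpos _)
  have hC0 : 0 < C := by linarith
  -- polynomial decay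
  obtain ⟨M, hM⟩ := small hpos hle hs (ε := 1 / (32 * C)) (by positivity)
  obtain ⟨H1, hH1⟩ := exists_nat_ge (max (4 * C) (32 * C * M) + 1)
  have hH1a : 4 * C ≤ H1 := by
    have := le_max_left (4 * C) (32 * C * M)
    linarith
  have hH1b : 32 * C * M ≤ H1 := by
    have := le_max_right (4 * C) (32 * C * M)
    linarith
  have hH1pos : (1 : ℝ) ≤ H1 := by
    have := le_max_left (4 * C) (32 * C * M)
    linarith
  set B : ℝ := (H1 : ℝ) ^ 2 with hB
  have hB0 : 0 < B := by positivity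
  have hpoly : ∀ H : ℕ, 1 ≤ H → y H ≤ B / (H : ℝ) ^ 2 := by
    intro H
    induction H using Nat.strong_induction_on with
    | _ H ih =>
      intro hH
      have hHr : (1 : ℝ) ≤ H := by exact_mod_cast hH
      have hHp : (0 : ℝ) < H := by linarith
      rcases lt_or_ge H H1 with h | h
      · have h1 : (H : ℝ) ≤ H1 := by exact_mod_cast h.le
        have h2 : (1 : ℝ) ≤ B / (H : ℝ) ^ 2 := by
          rw [one_le_div (by positivity), hB]
          gcongr
        exact (hle H).trans h2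
      · have h1 : (H1 : ℝ) ≤ H := by exact_mod_cast h
        have h2 := inner h0 hy hH (hpos H) (hH1a.trans h1)
        have h3 := conv_le hpos (H := H) (m := 4 * B / (H : ℝ) ^ 2) (by positivity) (by
          intro i hi1 hi2
          have hi0 : 1 ≤ i := by omega
          refine (ih i hi1 hi0).trans ?_
          have hir : (H : ℝ) ≤ 2 * i := by exact_mod_cast hi2
          have hip : (0 : ℝ) < i := by
            have : 0 < i := by omega
            exact_mod_cast this
          rw [div_le_div_iff₀ (by positivity) (by positivity)]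
          nlinarith [mul_le_mul hir hir hHp.le (by positivity)])
        have h4 := hM H
        have h5 : 4 * C * ∑ j ∈ Finset.range H, y j ≤ H / 4 := by
          have h6 : 4 * C * ∑ j ∈ Finset.range H, y j ≤ 4 * C * (M + 1 / (32 * C) * H) := by
            gcongr
          have h7 : 4 * C * (M + 1 / (32 * C) * H) = 32 * C * M / 8 + H / 8 := by
            field_simp
            ring
          rw [h7] at h6
          linarith
        set m : ℝ := 4 * B / (H : ℝ) ^ 2 with hm
        have hm0 : 0 ≤ m := by positivity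
        have h8 : (H : ℝ) * y H ≤ H * (m / 4) := by
          calc (H : ℝ) * y H ≤ 2 * C * ∑ j ∈ Finset.Ico 1 H, y j * y (H - j) := h2
            _ ≤ 2 * C * (2 * m * ∑ j ∈ Finset.range H, y j) := by gcongr
            _ = m * (4 * C * ∑ j ∈ Finset.range H, y j) := by ring
            _ ≤ m * (H / 4) := by gcongr
            _ = H * (m / 4) := by ring
        have h9 := le_of_mul_le_mul_left h8 hHp
        rw [hm] at h9
        calc y H ≤ 4 * B / (H : ℝ) ^ 2 / 4 := h9
          _ = B / (H : ℝ) ^ 2 := by ring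
  -- exponential decay
  set A : ℝ := 2 * B with hA
  obtain ⟨H2, hH2⟩ := exists_nat_ge (max (4 * C) (16 * C * A) + 1)
  have hH2a : 4 * C ≤ H2 := by
    have := le_max_left (4 * C) (16 * C * A)
    linarith
  have hH2b : 16 * C * A ≤ H2 := by
    have := le_max_right (4 * C) (16 * C * A)
    linarith
  have hH2pos : (1 : ℝ) ≤ H2 := by
    have := le_max_left (4 * C) (16 * C * A)
    linarith
  have hH2n : 1 ≤ H2 := by exact_mod_cast hH2pos
  obtain ⟨lam, hlam1, hlam2⟩ : ∃ lam : ℝ, 1 < lam ∧ lam ^ H2 ≤ 2 := by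
    refine ⟨(2 : ℝ) ^ ((H2 : ℝ)⁻¹), Real.one_lt_rpow (by norm_num) (by positivity), ?_⟩
    rw [← Real.rpow_natCast, ← Real.rpow_mul (by norm_num), inv_mul_cancel₀ (by positivity),
      Real.rpow_one]
  have hlam0 : 0 < lam := by linarith
  have hexp : ∀ H : ℕ, 1 ≤ H → y H * lam ^ H ≤ A / (H : ℝ) ^ 2 := by
    intro H
    induction H using Nat.strong_induction_on with
    | _ H ih =>
      intro hH
      have hHr : (1 : ℝ) ≤ H := by exact_mod_cast hH
      have hHp : (0 : ℝ) < H := by linarith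
      rcases lt_or_ge H H2 with h | h
      · have h1 : lam ^ H ≤ 2 := (pow_le_pow_right₀ hlam1.le h.le).trans hlam2
        calc y H * lam ^ H ≤ B / (H : ℝ) ^ 2 * 2 := by
              refine mul_le_mul (hpoly H hH) h1 (by positivity) (by positivity)
          _ = A / (H : ℝ) ^ 2 := by rw [hA]; ring
      · have h1 : (H2 : ℝ) ≤ H := by exact_mod_cast h
        have h2 := inner h0 hy hH (hpos H) (hH2a.trans h1)
        have h3 : (∑ j ∈ Finset.Ico 1 H, y j * y (H - j)) * lam ^ H ≤
            ∑ j ∈ Finset.Ico 1 H, A ^ 2 * (1 / ((j : ℝ) ^ 2 * ((H - j : ℕ) : ℝ) ^ 2)) := by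
          rw [Finset.sum_mul]
          refine Finset.sum_le_sum fun j hj => ?_
          rw [Finset.mem_Ico] at hj
          have e1 := ih j hj.2 hj.1
          have e2 := ih (H - j) (by omega) (by omega)
          have e3 : lam ^ H = lam ^ j * lam ^ (H - j) := by
            rw [← pow_add]; congr 1; omega
          have e4 := mul_le_mul e1 e2 (mul_nonneg (hpos _) (by positivity)) (by positivity)
          calc y j * y (H - j) * lam ^ H = (y j * lam ^ j) * (y (H - j) * lam ^ (H - j)) := by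
                rw [e3]; ring
            _ ≤ A / (j : ℝ) ^ 2 * (A / ((H - j : ℕ) : ℝ) ^ 2) := e4
            _ = A ^ 2 * (1 / ((j : ℝ) ^ 2 * ((H - j : ℕ) : ℝ) ^ 2)) := by
                rw [div_mul_div_comm]; ring
        rw [← Finset.mul_sum] at h3
        have h4 := inv_sq_sum hH
        have h5 : (H : ℝ) * (y H * lam ^ H) ≤ H * (A / (H : ℝ) ^ 2) := by
          calc (H : ℝ) * (y H * lam ^ H) = (H * y H) * lam ^ H := by ring
            _ ≤ (2 * C * ∑ j ∈ Finset.Ico 1 H, y j * y (H - j)) * lam ^ H := by gcongr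
            _ = 2 * C * ((∑ j ∈ Finset.Ico 1 H, y j * y (H - j)) * lam ^ H) := by ring
            _ ≤ 2 * C * (A ^ 2 * (8 / (H : ℝ) ^ 2)) :=
                mul_le_mul_of_nonneg_left
                  (h3.trans (mul_le_mul_of_nonneg_left h4 (by positivity))) (by positivity)
            _ = (16 * C * A) * (A / (H : ℝ) ^ 2) := by ring
            _ ≤ H * (A / (H : ℝ) ^ 2) := by
                gcongr
                exact hH2b.trans h1
        exact le_of_mul_le_mul_left h5 hHp
  refine ⟨max A 1, lam, hlam1, fun n => ?_⟩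
  rcases Nat.eq_zero_or_pos n with h | h
  · rw [h, h0, pow_zero, mul_one]
    exact le_max_right _ _
  · refine (hexp n h).trans (le_trans ?_ (le_max_left _ _))
    have : (1 : ℝ) ≤ n := by exact_mod_cast h
    exact div_le_self (by positivity) (one_le_pow₀ this)

end MPa1853d
end

section
set_option autoImplicit false

/-! # Digit expansions -/

namespace MPa1853d

theorem dval_append (k : ℤ) {K a b : ℕ} (u : Fin a → Fin K) (v : Fin b → Fin K) :
    dval k (Fin.append u v) = dval k u + k ^ a * dval k v := by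
  unfold dval
  rw [Fin.sum_univ_add]
  congr 1
  · apply Finset.sum_congr rfl
    intro i _
    rw [Fin.append_left]
    simp
  · rw [Finset.mul_sum]
    apply Finset.sum_congr rfl
    intro i _
    rw [Fin.append_right]
    simp only [Fin.val_natAdd]
    rw [pow_add]
    ring

theorem dval_snoc (k : ℤ) {K a : ℕ} (u : Fin a → Fin K) (d : Fin K) :
    dval k (Fin.snoc u d : Fin (a + 1) → Fin K) = dval k u + ((d : ℕ) : ℤ) * k ^ a := by
  unfold dval
  rw [Fin.sum_univ_castSucc]
  simp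

theorem dval_cons (k : ℤ) {K a : ℕ} (u : Fin a → Fin K) (d : Fin K) :
    dval k (Fin.cons d u : Fin (a + 1) → Fin K) = ((d : ℕ) : ℤ) + k * dval k u := by
  unfold dval
  rw [Fin.sum_univ_succ, Finset.mul_sum]
  congr 1
  · simp
  · apply Finset.sum_congr rfl
    intro i _
    simp only [Fin.cons_succ, Fin.val_succ]
    rw [pow_succ]
    ring

theorem dval_abs_lt (k : ℤ) {K H : ℕ} (hK : K = k.natAbs) (hK2 : 2 ≤ K) (W : Fin H → Fin K) :
    |dval k W| + 1 ≤ (K : ℤ) ^ H := by
  induction H with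
  | zero => simp [dval]
  | succ H ih =>
    have h1 : W = Fin.snoc (fun i : Fin H => W i.castSucc) (W (Fin.last H)) := by
      refine (Fin.snoc_init_self W).symm
    rw [h1, dval_snoc]
    have h2 := ih (fun i : Fin H => W i.castSucc)
    have h3 : |(((W (Fin.last H) : Fin K) : ℕ) : ℤ) * k ^ H| ≤ ((K : ℤ) - 1) * (K : ℤ) ^ H := by
      rw [abs_mul, abs_pow]
      have e : |k| = (K : ℤ) := by rw [hK]; simp
      rw [e]
      apply mul_le_mul_of_nonneg_right _ (by positivity)
      have := (W (Fin.last H)).isLt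
      rw [abs_of_nonneg (by positivity)]
      omega
    have h4 := abs_add_le (dval k fun i : Fin H => W i.castSucc)
      ((((W (Fin.last H) : Fin K) : ℕ) : ℤ) * k ^ H)
    rw [pow_succ]
    linarith

/-- Every integer has a word congruent to it modulo `k ^ H`. -/
theorem dval_repr (k : ℤ) {K : ℕ} (hK : K = k.natAbs) (hK2 : 2 ≤ K) (H : ℕ) (v : ℤ) :
    ∃ (W : Fin H → Fin K) (c : ℤ), v = dval k W + c * k ^ H := by
  induction H with
  | zero => exact ⟨Fin.elim0, v, by simp [dval]⟩
  | succ H ih =>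
    obtain ⟨W, c, h⟩ := ih
    have hk0 : k ≠ 0 := by
      intro h0; subst h0; simp at hK; omega
    have h1 : 0 ≤ c % k := Int.emod_nonneg _ hk0
    have h2 : c % k < |k| := Int.emod_lt_abs _ hk0
    have e : |k| = (K : ℤ) := by rw [hK]; simp
    rw [e] at h2
    have h3 : (c % k).toNat < K := by omega
    refine ⟨Fin.snoc W ⟨(c % k).toNat, h3⟩, c / k, ?_⟩
    rw [dval_snoc, h]
    have h4 : (((⟨(c % k).toNat, h3⟩ : Fin K) : ℕ) : ℤ) = c % k := by
      simp only
      exact Int.toNat_of_nonneg h1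
    rw [h4]
    have h5 := Int.emod_add_mul_ediv c k
    rw [pow_succ]
    calc dval k W + c * k ^ H = dval k W + (c % k + k * (c / k)) * k ^ H := by rw [h5]
      _ = _ := by ring

theorem dval_repr_bound (k : ℤ) {K : ℕ} (hK : K = k.natAbs) (hK2 : 2 ≤ K) (H : ℕ) (v : ℤ) (B : ℕ)
    (hv : |v| ≤ B * (K : ℤ) ^ H) :
    ∃ (W : Fin H → Fin K) (c : ℤ), v = dval k W + c * k ^ H ∧ |c| ≤ B := by
  obtain ⟨W, c, h⟩ := dval_repr k hK hK2 H v
  refine ⟨W, c, h, ?_⟩
  have h1 := dval_abs_lt k hK hK2 W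
  have e : |k| = (K : ℤ) := by rw [hK]; simp
  have h2 : |c| * (K : ℤ) ^ H = |c * k ^ H| := by rw [abs_mul, abs_pow, e]
  have h3 : c * k ^ H = v - dval k W := by rw [h]; ring
  have h4 : |v - dval k W| ≤ |v| + |dval k W| := by
    have := abs_add_le v (-dval k W)
    rwa [abs_neg, ← sub_eq_add_neg] at this
  have hpos : (0 : ℤ) < (K : ℤ) ^ H := by positivity
  have h5 : |c| * (K : ℤ) ^ H < ((B : ℤ) + 1) * (K : ℤ) ^ H := by
    rw [h2, h3]
    nlinarith
  have h6 := lt_of_mul_lt_mul_right h5 hpos.le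
  omega

theorem dval_inj_mod (k : ℤ) {K H : ℕ} (hK : K = k.natAbs) (hK2 : 2 ≤ K) (W W' : Fin H → Fin K)
    (h : k ^ H ∣ dval k W - dval k W') : W = W' := by
  induction H with
  | zero => exact funext fun i => i.elim0
  | succ H ih =>
    have hk0 : k ≠ 0 := by
      intro h0; subst h0; simp at hK; omega
    have e : |k| = (K : ℤ) := by rw [hK]; simp
    have h1 : W = Fin.cons (W 0) (fun i : Fin H => W i.succ) := (Fin.cons_self_tail W).symm
    have h2 : W' = Fin.cons (W' 0) (fun i : Fin H => W' i.succ) := (Fin.cons_self_tail W').symm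
    have h3 : dval k W = (((W 0 : Fin K) : ℕ) : ℤ) + k * dval k (fun i : Fin H => W i.succ) := by
      conv_lhs => rw [h1]
      rw [dval_cons]
    have h4 : dval k W' = (((W' 0 : Fin K) : ℕ) : ℤ) + k * dval k (fun i : Fin H => W' i.succ) := by
      conv_lhs => rw [h2]
      rw [dval_cons]
    have h5 : k ∣ (((W 0 : Fin K) : ℕ) : ℤ) - (((W' 0 : Fin K) : ℕ) : ℤ) := by
      have h6 : k ∣ dval k W - dval k W' := (dvd_pow_self k (Nat.succ_ne_zero H)).trans h
      rw [h3, h4] at h6
      have h7 : (((W 0 : Fin K) : ℕ) : ℤ) - (((W' 0 : Fin K) : ℕ) : ℤ) =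
          ((((W 0 : Fin K) : ℕ) : ℤ) + k * dval k (fun i : Fin H => W i.succ) -
            ((((W' 0 : Fin K) : ℕ) : ℤ) + k * dval k (fun i : Fin H => W' i.succ))) -
          k * (dval k (fun i : Fin H => W i.succ) - dval k (fun i : Fin H => W' i.succ)) := by ring
      rw [h7]
      exact dvd_sub h6 (dvd_mul_right _ _)
    have h6 : (((W 0 : Fin K) : ℕ) : ℤ) - (((W' 0 : Fin K) : ℕ) : ℤ) = 0 := by
      apply Int.eq_zero_of_abs_lt_dvd ((abs_dvd k _).2 h5)
      rw [e]
      have a1 := (W 0).isLt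
      have a2 := (W' 0).isLt
      rw [abs_lt]
      constructor <;> omega
    have h7 : W 0 = W' 0 := by
      apply Fin.ext
      omega
    have h8 : (fun i : Fin H => W i.succ) = (fun i : Fin H => W' i.succ) := by
      apply ih
      rw [h3, h4, h7] at h
      have h9 : (((W' 0 : Fin K) : ℕ) : ℤ) + k * dval k (fun i : Fin H => W i.succ) -
            ((((W' 0 : Fin K) : ℕ) : ℤ) + k * dval k (fun i : Fin H => W' i.succ)) =
          k * (dval k (fun i : Fin H => W i.succ) - dval k (fun i : Fin H => W' i.succ)) := by ring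
      rw [h9, pow_succ, mul_comm (k ^ H) k] at h
      exact Int.dvd_of_mul_dvd_mul_left hk0 h
    rw [h1, h2, h7, h8]

theorem dval_injective (k : ℤ) {K H : ℕ} (hK : K = k.natAbs) (hK2 : 2 ≤ K) :
    Function.Injective (dval k : (Fin H → Fin K) → ℤ) := by
  intro W W' h
  apply dval_inj_mod k hK hK2
  simp [h]

theorem dval_update (k : ℤ) {K H : ℕ} (W : Fin H → Fin K) (i : Fin H) (d : Fin K) :
    dval k (Function.update W i d) =
      dval k W + (((d : ℕ) : ℤ) - ((W i : ℕ) : ℤ)) * k ^ (i : ℕ) := by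
  unfold dval
  have h1 : ∀ j : Fin H, (((Function.update W i d) j : ℕ) : ℤ) * k ^ (j : ℕ) =
      ((W j : ℕ) : ℤ) * k ^ (j : ℕ) +
        (if j = i then (((d : ℕ) : ℤ) - ((W i : ℕ) : ℤ)) * k ^ (i : ℕ) else 0) := by
    intro j
    by_cases hj : j = i
    · subst hj
      simp only [Function.update_self, if_true]
      ring
    · rw [Function.update_of_ne hj, if_neg hj, add_zero]
  rw [Finset.sum_congr rfl (fun j _ => h1 j), Finset.sum_add_distrib]
  simp

theorem dval_take (k : ℤ) {K H : ℕ} (W : Fin H → Fin K) (d : ℕ) (hd : d ≤ H) :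
    k ^ d ∣ dval k W - dval k (fun i : Fin d => W (Fin.castLE hd i)) := by
  obtain ⟨e, rfl⟩ := Nat.exists_eq_add_of_le hd
  have h1 : dval k W = dval k (fun i : Fin d => W (Fin.castLE hd i)) +
      k ^ d * dval k (fun i : Fin e => W (Fin.natAdd d i)) := by
    rw [← dval_append]
    congr 1
    ext i
    refine Fin.addCases (fun i => ?_) (fun i => ?_) i
    · rw [Fin.append_left]; rfl
    · rw [Fin.append_right]
  rw [h1]
  simp

theorem k_pow_sub_one_abs (k : ℤ) {K : ℕ} (hK : K = k.natAbs) (H : ℕ) :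
    (K : ℤ) ^ H - 1 ≤ |k ^ H - 1| ∧ |k ^ H - 1| ≤ (K : ℤ) ^ H + 1 := by
  have e : |k| = (K : ℤ) := by rw [hK]; simp
  have h1 : |k ^ H| = (K : ℤ) ^ H := by rw [abs_pow, e]
  constructor
  · have := abs_sub_abs_le_abs_sub (k ^ H) 1
    rw [h1] at this
    simpa using this
  · have := abs_sub (k ^ H) 1
    rw [h1] at this
    simpa using this

/-- At most five words of length `H` lie in one residue class modulo `k ^ H - 1`. -/
theorem card_congr_le (k : ℤ) {K H : ℕ} (hK : K = k.natAbs) (hK2 : 2 ≤ K) (hH : 1 ≤ H) (r : ℤ)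
    (s : Finset (Fin H → Fin K)) (hs : ∀ W ∈ s, (k ^ H - 1) ∣ dval k W - r) : s.card ≤ 5 := by
  rcases s.eq_empty_or_nonempty with rfl | ⟨W₀, hW₀⟩
  · simp
  have hm := (k_pow_sub_one_abs k hK H).1
  have hpos : (2 : ℤ) ≤ (K : ℤ) ^ H := by
    have : (K : ℤ) ^ 1 ≤ (K : ℤ) ^ H := pow_le_pow_right₀ (by omega) hH
    rw [pow_one] at this
    have : (2 : ℤ) ≤ K := by exact_mod_cast hK2
    linarith
  have key : ∀ W ∈ s, ∃ t : ℤ, t ∈ Finset.Icc (-2 : ℤ) 2 ∧
      dval k W - dval k W₀ = (k ^ H - 1) * t := by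
    intro W hW
    have h1 : (k ^ H - 1) ∣ dval k W - dval k W₀ := by
      have := dvd_sub (hs W hW) (hs W₀ hW₀)
      simpa using this
    obtain ⟨t, ht⟩ := h1
    refine ⟨t, ?_, ht⟩
    have h2 := dval_abs_lt k hK hK2 W
    have h3 := dval_abs_lt k hK hK2 W₀
    have h4 : |dval k W - dval k W₀| ≤ |dval k W| + |dval k W₀| := abs_sub _ _
    rw [ht, abs_mul] at h4
    have h5 : |t| ≤ 2 := by
      by_contra hcon
      push Not at hcon
      have h6 : (3 : ℤ) ≤ |t| := by omega
      nlinarith [abs_nonneg (k ^ H - 1)]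
    rw [abs_le] at h5
    simp [h5.1, h5.2]
  choose! f hf1 hf2 using key
  have hinj : Set.InjOn f s := by
    intro W hW W' hW' hWW
    apply dval_injective k hK hK2
    have a1 := hf2 W hW
    have a2 := hf2 W' hW'
    rw [hWW] at a1
    linarith
  calc s.card ≤ (Finset.Icc (-2 : ℤ) 2).card :=
        Finset.card_le_card_of_injOn f (fun W hW => hf1 W hW) hinj
    _ = 5 := by decide

end MPa1853d
end

section
set_option autoImplicit false

/-!
# Paths of letters

A letter is a pair `(a, e)`; read at height `h` it contributes `a * k ^ h` and moves to height `h + e`.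
-/

namespace MPa1853d

/-- Sum of `f` over the letters of a word started at height `h`. -/
def psum {M : Type*} [AddCommMonoid M] (f : ℤ → ℤ × ℤ → M) : ℤ → List (ℤ × ℤ) → M
  | _, [] => 0
  | h, p :: l => f h p + psum f (h + p.2) l

/-- Final height of a word started at height `h`. -/
def fin : ℤ → List (ℤ × ℤ) → ℤ
  | h, [] => h
  | h, p :: l => fin (h + p.2) l

@[simp] theorem fin_nil (h : ℤ) : fin h [] = h := rfl
@[simp] theorem fin_cons (h : ℤ) (p : ℤ × ℤ) (l : List (ℤ × ℤ)) :
    fin h (p :: l) = fin (h + p.2) l := rfl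

theorem fin_append (l₁ l₂ : List (ℤ × ℤ)) (h : ℤ) : fin h (l₁ ++ l₂) = fin (fin h l₁) l₂ := by
  induction l₁ generalizing h with
  | nil => rfl
  | cons p l ih => simp [ih]

theorem fin_shift (l : List (ℤ × ℤ)) (h i : ℤ) : fin (h + i) l = fin h l + i := by
  induction l generalizing h with
  | nil => rfl
  | cons p l ih =>
    simp only [fin_cons]
    rw [← ih]
    congr 1
    ring

section
variable {M : Type*} [AddCommMonoid M]

@[simp] theorem psum_nil (f : ℤ → ℤ × ℤ → M) (h : ℤ) : psum f h [] = 0 := rfl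
@[simp] theorem psum_cons (f : ℤ → ℤ × ℤ → M) (h : ℤ) (p : ℤ × ℤ) (l : List (ℤ × ℤ)) :
    psum f h (p :: l) = f h p + psum f (h + p.2) l := rfl

theorem psum_append (f : ℤ → ℤ × ℤ → M) (l₁ l₂ : List (ℤ × ℤ)) (h : ℤ) :
    psum f h (l₁ ++ l₂) = psum f h l₁ + psum f (fin h l₁) l₂ := by
  induction l₁ generalizing h with
  | nil => simp
  | cons p l ih => simp [ih, add_assoc]

theorem psum_shift (f : ℤ → ℤ × ℤ → M) (l : List (ℤ × ℤ)) (h i : ℤ) :
    psum f (h + i) l = psum (fun h' p => f (h' + i) p) h l := by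
  induction l generalizing h with
  | nil => rfl
  | cons p l ih =>
    simp only [psum_cons]
    rw [← ih]
    congr 2
    ring

theorem psum_add (f g : ℤ → ℤ × ℤ → M) (l : List (ℤ × ℤ)) (h : ℤ) :
    psum (fun h p => f h p + g h p) h l = psum f h l + psum g h l := by
  induction l generalizing h with
  | nil => simp
  | cons p l ih =>
    simp only [psum_cons, ih]
    exact add_add_add_comm _ _ _ _

theorem psum_zero (l : List (ℤ × ℤ)) (h : ℤ) :
    psum (fun _ _ => (0 : M)) h l = 0 := by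
  induction l generalizing h with
  | nil => rfl
  | cons p l ih => simp [ih]

theorem psum_finset_sum {ι : Type*} (s : Finset ι) (f : ι → ℤ → ℤ × ℤ → M)
    (l : List (ℤ × ℤ)) (h : ℤ) :
    psum (fun h p => ∑ i ∈ s, f i h p) h l = ∑ i ∈ s, psum (f i) h l := by
  induction l generalizing h with
  | nil => simp
  | cons p l ih => simp only [psum_cons, ih, Finset.sum_add_distrib]

theorem psum_map {N : Type*} [AddCommMonoid N] (φ : M →+ N) (f : ℤ → ℤ × ℤ → M)
    (l : List (ℤ × ℤ)) (h : ℤ) :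
    φ (psum f h l) = psum (fun h p => φ (f h p)) h l := by
  induction l generalizing h with
  | nil => simp
  | cons p l ih => simp only [psum_cons, map_add, ih]

theorem psum_const (l : List (ℤ × ℤ)) (h : ℤ) (c : M) :
    psum (fun _ _ => c) h l = l.length • c := by
  induction l generalizing h with
  | nil => simp
  | cons p l ih => simp only [psum_cons, ih, List.length_cons, add_smul, one_smul, add_comm]
end

/-- all visited (starting) heights satisfy `p` and all letters belong to `L`. -/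
def allH (p : ℤ → Prop) : ℤ → List (ℤ × ℤ) → Prop
  | _, [] => True
  | h, q :: l => p h ∧ allH p (h + q.2) l

theorem psum_congr {M : Type*} [AddCommMonoid M] {f g : ℤ → ℤ × ℤ → M} {P : ℤ → Prop}
    (l : List (ℤ × ℤ)) (h : ℤ) (hP : allH P h l)
    (hfg : ∀ h, P h → ∀ p ∈ l, f h p = g h p) : psum f h l = psum g h l := by
  induction l generalizing h with
  | nil => rfl
  | cons p l ih =>
    simp only [psum_cons]
    rw [hfg h hP.1 p (by simp), ih _ hP.2 (fun h hh q hq => hfg h hh q (by simp [hq]))]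

theorem psum_congr' {M : Type*} [AddCommMonoid M] {f g : ℤ → ℤ × ℤ → M}
    (l : List (ℤ × ℤ)) (h : ℤ)
    (hfg : ∀ h, ∀ p ∈ l, f h p = g h p) : psum f h l = psum g h l := by
  induction l generalizing h with
  | nil => rfl
  | cons p l ih =>
    simp only [psum_cons]
    rw [hfg h p (by simp), ih _ (fun h q hq => hfg h q (by simp [hq]))]

theorem psum_le {M : Type*} [AddCommMonoid M] [PartialOrder M] [IsOrderedAddMonoid M]
    {f g : ℤ → ℤ × ℤ → M} (l : List (ℤ × ℤ)) (h : ℤ)
    (hfg : ∀ h, ∀ p ∈ l, f h p ≤ g h p) : psum f h l ≤ psum g h l := by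
  induction l generalizing h with
  | nil => exact le_rfl
  | cons p l ih =>
    simp only [psum_cons]
    exact add_le_add (hfg h p (by simp)) (ih _ (fun h q hq => hfg h q (by simp [hq])))

theorem psum_le_allH {M : Type*} [AddCommMonoid M] [PartialOrder M] [IsOrderedAddMonoid M]
    {f g : ℤ → ℤ × ℤ → M} {P : ℤ → Prop} (l : List (ℤ × ℤ)) (h : ℤ) (hP : allH P h l)
    (hfg : ∀ h, P h → ∀ p ∈ l, f h p ≤ g h p) : psum f h l ≤ psum g h l := by
  induction l generalizing h with
  | nil => exact le_rfl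
  | cons p l ih =>
    simp only [psum_cons]
    exact add_le_add (hfg h hP.1 p (by simp)) (ih _ hP.2 (fun h hh q hq => hfg h hh q (by simp [hq])))

theorem psum_mul_left {R : Type*} [NonUnitalNonAssocSemiring R] (c : R) (f : ℤ → ℤ × ℤ → R)
    (l : List (ℤ × ℤ)) (h : ℤ) :
    psum (fun h p => c * f h p) h l = c * psum f h l := by
  induction l generalizing h with
  | nil => simp
  | cons p l ih => simp only [psum_cons, ih, mul_add]

/-- heights stay within `E * length` of the start. -/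
theorem allH_bound {E : ℕ} (l : List (ℤ × ℤ)) (hE : ∀ p ∈ l, |p.2| ≤ (E : ℤ)) (h : ℤ) (B : ℤ)
    (hB : |h| + E * l.length ≤ B) : allH (fun x => |x| ≤ B) h l ∧ |fin h l| ≤ B := by
  induction l generalizing h with
  | nil =>
    refine ⟨trivial, ?_⟩
    simpa using hB
  | cons p l ih =>
    have h1 : |p.2| ≤ (E : ℤ) := hE p (by simp)
    have h2 : |h + p.2| ≤ |h| + |p.2| := abs_add_le _ _
    have h3 : (0 : ℤ) ≤ E * l.length := by positivity
    have h4 : ((p :: l).length : ℤ) = l.length + 1 := by simp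
    rw [h4] at hB
    have h5 := ih (fun q hq => hE q (by simp [hq])) (h + p.2) (by nlinarith)
    refine ⟨⟨?_, h5.1⟩, h5.2⟩
    nlinarith [abs_nonneg p.2]

/-- The contribution of a letter. -/
def ctr (k : ℤ) (h : ℤ) (p : ℤ × ℤ) : ℚ := (p.1 : ℚ) * (k : ℚ) ^ h

/-- `PP k L h h' v n`: some path of at most `n` letters leads from height `h` to height `h'` with
total contribution `v`. -/
def PP (k : ℤ) (L : Finset (ℤ × ℤ)) (h h' : ℤ) (v : ℚ) (n : ℕ) : Prop :=
  ∃ l : List (ℤ × ℤ), (∀ p ∈ l, p ∈ L) ∧ l.length ≤ n ∧ fin h l = h' ∧ psum (ctr k) h l = v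

/-- The hypotheses on the set of letters. -/
structure Sys (k : ℤ) (L : Finset (ℤ × ℤ)) (K E A Ct Ca : ℕ) : Prop where
  hK : K = k.natAbs
  hK2 : 2 ≤ K
  inv : ∀ p ∈ L, ∃ q ∈ L, q.2 = - p.2 ∧ (q.1 : ℚ) = - ((k : ℚ) ^ (- p.2) * (p.1 : ℚ))
  hE : ∀ p ∈ L, |p.2| ≤ (E : ℤ)
  hE1 : 1 ≤ E
  hA : ∀ p ∈ L, |p.1| ≤ (A : ℤ)
  up : PP k L 0 1 0 Ct
  one : PP k L 0 0 1 Ca

variable {k : ℤ} {L : Finset (ℤ × ℤ)} {K E A Ct Ca : ℕ}

theorem Sys.k_ne (S : Sys k L K E A Ct Ca) : (k : ℚ) ≠ 0 := by
  have := S.hK2; have h1 := S.hK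
  intro h
  have : k = 0 := by exact_mod_cast h
  subst this
  simp at h1
  omega

namespace PP

theorem mono {h h' : ℤ} {v : ℚ} {n m : ℕ} (hp : PP k L h h' v n) (hnm : n ≤ m) :
    PP k L h h' v m := by
  obtain ⟨l, h1, h2, h3, h4⟩ := hp
  exact ⟨l, h1, h2.trans hnm, h3, h4⟩

theorem refl (h : ℤ) : PP k L h h 0 0 := ⟨[], by simp, by simp, rfl, rfl⟩

theorem trans {h h' h'' : ℤ} {v w : ℚ} {n m : ℕ} (hp : PP k L h h' v n) (hq : PP k L h' h'' w m) :
    PP k L h h'' (v + w) (n + m) := by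
  obtain ⟨l, h1, h2, h3, h4⟩ := hp
  obtain ⟨l', h1', h2', h3', h4'⟩ := hq
  refine ⟨l ++ l', ?_, ?_, ?_, ?_⟩
  · intro p hp
    rcases List.mem_append.1 hp with hp | hp
    · exact h1 p hp
    · exact h1' p hp
  · rw [List.length_append]; omega
  · rw [fin_append, h3, h3']
  · rw [psum_append, h3, h4, h4']

theorem letter {p : ℤ × ℤ} (hp : p ∈ L) (h : ℤ) : PP k L h (h + p.2) (ctr k h p) 1 :=
  ⟨[p], by simpa using hp, by simp, rfl, by simp⟩

theorem shift (S : Sys k L K E A Ct Ca) {h h' : ℤ} {v : ℚ} {n : ℕ} (hp : PP k L h h' v n)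
    (i : ℤ) : PP k L (h + i) (h' + i) ((k : ℚ) ^ i * v) n := by
  obtain ⟨l, h1, h2, h3, h4⟩ := hp
  refine ⟨l, h1, h2, ?_, ?_⟩
  · rw [fin_shift, h3]
  · rw [psum_shift, ← h4, ← psum_mul_left]
    apply psum_congr'
    intro h p _
    unfold ctr
    rw [zpow_add₀ S.k_ne]
    ring

theorem symm (S : Sys k L K E A Ct Ca) {h h' : ℤ} {v : ℚ} {n : ℕ} (hp : PP k L h h' v n) :
    PP k L h' h (-v) n := by
  obtain ⟨l, h1, h2, h3, h4⟩ := hp
  refine PP.mono ?_ h2
  clear h2
  induction l generalizing h v with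
  | nil =>
    simp only [fin_nil] at h3
    simp only [psum_nil] at h4
    subst h3; subst h4
    simpa using PP.refl (k := k) (L := L) h
  | cons p l ih =>
    have h5 := ih (fun q hq => h1 q (by simp [hq])) (by simpa using h3) rfl
    obtain ⟨q, hq, hq2, hq1⟩ := S.inv p (h1 p (by simp))
    have h6 := PP.letter (k := k) hq (h + p.2)
    have h7 := h5.trans h6
    have e1 : h + p.2 + q.2 = h := by rw [hq2]; ring
    rw [e1] at h7
    have e2 : -psum (ctr k) (h + p.2) l + ctr k (h + p.2) q = -v := by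
      rw [← h4]
      simp only [psum_cons, ctr]
      rw [hq1, zpow_add₀ S.k_ne, zpow_neg]
      have : (k : ℚ) ^ p.2 ≠ 0 := zpow_ne_zero _ S.k_ne
      field_simp
      ring
    rw [e2] at h7
    simpa using h7

theorem tmove (S : Sys k L K E A Ct Ca) (h h' : ℤ) :
    PP k L h h' 0 (Ct * (h' - h).natAbs) := by
  have key : ∀ (n : ℕ) (h : ℤ), PP k L h (h + n) 0 (Ct * n) := by
    intro n
    induction n with
    | zero => intro h; simpa using PP.refl (k := k) (L := L) h
    | succ n ih =>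
      intro h
      have h1 := ih h
      have h2 := PP.shift S S.up (h + n)
      have e : 0 + (h + (n : ℤ)) = h + n := by ring
      rw [e] at h2
      have h3 := h1.trans h2
      have e2 : 1 + (h + (n : ℤ)) = h + ((n + 1 : ℕ) : ℤ) := by push_cast; ring
      rw [e2] at h3
      have e3 : (0 : ℚ) + (k : ℚ) ^ (h + (n : ℤ)) * 0 = 0 := by ring
      rw [e3] at h3
      exact h3.mono (by rw [Nat.mul_succ])
  rcases le_total h h' with hh | hh
  · obtain ⟨n, hn⟩ := Int.eq_ofNat_of_zero_le (sub_nonneg.2 hh)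
    have e : h' = h + n := by linarith
    subst e
    simpa using key n h
  · obtain ⟨n, hn⟩ := Int.eq_ofNat_of_zero_le (sub_nonneg.2 hh)
    have e : h = h' + n := by linarith
    subst e
    have := (key n h').symm S
    simpa using this

theorem const (S : Sys k L K E A Ct Ca) (h d : ℤ) :
    PP k L h h ((d : ℚ) * (k : ℚ) ^ h) (Ca * d.natAbs) := by
  have key : ∀ (n : ℕ), PP k L 0 0 (n : ℚ) (Ca * n) := by
    intro n
    induction n with
    | zero => simpa using PP.refl (k := k) (L := L) 0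
    | succ n ih =>
      have h3 := ih.trans S.one
      have e : (n : ℚ) + 1 = ((n + 1 : ℕ) : ℚ) := by push_cast; ring
      rw [e] at h3
      exact h3.mono (by rw [Nat.mul_succ])
  have key2 : PP k L 0 0 (d : ℚ) (Ca * d.natAbs) := by
    rcases le_total 0 d with hd | hd
    · obtain ⟨n, hn⟩ := Int.eq_ofNat_of_zero_le hd
      subst hn
      simpa using key n
    · obtain ⟨n, hn⟩ := Int.eq_ofNat_of_zero_le (neg_nonneg.2 hd)
      have e : d = -(n : ℤ) := by linarith
      subst e
      have := (key n).symm S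
      simpa using this
  have := key2.shift S h
  simpa [mul_comm] using this

end PP

theorem PP.of_eq {h h' : ℤ} {v w : ℚ} {n m : ℕ} (hp : PP k L h h' v n) (hv : v = w) (hn : n ≤ m) :
    PP k L h h' w m := by
  subst hv; exact hp.mono hn

/-- The height difference of a path is at most `E` times its length. -/
theorem PP.height_le (S : Sys k L K E A Ct Ca) {h h' : ℤ} {v : ℚ} {n : ℕ} (hp : PP k L h h' v n) :
    |h' - h| ≤ E * n := by
  obtain ⟨l, h1, h2, h3, h4⟩ := hp
  have key : ∀ (l : List (ℤ × ℤ)), (∀ p ∈ l, p ∈ L) → ∀ h, |fin h l - h| ≤ E * l.length := by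
    intro l
    induction l with
    | nil => intro _ h; simp
    | cons p l ih =>
      intro hl h
      have h5 := ih (fun q hq => hl q (by simp [hq])) (h + p.2)
      have h6 := S.hE p (hl p (by simp))
      simp only [fin_cons, List.length_cons]
      have : fin (h + p.2) l - h = (fin (h + p.2) l - (h + p.2)) + p.2 := by ring
      rw [this]
      refine (abs_add_le _ _).trans ?_
      push_cast
      linarith
  have := key l h1 h
  rw [h3] at this
  refine this.trans ?_
  have : (l.length : ℤ) ≤ n := by exact_mod_cast h2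
  exact mul_le_mul_of_nonneg_left this (by positivity)

/-! ### Clamps -/

/-- cost of a letter in the clamped path. -/
noncomputable def ccost (Ct : ℕ) (cl : ℤ → ℤ) (inn : ℤ → Prop) (h : ℤ) (p : ℤ × ℤ) : ℕ :=
  open Classical in
  if inn h then 1 + Ct * (cl (h + p.2) - (h + p.2)).natAbs
  else Ct * (cl (h + p.2) - cl h).natAbs

/-- contribution of a letter in the clamped path. -/
noncomputable def cctr (k : ℤ) (inn : ℤ → Prop) (h : ℤ) (p : ℤ × ℤ) : ℚ :=
  open Classical in if inn h then ctr k h p else 0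

theorem clamp_path (S : Sys k L K E A Ct Ca) (cl : ℤ → ℤ) (inn : ℤ → Prop)
    (hin : ∀ h, inn h → cl h = h) (l : List (ℤ × ℤ)) (hl : ∀ p ∈ l, p ∈ L) (h : ℤ) :
    PP k L (cl h) (cl (fin h l)) (psum (cctr k inn) h l) (psum (ccost Ct cl inn) h l) := by
  induction l generalizing h with
  | nil => exact PP.refl _
  | cons p l ih =>
    have h1 := ih (fun q hq => hl q (by simp [hq])) (h + p.2)
    have h2 : PP k L (cl h) (cl (h + p.2)) (cctr k inn h p) (ccost Ct cl inn h p) := by
      unfold cctr ccost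
      by_cases hi : inn h
      · rw [if_pos hi, if_pos hi, hin h hi]
        have h3 := PP.letter (k := k) (hl p (by simp)) h
        have h4 := PP.tmove S (h + p.2) (cl (h + p.2))
        exact (h3.trans h4).of_eq (by ring) le_rfl
      · rw [if_neg hi, if_neg hi]
        exact PP.tmove S _ _
    exact h2.trans h1

/-- Intermediate level property: a path from `h` to `h'` passes near every level between. -/
theorem PP.split (S : Sys k L K E A Ct Ca) {h h' : ℤ} {v : ℚ} {n : ℕ} (hp : PP k L h h' v n)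
    {m : ℤ} (h1 : h ≤ m) (h2 : m ≤ h') :
    ∃ (m' : ℤ) (v₁ v₂ : ℚ) (n₁ n₂ : ℕ), m ≤ m' ∧ m' ≤ m + E ∧ v₁ + v₂ = v ∧ n₁ + n₂ ≤ n ∧
      PP k L h m' v₁ n₁ ∧ PP k L m' h' v₂ n₂ := by
  obtain ⟨l, hl, hn, hf, hv⟩ := hp
  suffices H : ∀ (l : List (ℤ × ℤ)), (∀ p ∈ l, p ∈ L) → ∀ h, h ≤ m → m ≤ fin h l →
      ∃ (m' : ℤ) (v₁ v₂ : ℚ) (n₁ n₂ : ℕ), m ≤ m' ∧ m' ≤ m + E ∧ v₁ + v₂ = psum (ctr k) h l ∧
      n₁ + n₂ ≤ l.length ∧ PP k L h m' v₁ n₁ ∧ PP k L m' (fin h l) v₂ n₂ by
    obtain ⟨m', v₁, v₂, n₁, n₂, a1, a2, a3, a4, a5, a6⟩ := H l hl h h1 (by rw [hf]; exact h2)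
    rw [hv] at a3
    rw [hf] at a6
    exact ⟨m', v₁, v₂, n₁, n₂, a1, a2, a3, a4.trans hn, a5, a6⟩
  intro l
  induction l with
  | nil =>
    intro _ h h1 h2
    simp only [fin_nil] at h2
    have : h = m := le_antisymm h1 h2
    subst this
    exact ⟨h, 0, 0, 0, 0, le_rfl, by simp, by simp, by simp, PP.refl _, PP.refl _⟩
  | cons p l ih =>
    intro hl h h1 h2
    by_cases hm : m ≤ h + p.2
    · refine ⟨h + p.2, ctr k h p, psum (ctr k) (h + p.2) l, 1, l.length, hm, ?_, rfl, ?_,
        PP.letter (hl p (by simp)) h, ?_⟩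
      · have := S.hE p (hl p (by simp))
        rw [abs_le] at this
        linarith [this.2]
      · simp [add_comm]
      · exact ⟨l, fun q hq => hl q (by simp [hq]), le_rfl, rfl, rfl⟩
    · obtain ⟨m', v₁, v₂, n₁, n₂, a1, a2, a3, a4, a5, a6⟩ :=
        ih (fun q hq => hl q (by simp [hq])) (h + p.2) (not_le.1 hm).le (by simpa using h2)
      refine ⟨m', ctr k h p + v₁, v₂, 1 + n₁, n₂, a1, a2, ?_, ?_,
        (PP.letter (hl p (by simp)) h).trans a5, by simpa using a6⟩
      · rw [psum_cons, ← a3]; ring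
      · simp only [List.length_cons]; omega

/-- Insertion of `c * k ^ m` at a level between the ends. -/
theorem PP.insert (S : Sys k L K E A Ct Ca) {h h' : ℤ} {v : ℚ} {n : ℕ} (hp : PP k L h h' v n)
    {m : ℤ} (h1 : h ≤ m) (h2 : m ≤ h') (c : ℤ) :
    PP k L h h' (v + (c : ℚ) * (k : ℚ) ^ m) (n + (2 * Ct * E + Ca * c.natAbs)) := by
  obtain ⟨m', v₁, v₂, n₁, n₂, a1, a2, a3, a4, a5, a6⟩ := hp.split S h1 h2
  have t1 := PP.tmove S m' m
  have t2 := PP.const S m c
  have t3 := PP.tmove S m m'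
  have hb1 : (m - m').natAbs ≤ E := by omega
  have hb2 : (m' - m).natAbs ≤ E := by omega
  refine ((((a5.trans t1).trans t2).trans t3).trans a6).of_eq ?_ ?_
  · rw [← a3]; ring
  · have c1 : Ct * (m - m').natAbs ≤ Ct * E := Nat.mul_le_mul_left _ hb1
    have c2 : Ct * (m' - m).natAbs ≤ Ct * E := Nat.mul_le_mul_left _ hb2
    have c3 : 2 * Ct * E = Ct * E + Ct * E := by ring
    omega

end MPa1853d
end

section
set_option autoImplicit false

/-! # The cost of a digit word and the partition functions `Y` -/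

namespace MPa1853d

variable {k : ℤ} {L : Finset (ℤ × ℤ)} {K E A Ct Ca : ℕ}

theorem Sys.kabs (S : Sys k L K E A Ct Ca) : |k| = (K : ℤ) := by
  rw [S.hK]; simp

theorem Sys.kabsQ (S : Sys k L K E A Ct Ca) : |(k : ℚ)| = (K : ℚ) := by
  have := S.kabs
  exact_mod_cast this

/-- The word `W` is reachable with linear cost. -/
theorem pp_dval (S : Sys k L K E A Ct Ca) {H : ℕ} (W : Fin H → Fin K) :
    PP k L 0 H (dval k W : ℤ) ((Ct + Ca * K) * H) := by
  induction H with
  | zero => simpa [dval] using PP.refl (k := k) (L := L) 0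
  | succ H ih =>
    have h1 : W = Fin.snoc (fun i : Fin H => W i.castSucc) (W (Fin.last H)) :=
      (Fin.snoc_init_self W).symm
    have h2 := ih (fun i : Fin H => W i.castSucc)
    have h3 := PP.const S (H : ℤ) (((W (Fin.last H) : Fin K) : ℕ) : ℤ)
    have h4 := PP.tmove S (H : ℤ) ((H : ℤ) + 1)
    have h5 := (h2.trans h3).trans h4
    have e1 : (((H + 1 : ℕ) : ℤ)) = (H : ℤ) + 1 := by push_cast; ring
    rw [e1]
    refine h5.of_eq ?_ ?_
    · conv_rhs => rw [h1]
      rw [dval_snoc]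
      push_cast
      simp
    · have a1 : ((((W (Fin.last H) : Fin K) : ℕ) : ℤ)).natAbs ≤ K := by
        simpa using (W (Fin.last H)).isLt.le
      have a2 : ((H : ℤ) + 1 - H).natAbs = 1 := by simp
      rw [a2]
      have a3 := Nat.mul_le_mul_left Ca a1
      have a4 : (Ct + Ca * K) * (H + 1) = (Ct + Ca * K) * H + Ct + Ca * K := by ring
      omega

/-- Minimal cost of the word `W`. -/
noncomputable def yl (k : ℤ) (L : Finset (ℤ × ℤ)) {K H : ℕ} (W : Fin H → Fin K) : ℕ :=
  sInf {n : ℕ | PP k L 0 H (dval k W : ℤ) n}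

theorem yl_spec (S : Sys k L K E A Ct Ca) {H : ℕ} (W : Fin H → Fin K) :
    PP k L 0 H (dval k W : ℤ) (yl k L W) := by
  have : (yl k L W) ∈ {n : ℕ | PP k L 0 H (dval k W : ℤ) n} :=
    Nat.sInf_mem ⟨_, pp_dval S W⟩
  exact this

theorem yl_le {H : ℕ} (W : Fin H → Fin K) {n : ℕ} (h : PP k L 0 H (dval k W : ℤ) n) :
    yl k L W ≤ n := Nat.sInf_le h

theorem yl_le_linear (S : Sys k L K E A Ct Ca) {H : ℕ} (W : Fin H → Fin K) :
    yl k L W ≤ (Ct + Ca * K) * H := yl_le W (pp_dval S W)

theorem le_yl (S : Sys k L K E A Ct Ca) {H : ℕ} (W : Fin H → Fin K) :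
    H ≤ E * yl k L W := by
  have := (yl_spec S W).height_le S
  simp only [sub_zero] at this
  have h2 : |(H : ℤ)| = H := abs_of_nonneg (by positivity)
  rw [h2] at this
  exact_mod_cast this

theorem yl_append (S : Sys k L K E A Ct Ca) {a b : ℕ} (u : Fin a → Fin K) (v : Fin b → Fin K) :
    yl k L (Fin.append u v) ≤ yl k L u + yl k L v := by
  apply yl_le
  have h1 := yl_spec S u
  have h2 := (yl_spec S v).shift S (a : ℤ)
  have e1 : (0 : ℤ) + (a : ℤ) = a := by ring
  have e2 : (b : ℤ) + (a : ℤ) = ((a + b : ℕ) : ℤ) := by push_cast; ring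
  rw [e1, e2] at h2
  refine (h1.trans h2).of_eq ?_ le_rfl
  rw [dval_append]
  push_cast
  simp

/-- The Lipschitz constant. -/
def Lip (K E Ct Ca : ℕ) : ℕ := 2 * Ct * E + Ca * K

theorem yl_update (S : Sys k L K E A Ct Ca) {H : ℕ} (W : Fin H → Fin K) (i : Fin H) (d : Fin K) :
    yl k L (Function.update W i d) ≤ yl k L W + Lip K E Ct Ca := by
  apply yl_le
  have h1 := (yl_spec S W).insert S (m := (i : ℕ)) (by positivity)
    (by exact_mod_cast i.isLt.le) (((d : ℕ) : ℤ) - ((W i : ℕ) : ℤ))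
  refine h1.of_eq ?_ ?_
  · rw [dval_update]
    push_cast
    simp
  · unfold Lip
    have a1 := d.isLt
    have a2 := (W i).isLt
    have a3 : (((d : ℕ) : ℤ) - ((W i : ℕ) : ℤ)).natAbs ≤ K := by omega
    have := Nat.mul_le_mul_left Ca a3
    omega

/-- The partition function. -/
noncomputable def YY (k : ℤ) (L : Finset (ℤ × ℤ)) (K H : ℕ) (z : ℝ) : ℝ :=
  ∑ W : Fin H → Fin K, z ^ (yl k L W)

theorem YY_zero (S : Sys k L K E A Ct Ca) (z : ℝ) : YY k L K 0 z = 1 := by
  unfold YY
  rw [Fintype.sum_unique]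
  have : yl k L (default : Fin 0 → Fin K) = 0 := by
    have := yl_le_linear S (default : Fin 0 → Fin K)
    simpa using this
  rw [this, pow_zero]

theorem YY_nonneg (H : ℕ) {z : ℝ} (hz : 0 ≤ z) : 0 ≤ YY k L K H z :=
  Finset.sum_nonneg fun _ _ => pow_nonneg hz _

theorem YY_pos (S : Sys k L K E A Ct Ca) (H : ℕ) {z : ℝ} (hz : 0 < z) : 0 < YY k L K H z := by
  have hK := S.hK2
  have : Nonempty (Fin H → Fin K) := ⟨fun _ => ⟨0, by omega⟩⟩
  exact Finset.sum_pos (fun _ _ => pow_pos hz _) Finset.univ_nonempty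

theorem YY_mono (H : ℕ) {z w : ℝ} (hz : 0 ≤ z) (hzw : z ≤ w) : YY k L K H z ≤ YY k L K H w :=
  Finset.sum_le_sum fun _ _ => pow_le_pow_left₀ hz hzw _

theorem YY_continuous (H : ℕ) : Continuous (YY k L K H) := by
  unfold YY
  fun_prop

/-- supermultiplicativity -/
theorem YY_mul_le (S : Sys k L K E A Ct Ca) (a b : ℕ) {z : ℝ} (hz : 0 ≤ z) (hz1 : z ≤ 1) :
    YY k L K a z * YY k L K b z ≤ YY k L K (a + b) z := by
  unfold YY
  rw [Finset.sum_mul_sum, ← Finset.sum_product', ← (Fin.appendEquiv a b).sum_comp]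
  apply Finset.sum_le_sum
  rintro ⟨u, v⟩ _
  rw [← pow_add]
  exact pow_le_pow_of_le_one hz hz1 (yl_append S u v)

/-- comparison of two values of `z`, upper exponent. -/
theorem YY_le_of_le (S : Sys k L K E A Ct Ca) (H : ℕ) {z w : ℝ} (hz : 0 < z) (hzw : z ≤ w) :
    YY k L K H w ≤ (w / z) ^ ((Ct + Ca * K) * H) * YY k L K H z := by
  unfold YY
  rw [Finset.mul_sum]
  apply Finset.sum_le_sum
  intro W _
  have h1 : w ^ yl k L W = (w / z) ^ yl k L W * z ^ yl k L W := by
    rw [← mul_pow, div_mul_cancel₀ _ hz.ne']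
  rw [h1]
  apply mul_le_mul_of_nonneg_right _ (pow_nonneg hz.le _)
  exact pow_le_pow_right₀ ((one_le_div hz).2 hzw) (yl_le_linear S W)

/-- comparison of two values of `z`, lower exponent. -/
theorem YY_le_pow_mul (S : Sys k L K E A Ct Ca) (H m : ℕ) {z w : ℝ} (hz : 0 < z) (hzw : z ≤ w)
    (hm : E * m ≤ H) :
    YY k L K H z ≤ (z / w) ^ m * YY k L K H w := by
  unfold YY
  rw [Finset.mul_sum]
  apply Finset.sum_le_sum
  intro W _
  have hw : 0 < w := hz.trans_le hzw
  have h1 : z ^ yl k L W = (z / w) ^ yl k L W * w ^ yl k L W := by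
    rw [← mul_pow, div_mul_cancel₀ _ hw.ne']
  rw [h1]
  apply mul_le_mul_of_nonneg_right _ (pow_nonneg hw.le _)
  apply pow_le_pow_of_le_one (by positivity) ((div_le_one hw).2 hzw)
  have h2 := le_yl S W
  have h3 : E * m ≤ E * yl k L W := hm.trans h2
  exact Nat.le_of_mul_le_mul_left h3 S.hE1

end MPa1853d
end

section
set_option autoImplicit false

/-! # Cutting a path at a level: averaged submultiplicativity -/

namespace MPa1853d

/-- sums over injections -/
theorem sum_le_of_inj {α β : Type*} (s : Finset α) (t : Finset β) (φ : α → β)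
    (f : α → ℝ) (g : β → ℝ) (hmap : ∀ a ∈ s, φ a ∈ t) (hinj : Set.InjOn φ s)
    (hfg : ∀ a ∈ s, f a ≤ g (φ a)) (hg : ∀ b ∈ t, 0 ≤ g b) :
    ∑ a ∈ s, f a ≤ ∑ b ∈ t, g b := by
  classical
  calc ∑ a ∈ s, f a ≤ ∑ a ∈ s, g (φ a) := Finset.sum_le_sum hfg
    _ = ∑ b ∈ s.image φ, g b := (Finset.sum_image hinj).symm
    _ ≤ ∑ b ∈ t, g b := by
        apply Finset.sum_le_sum_of_subset_of_nonneg
        · intro b hb
          obtain ⟨a, ha, rfl⟩ := Finset.mem_image.1 hb
          exact hmap a ha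
        · intro b hb _
          exact hg b hb

theorem geo_range {x : ℚ} (hx : 0 ≤ x) (hx2 : x ≤ 1 / 2) (N : ℕ) :
    ∑ i ∈ Finset.range N, x ^ i ≤ 2 := by
  have h1 : ∀ N : ℕ, ∑ i ∈ Finset.range N, (1 / 2 : ℚ) ^ i = 2 - 2 * (1 / 2) ^ N := by
    intro N
    induction N with
    | zero => simp
    | succ N ih => rw [Finset.sum_range_succ, ih, pow_succ]; ring
  calc ∑ i ∈ Finset.range N, x ^ i ≤ ∑ i ∈ Finset.range N, (1 / 2 : ℚ) ^ i :=
        Finset.sum_le_sum fun i _ => pow_le_pow_left₀ hx hx2 i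
    _ = 2 - 2 * (1 / 2) ^ N := h1 N
    _ ≤ 2 := by
        have : (0 : ℚ) ≤ 2 * (1 / 2) ^ N := by positivity
        linarith

theorem geo_inj {ι : Type*} (s : Finset ι) (g : ι → ℕ) (hg : Set.InjOn g s) {x : ℚ} (hx : 0 ≤ x)
    (hx2 : x ≤ 1 / 2) : ∑ j ∈ s, x ^ (g j) ≤ 2 := by
  classical
  rw [← Finset.sum_image (f := fun i => x ^ i) hg]
  refine le_trans ?_ (geo_range hx hx2 ((s.image g).sup id + 1))
  apply Finset.sum_le_sum_of_subset_of_nonneg
  · intro i hi
    rw [Finset.mem_range]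
    exact Nat.lt_succ_of_le (Finset.le_sup (f := id) hi)
  · intro i _ _
    positivity

theorem markov {ι : Type*} (s : Finset ι) (Ψ : ι → ℚ) (hΨ : ∀ i ∈ s, 0 ≤ Ψ i) (c : ℚ) :
    c * ((s.filter (fun i => c < Ψ i)).card : ℚ) ≤ ∑ i ∈ s, Ψ i := by
  calc c * ((s.filter (fun i => c < Ψ i)).card : ℚ)
      = ∑ i ∈ s.filter (fun i => c < Ψ i), c := by
        rw [Finset.sum_const, nsmul_eq_mul, mul_comm]
    _ ≤ ∑ i ∈ s.filter (fun i => c < Ψ i), Ψ i := by
        apply Finset.sum_le_sum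
        intro i hi
        exact (Finset.mem_filter.1 hi).2.le
    _ ≤ ∑ i ∈ s, Ψ i := by
        apply Finset.sum_le_sum_of_subset_of_nonneg (Finset.filter_subset _ _)
        intro i hi _
        exact hΨ i hi

variable {k : ℤ} {L : Finset (ℤ × ℤ)} {K E A Ct Ca : ℕ}

theorem psum_nonneg {f : ℤ → ℤ × ℤ → ℚ} (hf : ∀ h p, 0 ≤ f h p) (h : ℤ) (l : List (ℤ × ℤ)) :
    0 ≤ psum f h l := by
  induction l generalizing h with
  | nil => exact le_rfl
  | cons p l ih => exact add_nonneg (hf h p) (ih _)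

theorem abs_psum_le {f : ℤ → ℤ × ℤ → ℚ} (h : ℤ) (l : List (ℤ × ℤ)) :
    |psum f h l| ≤ psum (fun h p => |f h p|) h l := by
  induction l generalizing h with
  | nil => simp
  | cons p l ih =>
    simp only [psum_cons]
    exact (abs_add_le _ _).trans (add_le_add le_rfl (ih _))

theorem psum_cast (f : ℤ → ℤ × ℤ → ℕ) (h : ℤ) (l : List (ℤ × ℤ)) :
    ((psum f h l : ℕ) : ℚ) = psum (fun h p => (f h p : ℚ)) h l := by
  have := psum_map (Nat.castAddMonoidHom ℚ) f l h
  simpa using this

/-- the weight functional at level `j`. -/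
def Psi (K : ℕ) (j : ℤ) (h : ℤ) (_ : ℤ × ℤ) : ℚ := (1 / (K : ℚ)) ^ ((h - j).natAbs)

theorem inv_K_le (S : Sys k L K E A Ct Ca) : (1 / (K : ℚ)) ≤ 1 / 2 := by
  have : (2 : ℚ) ≤ K := by exact_mod_cast S.hK2
  exact one_div_le_one_div_of_le (by norm_num) this

theorem Kq_pos (S : Sys k L K E A Ct Ca) : (0 : ℚ) < K := by
  have := S.hK2
  exact_mod_cast (by omega : 0 < K)

theorem sum_Psi_le (S : Sys k L K E A Ct Ca) (s : Finset ℕ) (l : List (ℤ × ℤ)) (h : ℤ) :
    ∑ j ∈ s, psum (Psi K (j : ℤ)) h l ≤ 4 * l.length := by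
  rw [← psum_finset_sum]
  have h1 : psum (fun h p => ∑ i ∈ s, Psi K (i : ℤ) h p) h l ≤
      psum (fun _ _ => (4 : ℚ)) h l := by
    apply psum_le
    intro h p _
    unfold Psi
    rw [← Finset.sum_filter_add_sum_filter_not s (fun j : ℕ => (j : ℤ) ≤ h)]
    have a1 : ∑ x ∈ s.filter (fun j : ℕ => (j : ℤ) ≤ h), (1 / (K : ℚ)) ^ (h - x).natAbs ≤ 2 := by
      apply geo_inj _ (fun x : ℕ => (h - x).natAbs)
      · intro x hx y hy hxy
        simp only [Finset.coe_filter, Set.mem_ofPred_eq] at hx hy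
        simp only at hxy
        omega
      · have := Kq_pos S; positivity
      · exact inv_K_le S
    have a2 : ∑ x ∈ s.filter (fun j : ℕ => ¬ (j : ℤ) ≤ h), (1 / (K : ℚ)) ^ (h - x).natAbs ≤ 2 := by
      apply geo_inj _ (fun x : ℕ => (h - x).natAbs)
      · intro x hx y hy hxy
        simp only [Finset.coe_filter, Set.mem_ofPred_eq] at hx hy
        simp only at hxy
        omega
      · have := Kq_pos S; positivity
      · exact inv_K_le S
    linarith
  refine h1.trans ?_
  rw [psum_const]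
  simp [mul_comm]

/-- the constant in the definition of a good level -/
def cgood (K Ct Ca : ℕ) : ℕ := 8 * (Ct + Ca * K) + 8

/-- the loss of a cut -/
def Mcut (K E A Ct Ca : ℕ) : ℕ :=
  2 * Ct * E * (K ^ E * cgood K Ct Ca) + Ca * (A * cgood K Ct Ca) + Ca * (A * cgood K Ct Ca + 1)

theorem close_le (S : Sys k L K E A Ct Ca) (j h : ℤ) (p : ℤ × ℤ) :
    ((if (h - j).natAbs < E then 1 else 0 : ℕ) : ℚ) ≤ (K : ℚ) ^ E * Psi K j h p := by
  have hK := Kq_pos S
  unfold Psi
  split_ifs with hh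
  · push_cast
    rw [one_div, inv_pow, ← div_eq_mul_inv, le_div_iff₀ (by positivity), one_mul]
    apply pow_le_pow_right₀ _ hh.le
    have := S.hK2
    exact_mod_cast (by omega : 1 ≤ K)
  · push_cast
    positivity

theorem cut_one (S : Sys k L K E A Ct Ca) {H j : ℕ} (hj : j ≤ H) (W : Fin H → Fin K)
    (l : List (ℤ × ℤ)) (hl : ∀ p ∈ l, p ∈ L) (hfin : fin 0 l = H)
    (hval : psum (ctr k) 0 l = (dval k W : ℤ))
    (hgood : psum (Psi K (j : ℤ)) 0 l ≤ cgood K Ct Ca) :
    ∃ (W₁ : Fin j → Fin K) (W₂ : Fin (H - j) → Fin K) (c₁ c₂ : ℤ),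
      |c₁| ≤ A * cgood K Ct Ca + 1 ∧ |c₂| ≤ A * cgood K Ct Ca + 1 ∧
      dval k W = dval k W₁ + c₁ * k ^ j + k ^ j * (dval k W₂ + c₂ * k ^ (H - j)) ∧
      yl k L W₁ + yl k L W₂ ≤ l.length + Mcut K E A Ct Ca := by
  classical
  have hKpos := Kq_pos S
  have hk := S.k_ne
  set c := cgood K Ct Ca with hc
  -- the two clamped paths
  have p1 := clamp_path S (fun h => min h (j : ℤ)) (fun h => h < j)
    (fun h hh => min_eq_left (le_of_lt hh)) l hl 0
  have p2 := clamp_path S (fun h => max h (j : ℤ)) (fun h => ¬ h < j)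
    (fun h hh => max_eq_left (not_lt.1 hh)) l hl 0
  simp only [hfin] at p1 p2
  have e1 : min (0 : ℤ) (j : ℤ) = 0 := min_eq_left (by positivity)
  have e2 : min (H : ℤ) (j : ℤ) = j := min_eq_right (by exact_mod_cast hj)
  have e3 : max (0 : ℤ) (j : ℤ) = j := max_eq_right (by positivity)
  have e4 : max (H : ℤ) (j : ℤ) = H := max_eq_left (by exact_mod_cast hj)
  rw [e1, e2] at p1
  rw [e3, e4] at p2
  set N₁ := psum (ccost Ct (fun h => min h (j : ℤ)) (fun h => h < j)) 0 l with hN₁
  set N₂ := psum (ccost Ct (fun h => max h (j : ℤ)) (fun h => ¬ h < j)) 0 l with hN₂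
  set x₁ := psum (cctr k (fun h => h < j)) 0 l with hx₁
  set x₂ := psum (cctr k (fun h => ¬ h < j)) 0 l with hx₂
  -- values add up
  have hx : x₁ + x₂ = (dval k W : ℤ) := by
    rw [hx₁, hx₂, ← psum_add, ← hval]
    apply psum_congr'
    intro h p _
    unfold cctr
    by_cases hh : h < j
    · simp [hh]
    · simp [hh]
  -- costs
  have hN : N₁ + N₂ ≤ l.length + 2 * Ct * E * (K ^ E * c) := by
    have h1 : N₁ + N₂ ≤ psum (fun h _ => 1 + 2 * Ct * E * (if (h - j).natAbs < E then 1 else 0))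
        0 l := by
      rw [hN₁, hN₂, ← psum_add]
      apply psum_le
      intro h p hp
      have hE := S.hE p (hl p hp)
      rw [abs_le] at hE
      unfold ccost
      by_cases hh : h < j
      · simp only [hh, if_true, not_true_eq_false, if_false]
        by_cases hcl : (h - j).natAbs < E
        · rw [if_pos hcl]
          have b1 : (min (h + p.2) (j : ℤ) - (h + p.2)).natAbs ≤ E := by omega
          have b2 : (max (h + p.2) (j : ℤ) - max h (j : ℤ)).natAbs ≤ E := by omega
          have c1 := Nat.mul_le_mul_left Ct b1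
          have c2 := Nat.mul_le_mul_left Ct b2
          have c3 : 2 * Ct * E * 1 = Ct * E + Ct * E := by ring
          omega
        · rw [if_neg hcl]
          have b1 : (min (h + p.2) (j : ℤ) - (h + p.2)).natAbs = 0 := by omega
          have b2 : (max (h + p.2) (j : ℤ) - max h (j : ℤ)).natAbs = 0 := by omega
          rw [b1, b2]
          simp
      · simp only [hh, if_false, not_false_eq_true, if_true]
        by_cases hcl : (h - j).natAbs < E
        · rw [if_pos hcl]
          have b1 : (max (h + p.2) (j : ℤ) - (h + p.2)).natAbs ≤ E := by omega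
          have b2 : (min (h + p.2) (j : ℤ) - min h (j : ℤ)).natAbs ≤ E := by omega
          have c1 := Nat.mul_le_mul_left Ct b1
          have c2 := Nat.mul_le_mul_left Ct b2
          have c3 : 2 * Ct * E * 1 = Ct * E + Ct * E := by ring
          omega
        · rw [if_neg hcl]
          have b1 : (max (h + p.2) (j : ℤ) - (h + p.2)).natAbs = 0 := by omega
          have b2 : (min (h + p.2) (j : ℤ) - min h (j : ℤ)).natAbs = 0 := by omega
          rw [b1, b2]
          simp
    refine h1.trans ?_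
    have h2 : psum (fun h _ => 1 + 2 * Ct * E * (if (h - j).natAbs < E then 1 else 0)) 0 l =
        l.length + 2 * Ct * E * psum (fun h _ => (if (h - j).natAbs < E then 1 else 0 : ℕ)) 0 l := by
      rw [psum_add (fun _ _ => (1 : ℕ)), psum_const, psum_mul_left]
      simp
    rw [h2]
    have h3 : psum (fun h _ => (if (h - (j : ℤ)).natAbs < E then 1 else 0 : ℕ)) 0 l ≤ K ^ E * c := by
      have h4 : ((psum (fun h _ => (if (h - (j : ℤ)).natAbs < E then 1 else 0 : ℕ)) 0 l : ℕ) : ℚ) ≤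
          (K : ℚ) ^ E * c := by
        rw [psum_cast]
        refine le_trans ?_ (mul_le_mul_of_nonneg_left hgood (by positivity))
        rw [← psum_mul_left]
        exact psum_le _ _ (fun h p _ => close_le S (j : ℤ) h p)
      exact_mod_cast h4
    exact Nat.add_le_add_left (Nat.mul_le_mul_left _ h3) _
  -- integrality of the upper part
  have hint : ∀ (l : List (ℤ × ℤ)) (h : ℤ), ∃ v : ℤ,
      psum (cctr k (fun h => ¬ h < j)) h l = (k : ℚ) ^ (j : ℕ) * v := by
    intro l
    induction l with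
    | nil => intro h; exact ⟨0, by simp⟩
    | cons p l ih =>
      intro h
      obtain ⟨v, hv⟩ := ih (h + p.2)
      simp only [psum_cons, hv]
      unfold cctr
      by_cases hh : h < j
      · exact ⟨v, by simp [hh]⟩
      · refine ⟨p.1 * k ^ (h - j).toNat + v, ?_⟩
        simp only [hh, not_false_eq_true, if_true, ctr]
        have e : h = (j : ℤ) + ((h - j).toNat : ℤ) := by omega
        conv_lhs => rw [e]
        rw [zpow_add₀ hk, zpow_natCast, zpow_natCast]
        push_cast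
        ring
  obtain ⟨v₂, hv₂⟩ := hint l 0
  rw [← hx₂] at hv₂
  set v₁ : ℤ := dval k W - k ^ j * v₂ with hv₁
  have hxv : x₁ = (v₁ : ℤ) := by
    rw [hv₁]
    push_cast
    linarith
  -- size of the lower part
  have hv₁b : |v₁| ≤ ((A * c : ℕ) : ℤ) * (K : ℤ) ^ j := by
    have h1 : |x₁| ≤ (A : ℚ) * (K : ℚ) ^ j * c := by
      refine (abs_psum_le 0 l).trans ?_
      refine le_trans ?_ (mul_le_mul_of_nonneg_left hgood (by positivity))
      rw [← psum_mul_left]
      apply psum_le
      intro h p hp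
      unfold cctr Psi
      by_cases hh : h < j
      · simp only [hh, if_true, ctr]
        rw [abs_mul, abs_zpow, S.kabsQ]
        have h2 : |(p.1 : ℚ)| ≤ A := by exact_mod_cast S.hA p (hl p hp)
        have h3 : (K : ℚ) ^ j * (1 / (K : ℚ)) ^ (h - j).natAbs = (K : ℚ) ^ h := by
          have e : h = (j : ℤ) - ((h - j).natAbs : ℤ) := by omega
          conv_rhs => rw [e]
          rw [zpow_sub₀ hKpos.ne', zpow_natCast, zpow_natCast, one_div, inv_pow]
          rfl
        calc |(p.1 : ℚ)| * (K : ℚ) ^ h ≤ A * (K : ℚ) ^ h :=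
              mul_le_mul_of_nonneg_right h2 (by positivity)
          _ = A * (K : ℚ) ^ j * (1 / (K : ℚ)) ^ (h - j).natAbs := by rw [mul_assoc, h3]
      · simp only [hh, if_false, abs_zero]
        positivity
    rw [hxv] at h1
    have h2 : ((|v₁| : ℤ) : ℚ) ≤ (A : ℚ) * (K : ℚ) ^ j * c := by
      rw [Int.cast_abs]; exact h1
    have h3 : ((|v₁| : ℤ) : ℚ) ≤ ((((A * c : ℕ) : ℤ) * (K : ℤ) ^ j : ℤ) : ℚ) := by
      push_cast
      push_cast at h2
      linarith
    exact_mod_cast h3
  obtain ⟨W₁, c₁, hW₁, hc₁⟩ := dval_repr_bound k S.hK S.hK2 j v₁ (A * c) hv₁b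
  -- size of the upper part
  have hv₂b : |v₂| ≤ ((A * c + 1 : ℕ) : ℤ) * (K : ℤ) ^ (H - j) := by
    have h1 := dval_abs_lt k S.hK S.hK2 W
    have h2 : k ^ j * v₂ = dval k W - v₁ := by rw [hv₁]; ring
    have h3 : (K : ℤ) ^ j * |v₂| ≤ (K : ℤ) ^ H + ((A * c : ℕ) : ℤ) * (K : ℤ) ^ j := by
      have h4 : (K : ℤ) ^ j * |v₂| = |k ^ j * v₂| := by rw [abs_mul, abs_pow, S.kabs]
      rw [h4, h2]
      have := abs_sub (dval k W) v₁
      linarith
    have h5 : (K : ℤ) ^ H = (K : ℤ) ^ j * (K : ℤ) ^ (H - j) := by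
      rw [← pow_add]; congr 1; omega
    have hKz : (1 : ℤ) ≤ (K : ℤ) ^ (H - j) := by
      apply one_le_pow₀
      have := S.hK2
      omega
    have hKj : (0 : ℤ) < (K : ℤ) ^ j := by
      have := S.hK2
      positivity
    rw [h5] at h3
    have h6 : (K : ℤ) ^ j * |v₂| ≤ (K : ℤ) ^ j * (((A * c + 1 : ℕ) : ℤ) * (K : ℤ) ^ (H - j)) := by
      push_cast
      have h7 : ((A : ℤ) * c) * (K : ℤ) ^ j ≤ (K : ℤ) ^ j * (((A : ℤ) * c) * (K : ℤ) ^ (H - j)) := by
        have h8 : (0 : ℤ) ≤ ((A : ℤ) * c) * (K : ℤ) ^ j := by positivity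
        nlinarith
      push_cast at h3
      nlinarith
    exact le_of_mul_le_mul_left h6 hKj
  obtain ⟨W₂, c₂, hW₂, hc₂⟩ := dval_repr_bound k S.hK S.hK2 (H - j) v₂ (A * c + 1) hv₂b
  refine ⟨W₁, W₂, c₁, c₂, ?_, ?_, ?_, ?_⟩
  · push_cast at hc₁ ⊢
    linarith
  · push_cast at hc₂ ⊢
    linarith
  · rw [← hW₁, ← hW₂, hv₁]; ring
  · have q1 : yl k L W₁ ≤ N₁ + Ca * (A * c) := by
      apply yl_le
      rw [hxv] at p1
      refine (p1.trans (PP.const S (j : ℤ) (-c₁))).of_eq ?_ ?_
      · rw [hW₁]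
        push_cast
        rw [zpow_natCast]
        ring
      · have : (-c₁).natAbs ≤ A * c := by
          rw [Int.natAbs_neg]
          have h1 : ((c₁.natAbs : ℕ) : ℤ) ≤ ((A * c : ℕ) : ℤ) := by
            rw [Int.natCast_natAbs]; exact hc₁
          exact_mod_cast h1
        exact Nat.add_le_add_left (Nat.mul_le_mul_left _ this) _
    have q2 : yl k L W₂ ≤ N₂ + Ca * (A * c + 1) := by
      apply yl_le
      rw [hv₂] at p2
      have p3 := p2.shift S (-(j : ℤ))
      have e5 : (j : ℤ) + -(j : ℤ) = 0 := by ring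
      have e6 : (H : ℤ) + -(j : ℤ) = ((H - j : ℕ) : ℤ) := by
        rw [Nat.cast_sub hj]; ring
      rw [e5, e6] at p3
      refine (p3.trans (PP.const S ((H - j : ℕ) : ℤ) (-c₂))).of_eq ?_ ?_
      · rw [hW₂]
        push_cast
        rw [zpow_natCast, zpow_neg, zpow_natCast]
        have : (k : ℚ) ^ j ≠ 0 := pow_ne_zero _ hk
        field_simp
        ring
      · have : (-c₂).natAbs ≤ A * c + 1 := by
          rw [Int.natAbs_neg]
          have h1 : ((c₂.natAbs : ℕ) : ℤ) ≤ ((A * c + 1 : ℕ) : ℤ) := by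
            rw [Int.natCast_natAbs]; exact hc₂
          exact_mod_cast h1
        exact Nat.add_le_add_left (Nat.mul_le_mul_left _ this) _
    unfold Mcut
    rw [← hc]
    omega

/-- a shortest word -/
theorem exists_word (S : Sys k L K E A Ct Ca) {H : ℕ} (W : Fin H → Fin K) :
    ∃ l : List (ℤ × ℤ), (∀ p ∈ l, p ∈ L) ∧ l.length ≤ yl k L W ∧ fin 0 l = H ∧
      psum (ctr k) 0 l = (dval k W : ℤ) := yl_spec S W

theorem good_levels {K Ct Ca H : ℕ} (s : Finset ℕ) (hs : H ≤ s.card)
    (Ψ : ℕ → ℚ) (hΨ : ∀ i ∈ s, 0 ≤ Ψ i)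
    (hsum : ∑ i ∈ s, Ψ i ≤ 4 * ((Ct + Ca * K) * H : ℕ)) :
    H ≤ 2 * (s.filter (fun j => Ψ j ≤ cgood K Ct Ca)).card := by
  have h1 := markov s Ψ hΨ (cgood K Ct Ca)
  have h2 : (s.filter (fun j => Ψ j ≤ cgood K Ct Ca)).card +
      (s.filter (fun j => (cgood K Ct Ca : ℚ) < Ψ j)).card = s.card := by
    have := Finset.card_filter_add_card_filter_not (s := s) (fun j => Ψ j ≤ cgood K Ct Ca)
    simpa only [not_le] using this
  have h3 : (cgood K Ct Ca : ℚ) * ((s.filter (fun j => (cgood K Ct Ca : ℚ) < Ψ j)).card : ℚ) ≤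
      4 * ((Ct + Ca * K) * H : ℕ) := h1.trans hsum
  have h4 : cgood K Ct Ca * (s.filter (fun j => (cgood K Ct Ca : ℚ) < Ψ j)).card ≤
      4 * ((Ct + Ca * K) * H) := by exact_mod_cast h3
  set bad := (s.filter (fun j => (cgood K Ct Ca : ℚ) < Ψ j)).card
  have h5 : 2 * bad ≤ H := by
    by_contra hcon
    push Not at hcon
    unfold cgood at h4
    nlinarith [Nat.zero_le (Ct + Ca * K), Nat.zero_le bad]
  omega

theorem avg_submul (S : Sys k L K E A Ct Ca) {z₀ : ℝ} (hz₀ : 0 < z₀) :
    ∃ C : ℝ, 0 < C ∧ ∀ z : ℝ, z₀ ≤ z → z ≤ 1 → ∀ H : ℕ, 1 ≤ H →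
      (H : ℝ) * YY k L K H z ≤ C * ∑ j ∈ Finset.range (H + 1), YY k L K j z * YY k L K (H - j) z := by
  classical
  set M := Mcut K E A Ct Ca with hM
  set B : ℕ := A * cgood K Ct Ca + 1 with hB
  set D : ℝ := ((Finset.Icc (-(B : ℤ)) B).card : ℝ) with hD
  have hDpos : 0 < D := by
    rw [hD]
    have : (Finset.Icc (-(B : ℤ)) B).Nonempty := ⟨0, by simp⟩
    exact_mod_cast this.card_pos
  refine ⟨2 * (D * D * (z₀ ^ M)⁻¹), by positivity, ?_⟩
  intro z hz hz1 H hH
  have hzpos : 0 < z := hz₀.trans_le hz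
  choose lw hlw1 hlw2 hlw3 hlw4 using fun W : Fin H → Fin K => exists_word S W
  set good : (Fin H → Fin K) → ℕ → Prop := fun W j => psum (Psi K (j : ℤ)) 0 (lw W) ≤ cgood K Ct Ca
    with hgood
  -- many good levels
  have hmany : ∀ W, H ≤ 2 * ((Finset.range (H + 1)).filter (good W)).card := by
    intro W
    apply good_levels (Finset.range (H + 1)) (by simp) (fun j => psum (Psi K (j : ℤ)) 0 (lw W))
    · intro i _
      apply psum_nonneg
      intro h p
      unfold Psi
      have := Kq_pos S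
      positivity
    · refine (sum_Psi_le S _ _ _).trans ?_
      have h1 : (lw W).length ≤ (Ct + Ca * K) * H := (hlw2 W).trans (yl_le_linear S W)
      have h2 : ((lw W).length : ℚ) ≤ (((Ct + Ca * K) * H : ℕ) : ℚ) := by exact_mod_cast h1
      linarith
  have hstep : ∀ W : Fin H → Fin K, (H : ℝ) * z ^ yl k L W ≤
      2 * ∑ j ∈ Finset.range (H + 1), if good W j then z ^ yl k L W else 0 := by
    intro W
    rw [← Finset.sum_filter, Finset.sum_const, nsmul_eq_mul]
    have h1 : (H : ℝ) ≤ 2 * (((Finset.range (H + 1)).filter (good W)).card : ℝ) := by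
      exact_mod_cast hmany W
    have h2 : 0 ≤ z ^ yl k L W := by positivity
    nlinarith
  have hmain : ∀ j ∈ Finset.range (H + 1),
      ∑ W : Fin H → Fin K, (if good W j then z ^ yl k L W else 0) ≤
        D * D * (z₀ ^ M)⁻¹ * (YY k L K j z * YY k L K (H - j) z) := by
    intro j hj
    have hjH : j ≤ H := Nat.lt_succ_iff.1 (Finset.mem_range.1 hj)
    rw [← Finset.sum_filter]
    have key : ∀ W : Fin H → Fin K, good W j →
        ∃ q : ((Fin j → Fin K) × (Fin (H - j) → Fin K)) × (ℤ × ℤ),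
          q.2.1 ∈ Finset.Icc (-(B : ℤ)) B ∧ q.2.2 ∈ Finset.Icc (-(B : ℤ)) B ∧
          dval k W = dval k q.1.1 + q.2.1 * k ^ j + k ^ j * (dval k q.1.2 + q.2.2 * k ^ (H - j)) ∧
          yl k L q.1.1 + yl k L q.1.2 ≤ yl k L W + M := by
      intro W hW
      obtain ⟨W₁, W₂, c₁, c₂, a1, a2, a3, a4⟩ :=
        cut_one S hjH W (lw W) (hlw1 W) (hlw3 W) (hlw4 W) hW
      refine ⟨((W₁, W₂), (c₁, c₂)), ?_, ?_, a3, ?_⟩
      · rw [abs_le] at a1
        rw [Finset.mem_Icc, hB]; push_cast
        exact a1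
      · rw [abs_le] at a2
        rw [Finset.mem_Icc, hB]; push_cast
        exact a2
      · exact a4.trans (Nat.add_le_add_right (hlw2 W) _)
    have hneK : Nonempty (Fin K) := ⟨⟨0, by have := S.hK2; omega⟩⟩
    choose! q hq1 hq2 hq3 hq4 using key
    have hbound := sum_le_of_inj ((Finset.univ : Finset (Fin H → Fin K)).filter (fun W => good W j))
      ((Finset.univ : Finset ((Fin j → Fin K) × (Fin (H - j) → Fin K))) ×ˢ
        (Finset.Icc (-(B : ℤ)) B ×ˢ Finset.Icc (-(B : ℤ)) B)) q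
      (fun W => z ^ yl k L W)
      (fun r => (z₀ ^ M)⁻¹ * (z ^ yl k L r.1.1 * z ^ yl k L r.1.2))
      (by
        intro W hW
        have hW' := (Finset.mem_filter.1 hW).2
        rw [Finset.mem_product, Finset.mem_product]
        exact ⟨Finset.mem_univ _, hq1 W hW', hq2 W hW'⟩)
      (by
        intro W hW W' hW' hWW
        have hW2 := (Finset.mem_filter.1 (Finset.mem_coe.1 hW)).2
        have hW2' := (Finset.mem_filter.1 (Finset.mem_coe.1 hW')).2
        apply dval_injective k S.hK S.hK2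
        rw [hq3 W hW2, hq3 W' hW2', hWW])
      (by
        intro W hW
        have hW' := (Finset.mem_filter.1 hW).2
        have h4 := hq4 W hW'
        rw [← pow_add]
        have h5 : z ^ (yl k L W + M) ≤ z ^ (yl k L (q W).1.1 + yl k L (q W).1.2) :=
          pow_le_pow_of_le_one hzpos.le hz1 h4
        have h6 : z₀ ^ M ≤ z ^ M := pow_le_pow_left₀ hz₀.le hz _
        rw [pow_add] at h5
        rw [inv_mul_eq_div, le_div_iff₀ (by positivity)]
        calc z ^ yl k L W * z₀ ^ M ≤ z ^ yl k L W * z ^ M :=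
              mul_le_mul_of_nonneg_left h6 (by positivity)
          _ ≤ _ := h5)
      (by intro b _; positivity)
    refine hbound.trans (le_of_eq ?_)
    rw [Finset.sum_product]
    simp only [Finset.sum_const, nsmul_eq_mul, Finset.card_product, Nat.cast_mul]
    rw [← Finset.univ_product_univ, Finset.sum_product]
    unfold YY
    rw [Finset.sum_mul_sum]
    simp only [Finset.mul_sum]
    apply Finset.sum_congr rfl
    intro x _
    apply Finset.sum_congr rfl
    intro y _
    ring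
  calc (H : ℝ) * YY k L K H z = ∑ W : Fin H → Fin K, (H : ℝ) * z ^ yl k L W := by
        unfold YY; rw [Finset.mul_sum]
    _ ≤ ∑ W : Fin H → Fin K,
        2 * ∑ j ∈ Finset.range (H + 1), (if good W j then z ^ yl k L W else 0) :=
        Finset.sum_le_sum fun W _ => hstep W
    _ = 2 * ∑ j ∈ Finset.range (H + 1), ∑ W : Fin H → Fin K,
        (if good W j then z ^ yl k L W else 0) := by
        rw [← Finset.mul_sum, Finset.sum_comm]
    _ ≤ 2 * ∑ j ∈ Finset.range (H + 1),
        D * D * (z₀ ^ M)⁻¹ * (YY k L K j z * YY k L K (H - j) z) := by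
        apply mul_le_mul_of_nonneg_left (Finset.sum_le_sum hmain) (by norm_num)
    _ = _ := by
        rw [← Finset.mul_sum]; ring

end MPa1853d
end

section
set_option autoImplicit false

/-! # Cyclic words: reassembling a path inside one period -/

namespace MPa1853d

variable {k : ℤ} {L : Finset (ℤ × ℤ)} {K E A Ct Ca : ℕ}

/-- clamp to the window `[q H, (q+1) H]` -/
def clq (H : ℤ) (q : ℤ) (h : ℤ) : ℤ := max (q * H) (min h ((q + 1) * H))

/-- the window -/
def innq (H : ℤ) (q : ℤ) (h : ℤ) : Prop := q * H ≤ h ∧ h < (q + 1) * H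

/-- position in the window -/
def gq (H s q : ℤ) : ℤ := max 0 (min (s - q * H) H)

theorem clq_eq {H : ℤ} {q h : ℤ} (h1 : innq H q h) : clq H q h = h := by
  unfold clq
  rw [min_eq_left h1.2.le, max_eq_right h1.1]

theorem clq_sub (H s q : ℤ) : clq H q s - q * H = gq H s q := by
  unfold clq gq
  have : (q + 1) * H = q * H + H := by ring
  rw [this]
  omega

theorem clq_sub' (H s q : ℤ) : clq H q (s + H) - q * H = gq H s (q - 1) := by
  unfold clq gq
  have : (q + 1) * H = q * H + H := by ring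
  rw [this]
  have : (q - 1) * H = q * H - H := by ring
  rw [this]
  omega

theorem sum_clq (H : ℤ) (hH : 0 ≤ H) (q₁ : ℤ) (a b : ℤ) (M : ℕ) :
    ∑ i ∈ Finset.range M, (clq H (q₁ - i) b - clq H (q₁ - i) a) =
      max ((q₁ - M + 1) * H) (min b ((q₁ + 1) * H)) -
        max ((q₁ - M + 1) * H) (min a ((q₁ + 1) * H)) := by
  induction M with
  | zero =>
    simp only [Finset.range_zero, Finset.sum_empty, Nat.cast_zero, sub_zero]
    omega
  | succ M ih =>
    rw [Finset.sum_range_succ, ih]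
    unfold clq
    have e1 : (q₁ - ((M + 1 : ℕ) : ℤ) + 1) * H = (q₁ - M) * H := by push_cast; ring
    have e2 : (q₁ - (M : ℤ) + 1) * H = (q₁ - M) * H + H := by ring
    have e3 : (q₁ + 1) * H = (q₁ - M) * H + H + M * H := by ring
    have e4 : 0 ≤ (M : ℤ) * H := by positivity
    rw [e1, e2, e3]
    generalize (q₁ - (M : ℤ)) * H = x at *
    generalize (M : ℤ) * H = y at *
    omega

theorem sum_abs_clq (H : ℤ) (hH : 0 ≤ H) (q₁ : ℤ) (a b : ℤ) (M : ℕ) :
    ∑ i ∈ Finset.range M, |clq H (q₁ - i) b - clq H (q₁ - i) a| ≤ |b - a| := by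
  wlog hab : a ≤ b with Hw
  · have := Hw H hH q₁ b a M (le_of_lt (not_le.1 hab))
    rw [abs_sub_comm b a]
    refine le_trans (le_of_eq ?_) this
    apply Finset.sum_congr rfl
    intro i _
    rw [abs_sub_comm]
  · have h1 : ∀ i ∈ Finset.range M, |clq H (q₁ - i) b - clq H (q₁ - i) a| =
        clq H (q₁ - i) b - clq H (q₁ - i) a := by
      intro i _
      apply abs_of_nonneg
      unfold clq
      omega
    rw [Finset.sum_congr rfl h1, sum_clq H hH]
    have h2 : (q₁ - (M : ℤ) + 1) * H ≤ (q₁ + 1) * H := by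
      have e4 : 0 ≤ (M : ℤ) * H := by positivity
      nlinarith
    rw [abs_of_nonneg (sub_nonneg.2 hab)]
    generalize (q₁ - (M : ℤ) + 1) * H = x at *
    generalize (q₁ + 1) * H = y at *
    omega

/-- letters near the cut levels -/
def near (E H : ℕ) (h : ℤ) (_ : ℤ × ℤ) : ℕ :=
  if (h % (H : ℤ)) < E ∨ (H : ℤ) - h % (H : ℤ) < E then 1 else 0

/-- the contribution inside one period -/
def cyc (k : ℤ) (H : ℕ) (h : ℤ) (p : ℤ × ℤ) : ℤ := p.1 * k ^ (h % (H : ℤ)).toNat

theorem innq_iff {H : ℕ} (hH : 1 ≤ H) (q h : ℤ) : innq H q h ↔ q = h / (H : ℤ) := by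
  have hH' : (0 : ℤ) < H := by exact_mod_cast hH
  unfold innq
  constructor
  · rintro ⟨h1, h2⟩
    have a1 : q ≤ h / (H : ℤ) := (Int.le_ediv_iff_mul_le hH').2 h1
    have a2 : h / (H : ℤ) < q + 1 := (Int.ediv_lt_iff_lt_mul hH').2 h2
    omega
  · rintro rfl
    constructor
    · exact Int.ediv_mul_le h hH'.ne'
    · have := Int.lt_ediv_add_one_mul_self h hH'
      exact this

theorem cost_letter (S : Sys k L K E A Ct Ca) {H : ℕ} (hH : 1 ≤ H) (q₁ : ℤ) (M : ℕ) (h : ℤ)
    (p : ℤ × ℤ) (hp : p ∈ L) :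
    ∑ i ∈ Finset.range M, ccost Ct (clq H (q₁ - i)) (innq H (q₁ - i)) h p ≤
      1 + 2 * Ct * E * near E H h p := by
  classical
  have hE := S.hE p hp
  have hH' : (0 : ℤ) < H := by exact_mod_cast hH
  -- at most one window contains `h`
  have hcard : ((Finset.range M).filter (fun i : ℕ => innq H (q₁ - i) h)).card ≤ 1 := by
    rw [Finset.card_le_one]
    intro i hi j hj
    rw [Finset.mem_filter, innq_iff hH] at hi hj
    omega
  by_cases hn : (h % (H : ℤ)) < E ∨ (H : ℤ) - h % (H : ℤ) < E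
  · -- crude bound
    have h1 : ∀ i ∈ Finset.range M, ccost Ct (clq H (q₁ - i)) (innq H (q₁ - i)) h p ≤
        (if innq H (q₁ - i) h then 1 + Ct * E else 0) +
          Ct * (clq H (q₁ - i) (h + p.2) - clq H (q₁ - i) h).natAbs := by
      intro i _
      unfold ccost
      by_cases hi : innq H (q₁ - i) h
      · rw [if_pos hi, if_pos hi]
        have h2 : (clq H (q₁ - i) (h + p.2) - (h + p.2)).natAbs ≤ E := by
          obtain ⟨a1, a2⟩ := hi
          unfold clq
          rw [abs_le] at hE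
          omega
        have := Nat.mul_le_mul_left Ct h2
        omega
      · rw [if_neg hi, if_neg hi]
        omega
    refine (Finset.sum_le_sum h1).trans ?_
    rw [Finset.sum_add_distrib, ← Finset.sum_filter, Finset.sum_const, ← Finset.mul_sum,
      smul_eq_mul]
    have h2 : ∑ i ∈ Finset.range M, (clq H (q₁ - i) (h + p.2) - clq H (q₁ - i) h).natAbs ≤ E := by
      have h3 := sum_abs_clq (H : ℤ) hH'.le q₁ h (h + p.2) M
      have h4 : |h + p.2 - h| ≤ (E : ℤ) := by
        have : h + p.2 - h = p.2 := by ring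
        rw [this]; exact hE
      have h5 : ((∑ i ∈ Finset.range M,
          (clq H (q₁ - i) (h + p.2) - clq H (q₁ - i) h).natAbs : ℕ) : ℤ) ≤ E := by
        push_cast
        exact h3.trans h4
      exact_mod_cast h5
    have h6 := Nat.mul_le_mul_left Ct h2
    have h7 := Nat.mul_le_mul_right (1 + Ct * E) hcard
    unfold near
    rw [if_pos hn]
    have : 2 * Ct * E * 1 = Ct * E + Ct * E := by ring
    omega
  · -- exact
    unfold near
    rw [if_neg hn]
    push Not at hn
    have h1 : ∀ i ∈ Finset.range M, ccost Ct (clq H (q₁ - i)) (innq H (q₁ - i)) h p ≤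
        (if innq H (q₁ - i) h then 1 else 0) := by
      intro i _
      have hdm := Int.emod_add_mul_ediv h (H : ℤ)
      have hw := (innq_iff hH (h / (H : ℤ)) h).2 rfl
      obtain ⟨w1, w2⟩ := hw
      have e1 : (h / (H : ℤ) + 1) * (H : ℤ) = h / (H : ℤ) * (H : ℤ) + H := by ring
      have e2 : (H : ℤ) * (h / (H : ℤ)) = h / (H : ℤ) * (H : ℤ) := by ring
      rw [e2] at hdm
      rw [e1] at w2
      rw [abs_le] at hE
      unfold ccost
      by_cases hi : innq H (q₁ - i) h
      · rw [if_pos hi, if_pos hi]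
        have hq := (innq_iff hH _ _).1 hi
        have h2 : (clq H (q₁ - i) (h + p.2) - (h + p.2)).natAbs = 0 := by
          rw [hq]
          unfold clq
          rw [e1]
          generalize h / (H : ℤ) * (H : ℤ) = x at *
          omega
        rw [h2]
        simp
      · rw [if_neg hi, if_neg hi]
        have h2 : (clq H (q₁ - i) (h + p.2) - clq H (q₁ - i) h).natAbs = 0 := by
          rw [innq_iff hH] at hi
          unfold clq
          rcases lt_or_gt_of_ne hi with hlt | hgt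
          · have h3 : (q₁ - i + 1) * (H : ℤ) ≤ h / (H : ℤ) * (H : ℤ) :=
              mul_le_mul_of_nonneg_right (by omega) hH'.le
            have h4 : (q₁ - i) * (H : ℤ) ≤ (q₁ - i + 1) * (H : ℤ) :=
              mul_le_mul_of_nonneg_right (by omega) hH'.le
            generalize h / (H : ℤ) * (H : ℤ) = x at *
            generalize (q₁ - i + 1) * (H : ℤ) = y at *
            generalize (q₁ - i) * (H : ℤ) = t at *
            omega
          · have h3 : h / (H : ℤ) * (H : ℤ) + H ≤ (q₁ - i) * (H : ℤ) := by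
              rw [← e1]
              exact mul_le_mul_of_nonneg_right (by omega) hH'.le
            have h4 : (q₁ - i) * (H : ℤ) ≤ (q₁ - i + 1) * (H : ℤ) :=
              mul_le_mul_of_nonneg_right (by omega) hH'.le
            generalize h / (H : ℤ) * (H : ℤ) = x at *
            generalize (q₁ - i + 1) * (H : ℤ) = y at *
            generalize (q₁ - i) * (H : ℤ) = t at *
            omega
        rw [h2]
        simp
    refine (Finset.sum_le_sum h1).trans ?_
    rw [← Finset.sum_filter, Finset.sum_const, smul_eq_mul]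
    omega

theorem reassemble (S : Sys k L K E A Ct Ca) {H : ℕ} (hH : 1 ≤ H) (l : List (ℤ × ℤ))
    (hl : ∀ p ∈ l, p ∈ L) (s : ℤ) (hfin : fin s l = s + H) :
    PP k L 0 H ((psum (cyc k H) s l : ℤ) : ℚ) (l.length + 2 * Ct * E * psum (near E H) s l) := by
  classical
  have hH' : (0 : ℤ) < H := by exact_mod_cast hH
  have hk := S.k_ne
  -- bound of the heights
  set B : ℕ := s.natAbs + E * l.length with hB
  have hBs : |s| + E * l.length ≤ (B : ℤ) := by
    rw [hB]; push_cast; simp
  have hall := (allH_bound l (fun p hp => S.hE p (hl p hp)) s B hBs).1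
  have hsB : |s| ≤ (B : ℤ) := by
    have : (0 : ℤ) ≤ E * l.length := by positivity
    linarith
  rw [abs_le] at hsB
  have hBH : (B : ℤ) ≤ B * H := by
    have : (0 : ℤ) ≤ B := by positivity
    nlinarith
  -- one window
  have hwin : ∀ q : ℤ, PP k L (gq H s q) (gq H s (q - 1))
      ((k : ℚ) ^ (-(q * H)) * psum (cctr k (innq H q)) s l)
      (psum (ccost Ct (clq H q) (innq H q)) s l) := by
    intro q
    have p1 := clamp_path S (clq H q) (innq H q) (fun h hh => clq_eq hh) l hl s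
    rw [hfin] at p1
    have p2 := p1.shift S (-(q * H))
    have e1 := clq_sub (H : ℤ) s q
    have e2 := clq_sub' (H : ℤ) s q
    rw [sub_eq_add_neg] at e1 e2
    rw [e1, e2] at p2
    exact p2
  -- all windows
  have hchain : ∀ M : ℕ, PP k L (gq H s B) (gq H s (B - M))
      (∑ i ∈ Finset.range M, (k : ℚ) ^ (-(((B : ℤ) - i) * H)) *
        psum (cctr k (innq H ((B : ℤ) - i))) s l)
      (∑ i ∈ Finset.range M, psum (ccost Ct (clq H ((B : ℤ) - i)) (innq H ((B : ℤ) - i))) s l) := by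
    intro M
    induction M with
    | zero => simpa using PP.refl (k := k) (L := L) (gq H s B)
    | succ M ih =>
      rw [Finset.sum_range_succ, Finset.sum_range_succ]
      have h1 := hwin ((B : ℤ) - M)
      have e : (B : ℤ) - M - 1 = B - ((M + 1 : ℕ) : ℤ) := by push_cast; ring
      rw [e] at h1
      exact ih.trans h1
  have h0 := hchain (2 * B + 1)
  have g1 : gq H s B = 0 := by
    unfold gq
    generalize (B : ℤ) * H = x at *
    omega
  have g2 : gq H s ((B : ℤ) - ((2 * B + 1 : ℕ) : ℤ)) = H := by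
    unfold gq
    have : ((B : ℤ) - ((2 * B + 1 : ℕ) : ℤ)) * H = -(B * H) - H := by push_cast; ring
    rw [this]
    generalize (B : ℤ) * H = x at *
    omega
  rw [g1, g2] at h0
  refine h0.of_eq ?_ ?_
  · -- values
    have h2 : ((psum (cyc k H) s l : ℤ) : ℚ) = psum (fun h p => ((cyc k H h p : ℤ) : ℚ)) s l := by
      have := psum_map (Int.castAddHom ℚ) (cyc k H) l s
      simpa using this
    rw [h2]
    have h3 : ∀ i : ℕ, (k : ℚ) ^ (-(((B : ℤ) - i) * H)) *
        psum (cctr k (innq H ((B : ℤ) - i))) s l =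
        psum (fun h p => (k : ℚ) ^ (-(((B : ℤ) - i) * H)) * cctr k (innq H ((B : ℤ) - i)) h p)
          s l := by
      intro i
      rw [psum_mul_left]
    rw [Finset.sum_congr rfl (fun i _ => h3 i), ← psum_finset_sum]
    apply psum_congr l s hall
    intro h hh p _
    rw [abs_le] at hh
    have hq1 : -(B : ℤ) ≤ h / (H : ℤ) := by
      rw [Int.le_ediv_iff_mul_le hH']
      nlinarith
    have hq2 : h / (H : ℤ) ≤ B := by
      have : h / (H : ℤ) < B + 1 := by
        rw [Int.ediv_lt_iff_lt_mul hH']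
        nlinarith
      omega
    rw [Finset.sum_eq_single ((B : ℤ) - h / (H : ℤ)).toNat]
    · have e : (B : ℤ) - (((B : ℤ) - h / (H : ℤ)).toNat : ℤ) = h / (H : ℤ) := by omega
      rw [e]
      have hi := (innq_iff hH (h / (H : ℤ)) h).2 rfl
      unfold cctr cyc ctr
      rw [if_pos hi]
      push_cast
      have hdm := Int.emod_add_mul_ediv h (H : ℤ)
      have hnn := Int.emod_nonneg h hH'.ne'
      have e2 : ((h % (H : ℤ)).toNat : ℤ) = h % (H : ℤ) := Int.toNat_of_nonneg hnn
      rw [← zpow_natCast, e2]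
      have e3 : h % (H : ℤ) = -(h / (H : ℤ) * H) + h := by linarith [mul_comm (H : ℤ) (h / (H : ℤ))]
      rw [e3, zpow_add₀ hk]
      ring
    · intro i _ hi
      have : ¬ innq H ((B : ℤ) - i) h := by
        rw [innq_iff hH]
        omega
      unfold cctr
      rw [if_neg this, mul_zero]
    · intro hnot
      exfalso
      apply hnot
      rw [Finset.mem_range]
      omega
  · -- costs
    rw [← psum_finset_sum]
    have h1 : psum (fun h p => ∑ i ∈ Finset.range (2 * B + 1),
        ccost Ct (clq H ((B : ℤ) - i)) (innq H ((B : ℤ) - i)) h p) s l ≤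
        psum (fun h p => 1 + 2 * Ct * E * near E H h p) s l :=
      psum_le _ _ (fun h p hp => cost_letter S hH (B : ℤ) (2 * B + 1) h p (hl p hp))
    refine h1.trans ?_
    rw [psum_add (fun _ _ => (1 : ℕ)), psum_const, psum_mul_left]
    simp

end MPa1853d
end

section
set_option autoImplicit false

/-!
# Module LOG: at most logarithmic growth
-/

namespace MPa1853d

open Filter Topology

namespace LOG

theorem one_sub_pow_le (E : ℕ) (y : ℝ) (hy0 : 0 ≤ y) (hy1 : y ≤ 1) :
    1 - y ^ E ≤ E * (1 - y) := by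
  induction E with
  | zero => simp
  | succ E ih =>
    have h1 : y ^ E ≤ 1 := pow_le_one₀ hy0 hy1
    rw [pow_succ]
    push_cast
    nlinarith [mul_nonneg (sub_nonneg.mpr h1) (sub_nonneg.mpr hy1)]

end LOG

theorem specLog : SpecLog := by
  intro ρ C z₀ E F hρ hE hz₀ hF0 hF m
  have hE' : (0 : ℝ) < E := by exact_mod_cast hE
  set c : ℝ := 1 + Real.log E with hc
  -- the variable `v = e^c / (1 - z / ρ)`
  set v : ℝ → ℝ := fun z => Real.exp c / (1 - z / ρ) with hv
  have hev : ∀ᶠ z in 𝓝[<] ρ, z₀ < z ∧ 0 < z ∧ z < ρ := by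
    have h1 : ∀ᶠ z in 𝓝[<] ρ, z < ρ := eventually_mem_nhdsWithin
    have h2 : ∀ᶠ z in 𝓝[<] ρ, z₀ < z := nhdsWithin_le_nhds (lt_mem_nhds hz₀)
    have h3 : ∀ᶠ z in 𝓝[<] ρ, 0 < z := nhdsWithin_le_nhds (lt_mem_nhds hρ)
    filter_upwards [h1, h2, h3] with z a b d
    exact ⟨b, d, a⟩
  have hpos : ∀ z, z < ρ → 0 < 1 - z / ρ := by
    intro z hz
    have : z / ρ < 1 := (div_lt_one hρ).mpr hz
    linarith
  have hvt : Tendsto v (𝓝[<] ρ) atTop := by
    have h1 : Tendsto (fun z : ℝ => 1 - z / ρ) (𝓝[<] ρ) (𝓝[>] 0) := by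
      rw [tendsto_nhdsWithin_iff]
      constructor
      · have h2 : Tendsto (fun z : ℝ => 1 - z / ρ) (𝓝 ρ) (𝓝 (1 - ρ / ρ)) :=
          (continuous_const.sub (continuous_id.div_const ρ)).tendsto ρ
        rw [div_self hρ.ne', sub_self] at h2
        exact h2.mono_left nhdsWithin_le_nhds
      · filter_upwards [hev] with z hz
        exact hpos z hz.2.2
    have h3 : Tendsto (fun z : ℝ => (1 - z / ρ)⁻¹) (𝓝[<] ρ) atTop :=
      tendsto_inv_nhdsGT_zero.comp h1
    have h4 := h3.const_mul_atTop (Real.exp_pos c)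
    refine h4.congr fun z => ?_
    rw [hv]
    simp only [div_eq_mul_inv]
  -- the bound for `F`
  have hFb : ∀ z, z₀ < z → 0 < z → z < ρ → F z ≤ |C| * Real.log (v z) := by
    intro z h1 h2 h3
    set y : ℝ := (z / ρ) ^ ((E : ℝ)⁻¹) with hy
    have hzρ0 : 0 < z / ρ := div_pos h2 hρ
    have hzρ1 : z / ρ < 1 := (div_lt_one hρ).mpr h3
    have hy0 : 0 < y := Real.rpow_pos_of_pos hzρ0 _
    have hy1 : y < 1 := Real.rpow_lt_one hzρ0.le hzρ1 (inv_pos.mpr hE')
    have hyE : y ^ E = z / ρ := by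
      rw [hy]
      exact Real.rpow_inv_natCast_pow hzρ0.le hE.ne'
    have h4 := hF z y h1 h2 h3 hy0 hy1 hyE
    have h5 : HasSum (fun n : ℕ => y ^ (n + 1) / ((n : ℝ) + 1)) (-Real.log (1 - y)) :=
      Real.hasSum_pow_div_log_of_abs_lt_one (by rw [abs_of_pos hy0]; exact hy1)
    rw [h5.tsum_eq] at h4
    have h6 : (1 - z / ρ) / E ≤ 1 - y := by
      rw [div_le_iff₀ hE', ← hyE, mul_comm]
      exact LOG.one_sub_pow_le E y hy0.le hy1.le
    have h7 : 0 < (1 - z / ρ) / E := div_pos (hpos z h3) hE'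
    have h8 : Real.log ((1 - z / ρ) / E) ≤ Real.log (1 - y) := Real.log_le_log h7 h6
    have h9 : Real.log ((1 - z / ρ) / E) = Real.log (1 - z / ρ) - Real.log E :=
      Real.log_div (hpos z h3).ne' hE'.ne'
    have h10 : Real.log (v z) = c - Real.log (1 - z / ρ) := by
      rw [hv]
      simp only
      rw [Real.log_div (Real.exp_pos c).ne' (hpos z h3).ne', Real.log_exp]
    have h11 : Real.log (1 - y) ≤ 0 := Real.log_nonpos (by linarith) (by linarith)
    calc F z ≤ C * (1 + -Real.log (1 - y)) := h4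
      _ ≤ |C| * (1 + -Real.log (1 - y)) :=
        mul_le_mul_of_nonneg_right (le_abs_self C) (by linarith)
      _ ≤ |C| * Real.log (v z) := by
        apply mul_le_mul_of_nonneg_left _ (abs_nonneg C)
        rw [h10, hc]
        linarith
  -- the limit
  have hlim : Tendsto (fun w : ℝ => (Real.log w) ^ m / w) atTop (𝓝 0) := by
    have h := (Real.isLittleO_pow_log_id_atTop (n := m)).tendsto_div_nhds_zero
    simpa using h
  have hlim2 : Tendsto (fun z : ℝ => (ρ * Real.exp c * |C| ^ m) * ((Real.log (v z)) ^ m / v z))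
      (𝓝[<] ρ) (𝓝 0) := by
    have h := (hlim.comp hvt).const_mul (ρ * Real.exp c * |C| ^ m)
    rw [mul_zero] at h
    exact h
  refine squeeze_zero' ?_ ?_ hlim2
  · filter_upwards [hev] with z hz
    exact mul_nonneg (by linarith [hz.2.2]) (pow_nonneg (hF0 z hz.1 hz.2.2) m)
  · filter_upwards [hev] with z hz
    have h1 := hF0 z hz.1 hz.2.2
    have h2 := hFb z hz.1 hz.2.1 hz.2.2
    have h3 : (F z) ^ m ≤ (|C| * Real.log (v z)) ^ m := pow_le_pow_left₀ h1 h2 m
    have h4 : ρ - z = ρ * Real.exp c / v z := by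
      have h5 := hpos z hz.2.2
      rw [hv]
      simp only
      have h6 : Real.exp c ≠ 0 := (Real.exp_pos c).ne'
      field_simp
    have h7 : 0 < ρ - z := by linarith [hz.2.2]
    calc (ρ - z) * (F z) ^ m ≤ (ρ - z) * (|C| * Real.log (v z)) ^ m :=
        mul_le_mul_of_nonneg_left h3 h7.le
      _ = (ρ * Real.exp c * |C| ^ m) * ((Real.log (v z)) ^ m / v z) := by
        rw [h4, mul_pow]
        ring

end MPa1853d
end

section
set_option autoImplicit false

namespace MPa1853d
namespace LOOP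

/-- changing one digit changes the weight by a bounded factor -/
def Lip {H K : ℕ} (η : ℝ) (f : (Fin H → Fin K) → ℝ) : Prop :=
  ∀ (W : Fin H → Fin K) (i : Fin H) (d : Fin K), η * f W ≤ f (Function.update W i d)

theorem sum_cons {H K : ℕ} (F : (Fin (H + 1) → Fin K) → ℝ) :
    ∑ W : Fin (H + 1) → Fin K, F W
      = ∑ a : Fin K, ∑ V : Fin H → Fin K, F (Fin.cons a V) := by
  rw [← (Fin.consEquiv (fun _ : Fin (H + 1) => Fin K)).sum_comp, Fintype.sum_prod_type]
  rfl

theorem Lip.cons {H K : ℕ} {η : ℝ} {f : (Fin (H + 1) → Fin K) → ℝ} (hf : Lip η f) (a : Fin K) :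
    Lip η (fun V : Fin H → Fin K => f (Fin.cons a V)) := by
  intro W i d
  have := hf (Fin.cons a W) i.succ d
  rw [← Fin.cons_update] at this
  exact this

theorem Lip.head {H K : ℕ} {η : ℝ} {f : (Fin (H + 1) → Fin K) → ℝ} (hf : Lip η f)
    (V : Fin H → Fin K) (a b : Fin K) : η * f (Fin.cons a V) ≤ f (Fin.cons b V) := by
  have := hf (Fin.cons a V) 0 b
  rw [Fin.update_cons_zero] at this
  exact this

/-- weight of one coordinate -/
def u {K : ℕ} (τ : ℝ) (a b a' b' : Fin K) : ℝ :=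
  if a = b then (if a' = b' then τ else 0) else (if a' = a ∧ b' = b then 1 else 0)

theorem u_nonneg {K : ℕ} {τ : ℝ} (hτ : 0 ≤ τ) (a b a' b' : Fin K) : 0 ≤ u τ a b a' b' := by
  unfold u
  split_ifs <;> first | exact hτ | exact le_refl _ | exact zero_le_one

theorem claimA {K : ℕ} (hK : 2 ≤ K) {η τ : ℝ} (hη : 0 < η) (hτ : 0 ≤ τ)
    (hτ2 : 1 ≤ τ * (1 + ((K : ℝ) - 1) * η ^ 2)) :
    ∀ (H : ℕ) (f f' : (Fin H → Fin K) → ℝ), (∀ W, 0 ≤ f W) → (∀ W, 0 ≤ f' W) →
      Lip η f → Lip η f' → ∀ W W' : Fin H → Fin K,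
      f W * f' W' ≤ ∑ V : Fin H → Fin K, ∑ V' : Fin H → Fin K,
        f V * f' V' * ∏ i, u τ (W i) (W' i) (V i) (V' i) := by
  intro H
  induction H with
  | zero =>
    intro f f' _ _ _ _ W W'
    have h1 : ∀ V : Fin 0 → Fin K, V = W := fun V => Subsingleton.elim _ _
    have h2 : ∀ V : Fin 0 → Fin K, V = W' := fun V => Subsingleton.elim _ _
    simp only [Finset.univ_unique, Finset.sum_singleton, Finset.univ_eq_empty,
      Finset.prod_empty, mul_one]
    rw [h1 default, ← h2 W]
  | succ H ih =>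
    intro f f' h0 h0' hf hf' W W'
    obtain ⟨a, T, rfl⟩ : ∃ a T, W = Fin.cons a T := ⟨W 0, Fin.tail W, (Fin.cons_self_tail W).symm⟩
    obtain ⟨b, T', rfl⟩ : ∃ b T', W' = Fin.cons b T' :=
      ⟨W' 0, Fin.tail W', (Fin.cons_self_tail W').symm⟩
    have key : ∀ a' b' : Fin K,
        u τ a b a' b' * (f (Fin.cons a' T) * f' (Fin.cons b' T')) ≤
        ∑ V : Fin H → Fin K, ∑ V' : Fin H → Fin K,
          f (Fin.cons a' V) * f' (Fin.cons b' V') *
            (u τ a b a' b' * ∏ i, u τ (T i) (T' i) (V i) (V' i)) := by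
      intro a' b'
      have := ih (fun V => f (Fin.cons a' V)) (fun V => f' (Fin.cons b' V))
        (fun V => h0 _) (fun V => h0' _) (hf.cons a') (hf'.cons b') T T'
      calc u τ a b a' b' * (f (Fin.cons a' T) * f' (Fin.cons b' T'))
          ≤ u τ a b a' b' * ∑ V : Fin H → Fin K, ∑ V' : Fin H → Fin K,
            f (Fin.cons a' V) * f' (Fin.cons b' V') *
              ∏ i, u τ (T i) (T' i) (V i) (V' i) :=
            mul_le_mul_of_nonneg_left this (u_nonneg hτ _ _ _ _)
        _ = _ := by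
            rw [Finset.mul_sum]
            refine Finset.sum_congr rfl fun V _ => ?_
            rw [Finset.mul_sum]
            refine Finset.sum_congr rfl fun V' _ => ?_
            ring
    have hsum : ∑ V : Fin (H + 1) → Fin K, ∑ V' : Fin (H + 1) → Fin K,
        f V * f' V' * ∏ i, u τ ((Fin.cons a T : Fin (H + 1) → Fin K) i)
          ((Fin.cons b T' : Fin (H + 1) → Fin K) i) (V i) (V' i)
        = ∑ a' : Fin K, ∑ b' : Fin K, ∑ V : Fin H → Fin K, ∑ V' : Fin H → Fin K,
          f (Fin.cons a' V) * f' (Fin.cons b' V') *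
            (u τ a b a' b' * ∏ i, u τ (T i) (T' i) (V i) (V' i)) := by
      rw [sum_cons]
      refine Finset.sum_congr rfl fun a' _ => ?_
      rw [Finset.sum_comm, sum_cons]
      refine Finset.sum_congr rfl fun b' _ => ?_
      rw [Finset.sum_comm]
      refine Finset.sum_congr rfl fun V _ => ?_
      refine Finset.sum_congr rfl fun V' _ => ?_
      rw [Fin.prod_univ_succ]
      simp only [Fin.cons_zero, Fin.cons_succ]
    rw [hsum]
    refine le_trans ?_ (Finset.sum_le_sum fun a' _ => Finset.sum_le_sum fun b' _ => key a' b')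
    by_cases hab : a = b
    · subst hab
      have h1 : ∀ a' : Fin K, ∑ b' : Fin K,
          u τ a a a' b' * (f (Fin.cons a' T) * f' (Fin.cons b' T'))
          = τ * (f (Fin.cons a' T) * f' (Fin.cons a' T')) := by
        intro a'
        rw [Finset.sum_eq_single a']
        · simp [u]
        · intro b' _ hb
          simp [u, Ne.symm hb]
        · intro h
          exact absurd (Finset.mem_univ _) h
      simp only [h1]
      rw [← Finset.mul_sum]
      have h2 : ∀ a' ∈ (Finset.univ.erase a : Finset (Fin K)),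
          η ^ 2 * (f (Fin.cons a T) * f' (Fin.cons a T')) ≤
            f (Fin.cons a' T) * f' (Fin.cons a' T') := by
        intro a' _
        have e1 := hf.head T a a'
        have e2 := hf'.head T' a a'
        calc η ^ 2 * (f (Fin.cons a T) * f' (Fin.cons a T'))
            = (η * f (Fin.cons a T)) * (η * f' (Fin.cons a T')) := by ring
          _ ≤ f (Fin.cons a' T) * f' (Fin.cons a' T') :=
              mul_le_mul e1 e2 (mul_nonneg hη.le (h0' _)) (h0 _)
      have h3 := Finset.sum_le_sum h2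
      rw [Finset.sum_const, Finset.card_erase_of_mem (Finset.mem_univ _), Finset.card_univ,
        Fintype.card_fin, nsmul_eq_mul] at h3
      have h4 : ((K - 1 : ℕ) : ℝ) = (K : ℝ) - 1 := by
        rw [Nat.cast_sub (by omega)]
        simp
      rw [h4] at h3
      rw [← Finset.add_sum_erase _ _ (Finset.mem_univ a)]
      have hg : 0 ≤ f (Fin.cons a T) * f' (Fin.cons a T') := mul_nonneg (h0 _) (h0' _)
      calc f (Fin.cons a T) * f' (Fin.cons a T')
          ≤ (τ * (1 + ((K : ℝ) - 1) * η ^ 2)) * (f (Fin.cons a T) * f' (Fin.cons a T')) :=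
            le_mul_of_one_le_left hg hτ2
        _ = τ * (f (Fin.cons a T) * f' (Fin.cons a T') +
              ((K : ℝ) - 1) * (η ^ 2 * (f (Fin.cons a T) * f' (Fin.cons a T')))) := by ring
        _ ≤ _ := by gcongr
    · have h1 : f (Fin.cons a T) * f' (Fin.cons b T')
          = u τ a b a b * (f (Fin.cons a T) * f' (Fin.cons b T')) := by
        simp [u, hab]
      have hnn : ∀ a' b' : Fin K,
          0 ≤ u τ a b a' b' * (f (Fin.cons a' T) * f' (Fin.cons b' T')) :=
        fun a' b' => mul_nonneg (u_nonneg hτ _ _ _ _) (mul_nonneg (h0 _) (h0' _))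
      calc f (Fin.cons a T) * f' (Fin.cons b T')
          = u τ a b a b * (f (Fin.cons a T) * f' (Fin.cons b T')) := h1
        _ ≤ ∑ b' : Fin K, u τ a b a b' * (f (Fin.cons a T) * f' (Fin.cons b' T')) :=
            Finset.single_le_sum
              (f := fun b' => u τ a b a b' * (f (Fin.cons a T) * f' (Fin.cons b' T')))
              (fun b' _ => hnn a b') (Finset.mem_univ b)
        _ ≤ _ :=
            Finset.single_le_sum
              (f := fun a' => ∑ b' : Fin K,
                u τ a b a' b' * (f (Fin.cons a' T) * f' (Fin.cons b' T')))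
              (fun a' _ => Finset.sum_nonneg fun b' _ => hnn a' b') (Finset.mem_univ a)

/-- total weight of one coordinate -/
def v {K : ℕ} (τ : ℝ) (a b : Fin K) : ℝ := if a = b then τ else 1

theorem claimB {K : ℕ} (hK : 2 ≤ K) {η τ : ℝ} (hη : 0 < η) (hη1 : η ≤ 1) (hτ : 0 ≤ τ)
    (hτ1 : τ ≤ 1) :
    ∀ (H : ℕ) (f f' : (Fin H → Fin K) → ℝ), (∀ W, 0 ≤ f W) → (∀ W, 0 ≤ f' W) →
      Lip η f → Lip η f' →
      ∑ V : Fin H → Fin K, ∑ V' : Fin H → Fin K, f V * f' V' * ∏ i, v τ (V i) (V' i)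
        ≤ (1 - (1 - τ) * (η / K)) ^ H * ((∑ V, f V) * (∑ V, f' V)) := by
  have hK0 : (0 : ℝ) < K := by
    have : 0 < K := by omega
    exact_mod_cast this
  have hK1 : (1 : ℝ) ≤ K := by
    have : 1 ≤ K := by omega
    exact_mod_cast this
  have hθ : 0 ≤ 1 - (1 - τ) * (η / K) := by
    have h1 : η / K ≤ 1 := by
      rw [div_le_one hK0]
      linarith
    have h2 : 0 ≤ η / K := by positivity
    nlinarith
  intro H
  induction H with
  | zero =>
    intro f f' _ _ _ _
    simp
  | succ H ih =>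
    intro f f' h0 h0' hf hf'
    have hsum : ∑ V : Fin (H + 1) → Fin K, ∑ V' : Fin (H + 1) → Fin K,
        f V * f' V' * ∏ i, v τ (V i) (V' i)
        = ∑ a : Fin K, ∑ b : Fin K, v τ a b * ∑ V : Fin H → Fin K, ∑ V' : Fin H → Fin K,
          f (Fin.cons a V) * f' (Fin.cons b V') * ∏ i, v τ (V i) (V' i) := by
      rw [sum_cons]
      refine Finset.sum_congr rfl fun a' _ => ?_
      rw [Finset.sum_comm, sum_cons]
      refine Finset.sum_congr rfl fun b' _ => ?_
      rw [Finset.sum_comm, Finset.mul_sum]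
      refine Finset.sum_congr rfl fun V _ => ?_
      rw [Finset.mul_sum]
      refine Finset.sum_congr rfl fun V' _ => ?_
      rw [Fin.prod_univ_succ]
      simp only [Fin.cons_zero, Fin.cons_succ]
      ring
    set F : Fin K → ℝ := fun a => ∑ V : Fin H → Fin K, f (Fin.cons a V) with hF
    set F' : Fin K → ℝ := fun a => ∑ V : Fin H → Fin K, f' (Fin.cons a V) with hF'
    have hFs : ∑ V, f V = ∑ a, F a := sum_cons f
    have hFs' : ∑ V, f' V = ∑ a, F' a := sum_cons f'
    have hFn : ∀ a, 0 ≤ F a := fun a => Finset.sum_nonneg fun V _ => h0 _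
    have hFn' : ∀ a, 0 ≤ F' a := fun a => Finset.sum_nonneg fun V _ => h0' _
    have hFL : ∀ a b, η * F a ≤ F b := by
      intro a b
      rw [hF]
      simp only
      rw [Finset.mul_sum]
      exact Finset.sum_le_sum fun V _ => hf.head V a b
    have hv : ∀ a b : Fin K, 0 ≤ v τ a b := by
      intro a b
      unfold v
      split_ifs
      · exact hτ
      · exact zero_le_one
    have hFK : ∀ a, η / K * ∑ b, F b ≤ F a := by
      intro a
      have h1 : ∑ b : Fin K, η * F b ≤ ∑ _b : Fin K, F a :=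
        Finset.sum_le_sum fun b _ => hFL b a
      rw [Finset.sum_const, Finset.card_univ, Fintype.card_fin, nsmul_eq_mul,
        ← Finset.mul_sum] at h1
      rw [div_mul_eq_mul_div, div_le_iff₀ hK0]
      linarith
    have hdiag : η / K * ((∑ b, F b) * ∑ b, F' b) ≤ ∑ a, F a * F' a := by
      calc η / K * ((∑ b, F b) * ∑ b, F' b)
          = ∑ b, (η / K * ∑ c, F c) * F' b := by
            rw [← Finset.mul_sum]
            ring
        _ ≤ ∑ a, F a * F' a :=
            Finset.sum_le_sum fun a _ => mul_le_mul_of_nonneg_right (hFK a) (hFn' a)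
    have hvs : ∑ a : Fin K, ∑ b : Fin K, v τ a b * (F a * F' b)
        = (∑ a, F a) * (∑ b, F' b) - (1 - τ) * ∑ a, F a * F' a := by
      have h1 : ∀ a b : Fin K, v τ a b * (F a * F' b)
          = F a * F' b - (if a = b then (1 - τ) * (F a * F' a) else 0) := by
        intro a b
        unfold v
        split_ifs with h
        · subst h
          ring
        · ring
      simp only [h1, Finset.sum_sub_distrib, Finset.sum_ite_eq, Finset.mem_univ, if_true]
      rw [Finset.sum_mul_sum, Finset.mul_sum]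
    rw [hsum, hFs, hFs']
    calc ∑ a : Fin K, ∑ b : Fin K, v τ a b * ∑ V : Fin H → Fin K, ∑ V' : Fin H → Fin K,
          f (Fin.cons a V) * f' (Fin.cons b V') * ∏ i, v τ (V i) (V' i)
        ≤ ∑ a : Fin K, ∑ b : Fin K,
            v τ a b * ((1 - (1 - τ) * (η / K)) ^ H * (F a * F' b)) := by
          refine Finset.sum_le_sum fun a _ => Finset.sum_le_sum fun b _ => ?_
          exact mul_le_mul_of_nonneg_left
            (ih (fun V => f (Fin.cons a V)) (fun V => f' (Fin.cons b V))
              (fun V => h0 _) (fun V => h0' _) (hf.cons a) (hf'.cons b)) (hv a b)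
      _ = (1 - (1 - τ) * (η / K)) ^ H * ∑ a : Fin K, ∑ b : Fin K, v τ a b * (F a * F' b) := by
          rw [Finset.mul_sum]
          refine Finset.sum_congr rfl fun a _ => ?_
          rw [Finset.mul_sum]
          refine Finset.sum_congr rfl fun b _ => ?_
          ring
      _ = (1 - (1 - τ) * (η / K)) ^ H *
            ((∑ a, F a) * (∑ b, F' b) - (1 - τ) * ∑ a, F a * F' a) := by rw [hvs]
      _ ≤ (1 - (1 - τ) * (η / K)) ^ H *
            ((1 - (1 - τ) * (η / K)) * ((∑ a, F a) * (∑ b, F' b))) := by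
          refine mul_le_mul_of_nonneg_left ?_ (pow_nonneg hθ H)
          have : 0 ≤ 1 - τ := by linarith
          nlinarith [mul_le_mul_of_nonneg_left hdiag this]
      _ = _ := by ring

end LOOP

theorem specLoop : SpecLoop := by
  intro K η hK hη hη1
  have hK2 : (2 : ℝ) ≤ K := by exact_mod_cast hK
  have hK0 : (0 : ℝ) < K := by linarith
  set ε : ℝ := ((K : ℝ) - 1) * η ^ 2 with hε
  have hε0 : 0 < ε := by
    rw [hε]
    have : 0 < (K : ℝ) - 1 := by linarith
    positivity
  set τ : ℝ := (1 + ε)⁻¹ with hτ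
  have hτ0 : 0 < τ := by
    rw [hτ]
    positivity
  have hτ1 : τ < 1 := by
    rw [hτ]
    exact inv_lt_one_of_one_lt₀ (by linarith)
  have hτ2 : 1 ≤ τ * (1 + ε) := by
    rw [hτ, inv_mul_cancel₀ (by positivity)]
  have hq : 0 < η / K := by positivity
  have hq1 : η / K < 1 := by
    rw [div_lt_one hK0]
    linarith
  refine ⟨1 - (1 - τ) * (η / K), by nlinarith, by nlinarith [mul_pos (sub_pos.mpr hτ1) hq], ?_⟩
  intro k H f h0 hf Q hQ
  have hfL : LOOP.Lip η f := hf
  have hA := fun p : (Fin H → Fin K) × (Fin H → Fin K) =>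
    LOOP.claimA hK hη hτ0.le hτ2 H f f h0 h0 hfL hfL p.1 p.2
  have hB := LOOP.claimB hK hη hη1 hτ0.le hτ1.le H f f h0 h0 hfL hfL
  -- a pair of words `V, V'` is related to at most one element of `Q`
  have hC : ∀ V V' : Fin H → Fin K,
      ∑ p ∈ Q, ∏ i, LOOP.u τ (p.1 i) (p.2 i) (V i) (V' i) ≤ ∏ i, LOOP.v τ (V i) (V' i) := by
    intro V V'
    have hvn : 0 ≤ ∏ i, LOOP.v τ (V i) (V' i) := by
      refine Finset.prod_nonneg fun i _ => ?_
      unfold LOOP.v
      split_ifs
      · exact hτ0.le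
      · exact zero_le_one
    have hterm : ∀ p : (Fin H → Fin K) × (Fin H → Fin K),
        ∏ i, LOOP.u τ (p.1 i) (p.2 i) (V i) (V' i) ≠ 0 →
        (∏ i, LOOP.u τ (p.1 i) (p.2 i) (V i) (V' i) = ∏ i, LOOP.v τ (V i) (V' i)) ∧
          dval k p.1 - dval k p.2 = dval k V - dval k V' := by
      intro p hp
      have hp' : ∀ i, LOOP.u τ (p.1 i) (p.2 i) (V i) (V' i) ≠ 0 := by
        intro i
        exact (Finset.prod_ne_zero_iff.mp hp) i (Finset.mem_univ i)
      constructor
      · refine Finset.prod_congr rfl fun i _ => ?_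
        have := hp' i
        unfold LOOP.u at this ⊢
        unfold LOOP.v
        by_cases h1 : p.1 i = p.2 i
        · rw [if_pos h1] at this ⊢
          by_cases h2 : V i = V' i
          · simp [h2]
          · simp [h2] at this
        · rw [if_neg h1] at this ⊢
          by_cases h2 : V i = p.1 i ∧ V' i = p.2 i
          · rw [if_pos h2, if_neg]
            rw [h2.1, h2.2]
            exact h1
          · simp [h2] at this
      · unfold dval
        rw [← Finset.sum_sub_distrib, ← Finset.sum_sub_distrib]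
        refine Finset.sum_congr rfl fun i _ => ?_
        have := hp' i
        unfold LOOP.u at this
        by_cases h1 : p.1 i = p.2 i
        · rw [if_pos h1] at this
          by_cases h2 : V i = V' i
          · rw [h1, h2]
            ring
          · simp [h2] at this
        · rw [if_neg h1] at this
          by_cases h2 : V i = p.1 i ∧ V' i = p.2 i
          · rw [h2.1, h2.2]
          · simp [h2] at this
    by_cases hex : ∃ p ∈ Q, ∏ i, LOOP.u τ (p.1 i) (p.2 i) (V i) (V' i) ≠ 0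
    · obtain ⟨p, hpQ, hp⟩ := hex
      rw [Finset.sum_eq_single_of_mem p hpQ]
      · exact (hterm p hp).1.le
      · intro q hqQ hqp
        by_contra hne
        apply hqp
        apply hQ (Finset.mem_coe.mpr hqQ) (Finset.mem_coe.mpr hpQ)
        simp only
        rw [(hterm p hp).2, (hterm q hne).2]
    · push Not at hex
      rw [Finset.sum_eq_zero hex]
      exact hvn
  calc ∑ p ∈ Q, f p.1 * f p.2
      ≤ ∑ p ∈ Q, ∑ V : Fin H → Fin K, ∑ V' : Fin H → Fin K,
        f V * f V' * ∏ i, LOOP.u τ (p.1 i) (p.2 i) (V i) (V' i) :=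
        Finset.sum_le_sum fun p _ => hA p
    _ = ∑ V : Fin H → Fin K, ∑ V' : Fin H → Fin K,
        f V * f V' * ∑ p ∈ Q, ∏ i, LOOP.u τ (p.1 i) (p.2 i) (V i) (V' i) := by
        rw [Finset.sum_comm]
        refine Finset.sum_congr rfl fun V _ => ?_
        rw [Finset.sum_comm]
        refine Finset.sum_congr rfl fun V' _ => ?_
        rw [Finset.mul_sum]
    _ ≤ ∑ V : Fin H → Fin K, ∑ V' : Fin H → Fin K,
        f V * f V' * ∏ i, LOOP.v τ (V i) (V' i) := by
        refine Finset.sum_le_sum fun V _ => Finset.sum_le_sum fun V' _ => ?_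
        exact mul_le_mul_of_nonneg_left (hC V V') (mul_nonneg (h0 _) (h0 _))
    _ ≤ _ := by
        rw [sq]
        exact hB

end MPa1853d
end

section
set_option autoImplicit false

/-!
# Module PRES: the presentation of BS(1,k) has the model Z[1/k] x Z
-/

namespace MPa1853d

namespace PRES

/-- Pairs `(x, m)` of a rational number and an integer. -/
@[ext]
structure Pr (u : ℚˣ) where
  /-- rational coordinate -/
  x : ℚ
  /-- height -/
  m : ℤ

variable {u : ℚˣ}

instance : Mul (Pr u) := ⟨fun a b => ⟨a.x + ((u ^ a.m : ℚˣ) : ℚ) * b.x, a.m + b.m⟩⟩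
instance : One (Pr u) := ⟨⟨0, 0⟩⟩
instance : Inv (Pr u) := ⟨fun a => ⟨-(((u ^ (-a.m) : ℚˣ) : ℚ) * a.x), -a.m⟩⟩

@[simp] theorem mul_x (a b : Pr u) : (a * b).x = a.x + ((u ^ a.m : ℚˣ) : ℚ) * b.x := rfl
@[simp] theorem mul_m (a b : Pr u) : (a * b).m = a.m + b.m := rfl
@[simp] theorem one_x : (1 : Pr u).x = 0 := rfl
@[simp] theorem one_m : (1 : Pr u).m = 0 := rfl
@[simp] theorem inv_x (a : Pr u) : (a⁻¹).x = -(((u ^ (-a.m) : ℚˣ) : ℚ) * a.x) := rfl
@[simp] theorem inv_m (a : Pr u) : (a⁻¹).m = -a.m := rfl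

instance : Group (Pr u) := Group.ofLeftAxioms
  (by
    intro a b c
    ext
    · simp only [mul_x, mul_m, zpow_add, Units.val_mul]
      ring
    · simp only [mul_m]
      ring)
  (by
    intro a
    ext
    · simp
    · simp)
  (by
    intro a
    ext
    · simp
    · simp)

/-- The pair `(n, 0)`. -/
def el (u : ℚˣ) (x : ℚ) : Pr u := ⟨x, 0⟩

theorem el_zpow (x : ℚ) (n : ℤ) : (el u x) ^ n = el u (n * x) := by
  have h : ∀ n : ℤ, (el u x) ^ n = el u (n * x) := by
    have hadd : ∀ y z : ℚ, el u y * el u z = el u (y + z) := by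
      intro y z
      ext
      · simp [el]
      · simp [el]
    have hinv : ∀ y : ℚ, (el u y)⁻¹ = el u (-y) := by
      intro y
      ext
      · simp [el]
      · simp [el]
    have hnat : ∀ n : ℕ, (el u x) ^ n = el u (n * x) := by
      intro n
      induction n with
      | zero =>
        ext
        · simp [el]
        · simp [el]
      | succ n ih =>
        rw [pow_succ, ih, hadd]
        congr 1
        push_cast
        ring
    intro n
    obtain ⟨m, rfl | rfl⟩ := n.eq_nat_or_neg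
    · rw [zpow_natCast, hnat]
      push_cast
      rfl
    · rw [zpow_neg, zpow_natCast, hnat, hinv]
      congr 1
      push_cast
      ring
  exact h n

/-- The pair `(0, n)`. -/
def tt (u : ℚˣ) (n : ℤ) : Pr u := ⟨0, n⟩

theorem tt_zpow (n : ℤ) : (tt u 1) ^ n = tt u n := by
  have hadd : ∀ y z : ℤ, tt u y * tt u z = tt u (y + z) := by
    intro y z
    ext
    · simp [tt]
    · simp [tt]
  have hinv : ∀ y : ℤ, (tt u y)⁻¹ = tt u (-y) := by
    intro y
    ext
    · simp [tt]
    · simp [tt]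
  have hnat : ∀ n : ℕ, (tt u 1) ^ n = tt u n := by
    intro n
    induction n with
    | zero =>
      ext
      · simp [tt]
      · simp [tt]
    | succ n ih =>
      rw [pow_succ, ih, hadd]
      push_cast
      rfl
  obtain ⟨m, rfl | rfl⟩ := n.eq_nat_or_neg
  · rw [zpow_natCast, hnat]
  · rw [zpow_neg, zpow_natCast, hnat, hinv]

theorem tt_el_tt (i j : ℤ) (x : ℚ) :
    tt u i * el u x * tt u j = ⟨((u ^ i : ℚˣ) : ℚ) * x, i + j⟩ := by
  ext
  · simp [tt, el]
  · simp [tt, el]

section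

variable (k : ℤ)

/-- images of the generators -/
def gen (u : ℚˣ) : Fin 2 → Pr u := ![el u 1, tt u 1]

theorem rels_one (hu : (u : ℚ) = k) :
    ∀ r ∈ bsRels k, FreeGroup.lift (gen u) r = 1 := by
  intro r hr
  rw [bsRels, Set.mem_singleton_iff] at hr
  subst hr
  simp only [map_mul, map_inv, map_zpow, FreeGroup.lift_apply_of]
  have h0 : gen u 0 = el u 1 := rfl
  have h1 : gen u 1 = tt u 1 := rfl
  rw [h0, h1, el_zpow, mul_inv_eq_one]
  have h2 : (tt u 1)⁻¹ = tt u (-1) := by
    rw [← zpow_neg_one, tt_zpow]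
  rw [h2, tt_el_tt]
  ext
  · simp [el, hu]
  · simp [el]

/-- The map to pairs. -/
noncomputable def phi (hu : (u : ℚ) = k) : PresentedGroup (bsRels k) →* Pr u :=
  PresentedGroup.toGroup (rels_one k hu)

/-- The generator `a`. -/
def ga : PresentedGroup (bsRels k) := PresentedGroup.of 0
/-- The generator `t`. -/
def gt : PresentedGroup (bsRels k) := PresentedGroup.of 1

theorem phi_ga (hu : (u : ℚ) = k) : phi k hu (ga k) = el u 1 := by
  rw [phi, ga, PresentedGroup.toGroup.of]
  rfl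

theorem phi_gt (hu : (u : ℚ) = k) : phi k hu (gt k) = tt u 1 := by
  rw [phi, gt, PresentedGroup.toGroup.of]
  rfl

theorem phi_word (hu : (u : ℚ) = k) (i n j : ℤ) :
    phi k hu (gt k ^ i * ga k ^ n * gt k ^ j) = ⟨((u ^ i : ℚˣ) : ℚ) * n, i + j⟩ := by
  rw [map_mul, map_mul, map_zpow, map_zpow, map_zpow, phi_ga, phi_gt, tt_zpow, tt_zpow, el_zpow,
    mul_one, tt_el_tt]

theorem rel : gt k * ga k * (gt k)⁻¹ = ga k ^ k := by
  have h := PresentedGroup.one_of_mem (rels := bsRels k)
    (x := FreeGroup.of 1 * FreeGroup.of 0 * (FreeGroup.of 1)⁻¹ * (FreeGroup.of 0 ^ k)⁻¹)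
    (by rw [bsRels, Set.mem_singleton_iff])
  simp only [map_mul, map_inv, map_zpow] at h
  exact mul_inv_eq_one.mp h

theorem t_a (n : ℤ) : gt k * ga k ^ n = ga k ^ (k * n) * gt k := by
  have h : gt k * ga k ^ n * (gt k)⁻¹ = ga k ^ (k * n) := by
    rw [← conj_zpow, rel, zpow_mul]
  rw [← h]
  group

theorem tj_a (j : ℕ) (n : ℤ) : gt k ^ j * ga k ^ n = ga k ^ (k ^ j * n) * gt k ^ j := by
  induction j with
  | zero => simp
  | succ j ih =>
    rw [pow_succ', mul_assoc, ih, ← mul_assoc, t_a, mul_assoc, ← pow_succ']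
    congr 2
    ring

/-- normal form -/
def NF (g : PresentedGroup (bsRels k)) : Prop :=
  ∃ (i j : ℕ) (n : ℤ), g = (gt k ^ i)⁻¹ * ga k ^ n * gt k ^ j

theorem nf_mul_a (g : PresentedGroup (bsRels k)) (hg : NF k g) (e : ℤ) : NF k (g * ga k ^ e) := by
  obtain ⟨i, j, n, rfl⟩ := hg
  refine ⟨i, j, n + k ^ j * e, ?_⟩
  rw [mul_assoc, tj_a, zpow_add]
  group

theorem nf_mul_t (g : PresentedGroup (bsRels k)) (hg : NF k g) : NF k (g * gt k) := by
  obtain ⟨i, j, n, rfl⟩ := hg
  refine ⟨i, j + 1, n, ?_⟩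
  rw [pow_succ, mul_assoc, mul_assoc]

theorem nf_mul_t_inv (g : PresentedGroup (bsRels k)) (hg : NF k g) : NF k (g * (gt k)⁻¹) := by
  obtain ⟨i, j, n, rfl⟩ := hg
  cases j with
  | succ j =>
    refine ⟨i, j, n, ?_⟩
    rw [pow_succ]
    group
  | zero =>
    refine ⟨i + 1, 0, k * n, ?_⟩
    have h : ga k ^ (k * n) = gt k * ga k ^ n * (gt k)⁻¹ := by
      rw [← conj_zpow, rel, zpow_mul]
    rw [h, pow_succ']
    group

theorem nf_all (g : PresentedGroup (bsRels k)) : NF k g := by
  have hg : g ∈ Subgroup.closure (Set.range (PresentedGroup.of : Fin 2 →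
      PresentedGroup (bsRels k))) := by
    rw [PresentedGroup.closure_range_of]
    trivial
  induction hg using Subgroup.closure_induction_right with
  | one => exact ⟨0, 0, 0, by simp⟩
  | mul_right x hx y hy ih =>
    obtain ⟨i, rfl⟩ := hy
    fin_cases i
    · have := nf_mul_a k x ih 1
      rwa [zpow_one] at this
    · exact nf_mul_t k x ih
  | mul_inv_cancel x hx y hy ih =>
    obtain ⟨i, rfl⟩ := hy
    fin_cases i
    · have := nf_mul_a k x ih (-1)
      rwa [zpow_neg_one] at this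
    · exact nf_mul_t_inv k x ih

theorem phi_inj (hu : (u : ℚ) = k) : Function.Injective (phi k hu) := by
  rw [injective_iff_map_eq_one]
  intro g hg
  obtain ⟨i, j, n, rfl⟩ := nf_all k g
  have h := phi_word k hu (-(i : ℤ)) n (j : ℤ)
  rw [zpow_neg, zpow_natCast, zpow_natCast, hg] at h
  have h1 := congrArg Pr.m h
  have h2 := congrArg Pr.x h
  simp only [one_m, one_x] at h1 h2
  have h3 : i = j := by omega
  have h4 : (n : ℚ) = 0 := by
    rcases mul_eq_zero.mp h2.symm with h5 | h5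
    · exact absurd h5 (Units.ne_zero _)
    · exact h5
  have h6 : n = 0 := by exact_mod_cast h4
  subst h3 h6
  simp

end

end PRES

open PRES in
theorem specPres : SpecPres := by
  intro k hk
  have hk0 : (k : ℚ) ≠ 0 := by
    have : k ≠ 0 := by
      rintro rfl
      simp at hk
    exact_mod_cast this
  set u : ℚˣ := Units.mk0 (k : ℚ) hk0 with hu'
  have hu : (u : ℚ) = k := rfl
  have hpow : ∀ m : ℤ, ((u ^ m : ℚˣ) : ℚ) = (k : ℚ) ^ m := by
    intro m
    rw [Units.val_zpow_eq_zpow_val, hu]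
  refine ⟨{ val := fun g => (phi k hu g).x, ht := fun g => (phi k hu g).m, val_mul := ?_,
            ht_mul := ?_, inj := ?_, int := ?_, surj := ?_ }⟩
  · intro g h
    rw [map_mul, mul_x, hpow]
  · intro g h
    rw [map_mul, mul_m]
  · intro g h h1 h2
    exact phi_inj k hu (Pr.ext h1 h2)
  · intro g
    obtain ⟨i, j, n, rfl⟩ := nf_all k g
    refine ⟨i, n, ?_⟩
    have h := phi_word k hu (-(i : ℤ)) n (j : ℤ)
    rw [zpow_neg, zpow_natCast, zpow_natCast] at h
    rw [h]
    simp only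
    rw [hpow, zpow_neg, zpow_natCast, mul_inv_cancel_left₀ (pow_ne_zero _ hk0)]
  · intro j m i
    refine ⟨gt k ^ (-(j : ℤ)) * ga k ^ m * gt k ^ (i + j), ?_, ?_⟩
    · rw [phi_word]
      simp only
      rw [hpow, zpow_neg, zpow_natCast, mul_inv_cancel_left₀ (pow_ne_zero _ hk0)]
    · rw [phi_word]
      simp only
      ring

end MPa1853d
end

section
set_option autoImplicit false

namespace MPa1853d
namespace SPREAD

/-- words which agree with `W₀` in the first `d` digits -/
def cyl {H K : ℕ} (W₀ : Fin H → Fin K) (d : ℕ) : Finset (Fin H → Fin K) :=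
  (Finset.univ : Finset (Fin H → Fin K)).filter
    (fun W => ∀ i : Fin H, (i : ℕ) < d → W i = W₀ i)

theorem mem_cyl {H K : ℕ} (W₀ W : Fin H → Fin K) (d : ℕ) :
    W ∈ cyl W₀ d ↔ ∀ i : Fin H, (i : ℕ) < d → W i = W₀ i := by
  simp [cyl]

theorem step {H K : ℕ} (hK : 2 ≤ K) (η : ℝ) (f : (Fin H → Fin K) → ℝ)
    (h0 : ∀ W, 0 ≤ f W)
    (hf : ∀ (W : Fin H → Fin K) (i : Fin H) (e : Fin K), η * f W ≤ f (Function.update W i e))
    (W₀ : Fin H → Fin K) (d : ℕ) (hd : d < H) :
    (1 + η) * ∑ W ∈ cyl W₀ (d + 1), f W ≤ ∑ W ∈ cyl W₀ d, f W := by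
  classical
  obtain ⟨e, he⟩ : ∃ e : Fin K, e ≠ W₀ ⟨d, hd⟩ := by
    have : Nontrivial (Fin K) := Fin.nontrivial_iff_two_le.mpr hK
    exact exists_ne _
  set i₀ : Fin H := ⟨d, hd⟩ with hi₀
  let φ : (Fin H → Fin K) → (Fin H → Fin K) := fun W => Function.update W i₀ e
  have hinj : Set.InjOn φ (cyl W₀ (d + 1) : Set (Fin H → Fin K)) := by
    intro W hW V hV h
    have hW' := (mem_cyl W₀ W (d + 1)).mp hW
    have hV' := (mem_cyl W₀ V (d + 1)).mp hV
    funext j
    by_cases hj : j = i₀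
    · subst hj
      rw [hW' i₀ (by simp [hi₀]), hV' i₀ (by simp [hi₀])]
    · have := congrFun h j
      simpa [φ, Function.update_of_ne hj] using this
  have hdisj : Disjoint (cyl W₀ (d + 1)) ((cyl W₀ (d + 1)).image φ) := by
    rw [Finset.disjoint_left]
    intro W hW hW2
    obtain ⟨V, _, rfl⟩ := Finset.mem_image.mp hW2
    have := (mem_cyl W₀ _ (d + 1)).mp hW i₀ (by simp [hi₀])
    simp [φ] at this
    exact he this
  have hsub : cyl W₀ (d + 1) ∪ (cyl W₀ (d + 1)).image φ ⊆ cyl W₀ d := by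
    intro W hW
    rw [mem_cyl]
    intro i hi
    rcases Finset.mem_union.mp hW with h | h
    · exact (mem_cyl W₀ W (d + 1)).mp h i (by omega)
    · obtain ⟨V, hV, rfl⟩ := Finset.mem_image.mp h
      have hne : i ≠ i₀ := by
        intro hh
        rw [hh, hi₀] at hi
        simp at hi
      simp only [φ, Function.update_of_ne hne]
      exact (mem_cyl W₀ V (d + 1)).mp hV i (by omega)
  calc (1 + η) * ∑ W ∈ cyl W₀ (d + 1), f W
      = ∑ W ∈ cyl W₀ (d + 1), f W + ∑ W ∈ cyl W₀ (d + 1), η * f W := by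
        rw [add_mul, one_mul, Finset.mul_sum]
    _ ≤ ∑ W ∈ cyl W₀ (d + 1), f W + ∑ W ∈ cyl W₀ (d + 1), f (φ W) := by
        gcongr with W hW
        exact hf W i₀ e
    _ = ∑ W ∈ cyl W₀ (d + 1) ∪ (cyl W₀ (d + 1)).image φ, f W := by
        rw [Finset.sum_union hdisj, Finset.sum_image hinj]
    _ ≤ ∑ W ∈ cyl W₀ d, f W :=
        Finset.sum_le_sum_of_subset_of_nonneg hsub (fun W _ _ => h0 W)

end SPREAD

theorem specSpread : SpecSpread := by
  intro K η hK hη _ H d f hd h0 hf W₀
  have key : ∀ n : ℕ, n ≤ H →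
      (1 + η) ^ n * f W₀ ≤ ∑ W ∈ SPREAD.cyl W₀ (H - n), f W := by
    intro n
    induction n with
    | zero =>
      intro _
      have : SPREAD.cyl W₀ (H - 0) = {W₀} := by
        ext W
        rw [SPREAD.mem_cyl, Finset.mem_singleton]
        constructor
        · intro h
          funext i
          exact h i (by have := i.isLt; omega)
        · rintro rfl i _
          rfl
      rw [this]
      simp
    | succ n ih =>
      intro hn
      have h1 := ih (by omega)
      have h2 := SPREAD.step hK η f h0 hf W₀ (H - (n + 1)) (by omega)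
      have h3 : H - (n + 1) + 1 = H - n := by omega
      rw [h3] at h2
      calc (1 + η) ^ (n + 1) * f W₀ = (1 + η) * ((1 + η) ^ n * f W₀) := by ring
        _ ≤ (1 + η) * ∑ W ∈ SPREAD.cyl W₀ (H - n), f W := by gcongr
        _ ≤ _ := h2
  have := key (H - d) (by omega)
  have h4 : H - (H - d) = d := by omega
  rw [h4] at this
  exact this

end MPa1853d
end

section
set_option autoImplicit false

/-!
# Module TR: a transcendence criterion for power series
-/

namespace MPa1853d

namespace TR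

open Filter Topology Polynomial

/-- `f` converges absolutely at `z` with the sum `v`. -/
def Ok (z : ℝ) (f : PowerSeries ℚ) (v : ℝ) : Prop :=
  Summable (fun n : ℕ => ‖((PowerSeries.coeff n f : ℚ) : ℝ) * z ^ n‖) ∧
    ∑' n : ℕ, ((PowerSeries.coeff n f : ℚ) : ℝ) * z ^ n = v

theorem Ok.add {z : ℝ} {f g : PowerSeries ℚ} {v w : ℝ} (hf : Ok z f v) (hg : Ok z g w) :
    Ok z (f + g) (v + w) := by
  have h : ∀ n : ℕ, ((PowerSeries.coeff n (f + g) : ℚ) : ℝ) * z ^ n =
      ((PowerSeries.coeff n f : ℚ) : ℝ) * z ^ n + ((PowerSeries.coeff n g : ℚ) : ℝ) * z ^ n := by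
    intro n
    rw [map_add]
    push_cast
    ring
  refine ⟨?_, ?_⟩
  · refine Summable.of_nonneg_of_le (fun n => norm_nonneg _) (fun n => ?_) (hf.1.add hg.1)
    rw [h]
    exact norm_add_le _ _
  · simp_rw [h]
    rw [(Summable.of_norm hf.1).tsum_add (Summable.of_norm hg.1), hf.2, hg.2]

theorem Ok.mul {z : ℝ} {f g : PowerSeries ℚ} {v w : ℝ} (hf : Ok z f v) (hg : Ok z g w) :
    Ok z (f * g) (v * w) := by
  have h : ∀ n : ℕ, ((PowerSeries.coeff n (f * g) : ℚ) : ℝ) * z ^ n =
      ∑ kl ∈ Finset.HasAntidiagonal.antidiagonal n, (((PowerSeries.coeff kl.1 f : ℚ) : ℝ) * z ^ kl.1) *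
        (((PowerSeries.coeff kl.2 g : ℚ) : ℝ) * z ^ kl.2) := by
    intro n
    rw [PowerSeries.coeff_mul]
    push_cast
    rw [Finset.sum_mul]
    refine Finset.sum_congr rfl fun kl hkl => ?_
    rw [← Finset.HasAntidiagonal.mem_antidiagonal.1 hkl, pow_add]
    ring
  refine ⟨?_, ?_⟩
  · refine (summable_norm_sum_mul_antidiagonal_of_summable_norm hf.1 hg.1).congr fun n => ?_
    rw [h n]
  · calc ∑' n : ℕ, ((PowerSeries.coeff n (f * g) : ℚ) : ℝ) * z ^ n
        = ∑' n : ℕ, ∑ kl ∈ Finset.HasAntidiagonal.antidiagonal n,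
          (((PowerSeries.coeff kl.1 f : ℚ) : ℝ) * z ^ kl.1) *
            (((PowerSeries.coeff kl.2 g : ℚ) : ℝ) * z ^ kl.2) := tsum_congr h
      _ = (∑' n : ℕ, ((PowerSeries.coeff n f : ℚ) : ℝ) * z ^ n) *
          (∑' n : ℕ, ((PowerSeries.coeff n g : ℚ) : ℝ) * z ^ n) :=
        (tsum_mul_tsum_eq_tsum_sum_antidiagonal_of_summable_norm hf.1 hg.1).symm
      _ = v * w := by rw [hf.2, hg.2]

theorem Ok.single {z : ℝ} (m : ℕ) (q : ℚ) :
    Ok z (PowerSeries.monomial m q) ((q : ℝ) * z ^ m) := by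
  have h : ∀ n : ℕ, n ≠ m → ((PowerSeries.coeff n (PowerSeries.monomial m q) : ℚ) : ℝ) * z ^ n = 0 := by
    intro n hn
    rw [PowerSeries.coeff_monomial, if_neg hn]
    simp
  refine ⟨?_, ?_⟩
  · refine summable_of_ne_finset_zero (s := {m}) fun n hn => ?_
    rw [Finset.mem_singleton] at hn
    rw [h n hn, norm_zero]
  · rw [tsum_eq_single m h, PowerSeries.coeff_monomial, if_pos rfl]

theorem Ok.poly {z : ℝ} (p : ℚ[X]) : Ok z (p : PowerSeries ℚ) (aeval z p) := by
  induction p using Polynomial.induction_on' with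
  | add p q hp hq =>
    rw [Polynomial.coe_add, map_add]
    exact hp.add hq
  | monomial n a =>
    rw [Polynomial.coe_monomial, aeval_monomial]
    exact Ok.single n a

theorem Ok.pow {z : ℝ} {f : PowerSeries ℚ} {v : ℝ} (hf : Ok z f v) (n : ℕ) :
    Ok z (f ^ n) (v ^ n) := by
  induction n with
  | zero =>
    rw [pow_zero, pow_zero]
    have := Ok.poly (z := z) (1 : ℚ[X])
    simpa using this
  | succ n ih =>
    rw [pow_succ, pow_succ]
    exact ih.mul hf

theorem Ok.eval₂ {z : ℝ} {f : PowerSeries ℚ} {v : ℝ} (hf : Ok z f v)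
    (P : ℚ[X][X]) :
    Ok z (P.eval₂ Polynomial.coeToPowerSeries.ringHom f)
      (P.eval₂ (aeval z : ℚ[X] →ₐ[ℚ] ℝ).toRingHom v) := by
  induction P using Polynomial.induction_on' with
  | add p q hp hq =>
    rw [eval₂_add, eval₂_add]
    exact hp.add hq
  | monomial n a =>
    rw [eval₂_monomial, eval₂_monomial]
    exact (Ok.poly a).mul (hf.pow n)

/-- The leading part at `ρ` vanishes. -/
theorem step {F : ℝ → ℝ} {ρ : ℝ} (hρ : 0 < ρ) (hF : Tendsto F (𝓝[<] ρ) atTop)
    (hslow : ∀ m : ℕ, Tendsto (fun z : ℝ => (ρ - z) * F z ^ m) (𝓝[<] ρ) (𝓝 0)) (n : ℕ)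
    (q : ℕ → ℝ[X])
    (hq : ∀ z : ℝ, 0 < z → z < ρ → ∑ j ∈ Finset.range n, (q j).eval z * F z ^ j = 0) :
    ∀ j ∈ Finset.range n, (q j).eval ρ = 0 := by
  by_contra hcon
  push Not at hcon
  obtain ⟨i, hi, hqi⟩ := hcon
  -- the largest index with nonzero value
  have hne : ((Finset.range n).filter fun j => (q j).eval ρ ≠ 0).Nonempty :=
    ⟨i, Finset.mem_filter.2 ⟨hi, hqi⟩⟩
  set J := ((Finset.range n).filter fun j => (q j).eval ρ ≠ 0).max' hne with hJ
  have hJm : J ∈ (Finset.range n).filter fun j => (q j).eval ρ ≠ 0 := Finset.max'_mem _ _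
  rw [Finset.mem_filter] at hJm
  have hJmax : ∀ j ∈ Finset.range n, J < j → (q j).eval ρ = 0 := by
    intro j hj hlt
    by_contra h
    have hm : j ∈ (Finset.range n).filter fun j => (q j).eval ρ ≠ 0 :=
      Finset.mem_filter.2 ⟨hj, h⟩
    have := Finset.le_max' _ j hm
    omega
  have hcont : ∀ p : ℝ[X], Tendsto (fun z => p.eval z) (𝓝[<] ρ) (𝓝 (p.eval ρ)) := fun p =>
    (p.continuous.tendsto ρ).mono_left nhdsWithin_le_nhds
  have hFne : ∀ᶠ z in 𝓝[<] ρ, F z ≠ 0 := by
    filter_upwards [hF.eventually (eventually_gt_atTop 0)] with z hz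
    exact hz.ne'
  have hterm : ∀ j ∈ Finset.range n, Tendsto (fun z => (q j).eval z * F z ^ j / F z ^ J)
      (𝓝[<] ρ) (𝓝 (if j = J then (q J).eval ρ else 0)) := by
    intro j hj
    rcases lt_trichotomy j J with h | h | h
    · rw [if_neg h.ne]
      have h1 : Tendsto (fun z => (q j).eval z * (F z)⁻¹ ^ (J - j)) (𝓝[<] ρ)
          (𝓝 ((q j).eval ρ * 0 ^ (J - j))) :=
        (hcont _).mul ((tendsto_inv_atTop_zero.comp hF).pow _)
      rw [zero_pow (by omega), mul_zero] at h1
      refine h1.congr' ?_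
      filter_upwards [hFne] with z hz
      have : F z ^ J = F z ^ j * F z ^ (J - j) := by rw [← pow_add]; congr 1; omega
      rw [this, inv_pow]
      field_simp
    · rw [if_pos h, h]
      refine (hcont (q J)).congr' ?_
      filter_upwards [hFne] with z hz
      field_simp
    · rw [if_neg h.ne']
      have hroot : (X - C ρ) * (q j /ₘ (X - C ρ)) = q j :=
        mul_divByMonic_eq_iff_isRoot.2 (hJmax j hj h)
      have h1 : Tendsto (fun z => -((q j /ₘ (X - C ρ)).eval z) * ((ρ - z) * F z ^ (j - J)))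
          (𝓝[<] ρ) (𝓝 (-((q j /ₘ (X - C ρ)).eval ρ) * 0)) :=
        (hcont _).neg.mul (hslow _)
      rw [mul_zero] at h1
      refine h1.congr' ?_
      filter_upwards [hFne] with z hz
      have h2 : F z ^ j = F z ^ J * F z ^ (j - J) := by rw [← pow_add]; congr 1; omega
      have h3 : (q j).eval z = (z - ρ) * (q j /ₘ (X - C ρ)).eval z := by
        conv_lhs => rw [← hroot]
        simp
      rw [h2, h3]
      field_simp
      ring
  have hsum := tendsto_finsetSum (Finset.range n) hterm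
  rw [Finset.sum_ite_eq' (Finset.range n) J, if_pos hJm.1] at hsum
  have hzero : Tendsto (fun z => ∑ j ∈ Finset.range n, (q j).eval z * F z ^ j / F z ^ J)
      (𝓝[<] ρ) (𝓝 0) := by
    refine tendsto_const_nhds.congr' ?_
    have h0 : ∀ᶠ z in 𝓝[<] ρ, 0 < z := by
      have : ∀ᶠ z in 𝓝 ρ, 0 < z := lt_mem_nhds hρ
      exact this.filter_mono nhdsWithin_le_nhds
    filter_upwards [h0, self_mem_nhdsWithin] with z hz1 hz2
    rw [← Finset.sum_div, hq z hz1 hz2, zero_div]
  exact hJm.2 (tendsto_nhds_unique hsum hzero)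

/-- The main argument. -/
theorem main {F : ℝ → ℝ} {ρ : ℝ} (hρ : 0 < ρ) (hF : Tendsto F (𝓝[<] ρ) atTop)
    (hslow : ∀ m : ℕ, Tendsto (fun z : ℝ => (ρ - z) * F z ^ m) (𝓝[<] ρ) (𝓝 0)) (n : ℕ) :
    ∀ (N : ℕ) (q : ℕ → ℝ[X]), ∑ j ∈ Finset.range n, (q j).natDegree = N →
      (∀ z : ℝ, 0 < z → z < ρ → ∑ j ∈ Finset.range n, (q j).eval z * F z ^ j = 0) →
      ∀ j ∈ Finset.range n, q j = 0 := by
  intro N
  induction N using Nat.strong_induction_on with
  | _ N ih =>
    intro q hN hq
    by_contra hcon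
    push Not at hcon
    obtain ⟨i, hi, hqi⟩ := hcon
    have hroot := step hρ hF hslow n q hq
    have hmul : ∀ j ∈ Finset.range n, (X - C ρ) * (q j /ₘ (X - C ρ)) = q j := fun j hj =>
      mul_divByMonic_eq_iff_isRoot.2 (hroot j hj)
    have hdeg : ∀ j, (q j /ₘ (X - C ρ)).natDegree = (q j).natDegree - 1 := by
      intro j
      rw [natDegree_divByMonic _ (monic_X_sub_C ρ), natDegree_X_sub_C]
    have hlt : ∑ j ∈ Finset.range n, (q j /ₘ (X - C ρ)).natDegree < N := by
      rw [← hN]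
      refine Finset.sum_lt_sum (fun j _ => by rw [hdeg]; omega) ⟨i, hi, ?_⟩
      rw [hdeg]
      have : 0 < (q i).natDegree := by
        by_contra h
        have h0 : (q i).natDegree = 0 := by omega
        rw [eq_C_of_natDegree_eq_zero h0] at hqi
        have h1 := hroot i hi
        rw [eq_C_of_natDegree_eq_zero h0, eval_C] at h1
        rw [h1, C_0] at hqi
        exact hqi rfl
      omega
    have h2 := ih _ hlt (fun j => q j /ₘ (X - C ρ)) rfl (by
      intro z hz1 hz2
      have h3 := hq z hz1 hz2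
      have h4 : ∑ j ∈ Finset.range n, (q j).eval z * F z ^ j =
          (z - ρ) * ∑ j ∈ Finset.range n, (q j /ₘ (X - C ρ)).eval z * F z ^ j := by
        rw [Finset.mul_sum]
        refine Finset.sum_congr rfl fun j hj => ?_
        conv_lhs => rw [← hmul j hj]
        simp
        ring
      rw [h4] at h3
      rcases mul_eq_zero.1 h3 with h5 | h5
      · exfalso; linarith
      · exact h5)
    have h3 := hmul i hi
    have h4 : q i /ₘ (X - C ρ) = 0 := h2 i hi
    rw [h4, mul_zero] at h3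
    exact hqi h3.symm

end TR

open TR in
/-- Module TR. -/
theorem specTR : SpecTR := by
  intro c ρ hρ hsum hF hslow
  rintro ⟨P, hP, hzero⟩
  set F : ℝ → ℝ := fun z => ∑' n : ℕ, (c n : ℝ) * z ^ n with hFdef
  -- the relation for real arguments
  have hrel : ∀ z : ℝ, 0 < z → z < ρ →
      P.eval₂ (Polynomial.aeval z : Polynomial ℚ →ₐ[ℚ] ℝ).toRingHom (F z) = 0 := by
    intro z hz1 hz2
    have hok : Ok z (PowerSeries.mk (fun n : ℕ => ((c n : ℕ) : ℚ))) (F z) := by
      refine ⟨?_, ?_⟩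
      · refine (hsum z hz1 hz2).congr fun n => ?_
        rw [PowerSeries.coeff_mk, Real.norm_of_nonneg (by positivity)]
        push_cast
        rfl
      · rw [hFdef]
        refine tsum_congr fun n => ?_
        rw [PowerSeries.coeff_mk]
        push_cast
        rfl
    have h1 := (hok.eval₂ P).2
    rw [hzero] at h1
    simpa using h1.symm
  -- coefficients over the reals
  have hmain := TR.main hρ hF hslow (P.natDegree + 1) _
    (fun j => (P.coeff j).map (algebraMap ℚ ℝ)) rfl (by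
      intro z hz1 hz2
      have h1 := hrel z hz1 hz2
      rw [Polynomial.eval₂_eq_sum_range] at h1
      rw [← h1]
      refine Finset.sum_congr rfl fun j _ => ?_
      congr 1
      rw [Polynomial.eval_map]
      rfl)
  apply hP
  ext1 j
  rw [Polynomial.coeff_zero]
  by_cases hj : j ∈ Finset.range (P.natDegree + 1)
  · have := hmain j hj
    exact (Polynomial.map_eq_zero_iff (algebraMap ℚ ℝ).injective).1 this
  · exact Polynomial.coeff_eq_zero_of_natDegree_lt (by
      rw [Finset.mem_range] at hj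
      omega)

end MPa1853d
end
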