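import Mathlib
import Pool.Agent.Lib.MP_a1853d_al.TR

set_option autoImplicit false

/-! # Second batch of statements -/

namespace MPa1853d

/-- `x` lies in `(k ^ H - 1) ℤ[1/k]`. -/
def InJ (k : ℤ) (H : ℕ) (x : ℚ) : Prop :=
  ∃ (i : ℕ) (m : ℤ), (k : ℚ) ^ i * x = ((k : ℚ) ^ H - 1) * m

/-- Module ZERO: conjugacy classes of height `0` (closed paths). `n i` is the minimal length of the
class with contribution `x i`; distinct indices are distinct classes. -/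
def SpecZero : Prop :=
  ∀ (k : ℤ) (L : Finset (ℤ × ℤ)) (K E A Ct Ca : ℕ), Sys k L K E A Ct Ca →
    ∀ z₀ : ℝ, 0 < z₀ → ∃ C : ℝ, 0 < C ∧ ∀ z : ℝ, z₀ ≤ z → z ≤ 1 →
      (∀ H : ℕ, YY k L K H z ≤ 1) →
      ∀ (ι : Type) (s : Finset ι) (n : ι → ℕ) (x : ι → ℚ),
        (∀ i ∈ s, PP k L 0 0 (x i) (n i)) →
        (∀ i ∈ s, ∀ (j : ℤ) (m : ℕ), PP k L 0 0 ((k : ℚ) ^ j * x i) m → n i ≤ m) →
        (∀ i ∈ s, ∀ i' ∈ s, ∀ j : ℤ, x i' = (k : ℚ) ^ j * x i → i = i') →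
        ∑ i ∈ s, z ^ (n i) ≤ C

/-- Module UP: conjugacy classes of height `H ≥ 1`. -/
def SpecUp : Prop :=
  ∀ (k : ℤ) (L : Finset (ℤ × ℤ)) (K E A Ct Ca : ℕ), Sys k L K E A Ct Ca →
    ∀ z₀ : ℝ, 0 < z₀ → ∃ C θ : ℝ, 0 < C ∧ 0 ≤ θ ∧ θ < 1 ∧ ∀ z : ℝ, z₀ ≤ z → z ≤ 1 →
      ∀ (H : ℕ), 1 ≤ H → ∀ (ι : Type) (s : Finset ι) (n : ι → ℕ) (x : ι → ℚ),
        (∀ i ∈ s, PP k L 0 H (x i) (n i)) →
        (∀ i ∈ s, ∀ (j : ℤ) (v : ℚ) (m : ℕ), PP k L 0 H v m → InJ k H (v - (k : ℚ) ^ j * x i) →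
          n i ≤ m) →
        (∀ i ∈ s, ∀ i' ∈ s, ∀ j : ℤ, InJ k H (x i' - (k : ℚ) ^ j * x i) → i = i') →
        ∑ i ∈ s, z ^ (n i) ≤ (C / H + C * H * θ ^ H) * YY k L K H z

/-- Module ANA: the analytic part. `c n` will be the number of conjugacy classes of length `n`. -/
def SpecAna : Prop :=
  ∀ (k : ℤ) (L : Finset (ℤ × ℤ)) (K E A Ct Ca : ℕ), Sys k L K E A Ct Ca →
    ∀ c : ℕ → ℕ,
      (∀ z : ℝ, 0 < z → z < 1 → ∀ N : ℕ, ∃ N' : ℕ,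
        ∑ H ∈ Finset.Icc 1 N, YY k L K H z / (5 * (H : ℝ)) ≤
          ∑ n ∈ Finset.range N', (c n : ℝ) * z ^ n) →
      (∀ z₀ : ℝ, 0 < z₀ → ∃ C θ : ℝ, 0 < C ∧ 0 ≤ θ ∧ θ < 1 ∧
        ∀ z : ℝ, z₀ ≤ z → z ≤ 1 → (∀ H : ℕ, YY k L K H z ≤ 1) → ∀ N : ℕ, ∃ N' : ℕ,
          ∑ n ∈ Finset.range N, (c n : ℝ) * z ^ n ≤
            C * (1 + ∑ H ∈ Finset.Icc 1 N', (1 / (H : ℝ) + (H : ℝ) * θ ^ H) * YY k L K H z)) →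
      ¬ ∃ P : Polynomial (Polynomial ℚ), P ≠ 0 ∧
        Polynomial.eval₂ Polynomial.coeToPowerSeries.ringHom
          (PowerSeries.mk (fun n : ℕ => ((c n : ℕ) : ℚ))) P = 0

end MPa1853d
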