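import Mathlib
import Pool.Agent.Lib.MP_a1853d_al.Spec2

set_option autoImplicit false

/-! # Third batch of statements: the group -/

namespace MPa1853d

/-- a word in `S ∪ S⁻¹` -/
def IsW {G : Type} [Group G] (S : Finset G) (l : List G) : Prop := ∀ x ∈ l, x ∈ S ∨ x⁻¹ ∈ S

/-- `g` is a product of at most `n` elements of `S ∪ S⁻¹`. -/
def Rch {G : Type} [Group G] (S : Finset G) (g : G) (n : ℕ) : Prop :=
  ∃ l : List G, l.length ≤ n ∧ IsW S l ∧ l.prod = g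

/-- the number of conjugacy classes whose minimal word length is `n` (as in the frozen statement). -/
noncomputable def cgc (G : Type) [Group G] (S : Finset G) (n : ℕ) : ℕ :=
  Set.ncard {c : ConjClasses G |
    (∃ g : G, ConjClasses.mk g = c ∧
      ∃ l : List G, l.length ≤ n ∧ (∀ x ∈ l, x ∈ S ∨ x⁻¹ ∈ S) ∧ l.prod = g) ∧
    (∀ g : G, ConjClasses.mk g = c →
      ∀ l : List G, (∀ x ∈ l, x ∈ S ∨ x⁻¹ ∈ S) → l.prod = g → n ≤ l.length)}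

/-- `len` is the minimal word length of conjugacy classes. -/
def IsLen {G : Type} [Group G] (S : Finset G) (len : ConjClasses G → ℕ) : Prop :=
  ∀ (κ : ConjClasses G) (n : ℕ), len κ ≤ n ↔ ∃ g : G, ConjClasses.mk g = κ ∧ Rch S g n

/-- Module COUNT (any group). -/
def SpecCount : Prop :=
  ∀ (G : Type) [Group G] (S : Finset G), Subgroup.closure (S : Set G) = ⊤ →
    ∃ len : ConjClasses G → ℕ, IsLen S len ∧
      ∀ N : ℕ, ∃ T : Finset (ConjClasses G), (∀ κ, κ ∈ T ↔ len κ < N) ∧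
        ∀ z : ℝ, ∑ n ∈ Finset.range N, (cgc G S n : ℝ) * z ^ n = ∑ κ ∈ T, z ^ (len κ)

/-- Module SYS: the set of letters of a generating set; the letter of `s` is
`(k ^ c₀ * val s, ht s)`. -/
def SpecSys : Prop :=
  ∀ (k : ℤ) (G : Type) [Group G] (M : BSModel k G) (S : Finset G), 2 ≤ |k| →
    Subgroup.closure (S : Set G) = ⊤ →
    ∃ (c₀ : ℕ) (L : Finset (ℤ × ℤ)) (K E A Ct Ca : ℕ), Sys k L K E A Ct Ca ∧
      ∀ (g : G) (n : ℕ), Rch S g n ↔ PP k L 0 (M.ht g) ((k : ℚ) ^ c₀ * M.val g) n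

/-- Module B1: many classes. -/
def SpecB1 : Prop :=
  ∀ (k : ℤ) (G : Type) [Group G] (M : BSModel k G) (S : Finset G) (len : ConjClasses G → ℕ)
    (c₀ : ℕ) (L : Finset (ℤ × ℤ)) (K E A Ct Ca : ℕ), IsLen S len → Sys k L K E A Ct Ca →
    (∀ (g : G) (n : ℕ), Rch S g n ↔ PP k L 0 (M.ht g) ((k : ℚ) ^ c₀ * M.val g) n) →
    ∀ z : ℝ, 0 < z → z < 1 → ∀ N : ℕ, ∃ s : Finset (ConjClasses G),
      ∑ H ∈ Finset.Icc 1 N, YY k L K H z / (5 * (H : ℝ)) ≤ ∑ κ ∈ s, z ^ (len κ)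

/-- Module B2: few classes. -/
def SpecB2 : Prop :=
  ∀ (k : ℤ) (G : Type) [Group G] (M : BSModel k G) (S : Finset G) (len : ConjClasses G → ℕ)
    (c₀ : ℕ) (L : Finset (ℤ × ℤ)) (K E A Ct Ca : ℕ), IsLen S len → Sys k L K E A Ct Ca →
    (∀ (g : G) (n : ℕ), Rch S g n ↔ PP k L 0 (M.ht g) ((k : ℚ) ^ c₀ * M.val g) n) →
    ∀ z₀ : ℝ, 0 < z₀ → ∃ C θ : ℝ, 0 < C ∧ 0 ≤ θ ∧ θ < 1 ∧
      ∀ z : ℝ, z₀ ≤ z → z ≤ 1 → (∀ H : ℕ, YY k L K H z ≤ 1) →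
        ∀ s : Finset (ConjClasses G), ∃ N' : ℕ,
          ∑ κ ∈ s, z ^ (len κ) ≤
            C * (1 + ∑ H ∈ Finset.Icc 1 N', (1 / (H : ℝ) + (H : ℝ) * θ ^ H) * YY k L K H z)

end MPa1853d
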