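import Mathlib
import Pool.Agent.Lib.MP_a1853d_al.Spec3

set_option autoImplicit false

/-! # Module COUNT: counting conjugacy classes by minimal length -/

namespace MPa1853d

namespace COUNT

open Classical in
theorem specCount_aux (G : Type) [Group G] (S : Finset G)
    (hS : Subgroup.closure (S : Set G) = ⊤) :
    ∃ len : ConjClasses G → ℕ, IsLen S len ∧
      ∀ N : ℕ, ∃ T : Finset (ConjClasses G), (∀ κ, κ ∈ T ↔ len κ < N) ∧
        ∀ z : ℝ, ∑ n ∈ Finset.range N, (cgc G S n : ℝ) * z ^ n = ∑ κ ∈ T, z ^ (len κ) := by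
  have hgen : ∀ g : G, ∃ n : ℕ, Rch S g n := by
    intro g
    have hg : g ∈ Subgroup.closure (S : Set G) := by rw [hS]; trivial
    have hg' : g ∈ (Subgroup.closure (S : Set G)).toSubmonoid := hg
    rw [Subgroup.closure_toSubmonoid] at hg'
    obtain ⟨l, h1, h2⟩ := Submonoid.exists_list_of_mem_closure hg'
    exact ⟨l.length, l, le_rfl, fun x hx => by simpa using h1 x hx, h2⟩
  let A : ConjClasses G → Set ℕ := fun κ => {n | ∃ g : G, ConjClasses.mk g = κ ∧ Rch S g n}
  have hA : ∀ κ, (A κ).Nonempty := by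
    intro κ
    obtain ⟨g, hg⟩ := ConjClasses.exists_rep κ
    obtain ⟨n, hn⟩ := hgen g
    exact ⟨n, g, hg, hn⟩
  let len : ConjClasses G → ℕ := fun κ => sInf (A κ)
  have hlen : IsLen S len := by
    intro κ n
    constructor
    · intro h
      obtain ⟨g, hg, l, hl, hl2⟩ := Nat.sInf_mem (hA κ)
      exact ⟨g, hg, l, hl.trans h, hl2⟩
    · rintro ⟨g, hg, hr⟩
      exact Nat.sInf_le ⟨g, hg, hr⟩
  refine ⟨len, hlen, ?_⟩
  intro N
  let Sg : Finset G := S ∪ S.image (fun x => x⁻¹)
  have hSg : ∀ x : G, x ∈ Sg ↔ (x ∈ S ∨ x⁻¹ ∈ S) := by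
    intro x
    simp only [Sg, Finset.mem_union, Finset.mem_image]
    constructor
    · rintro (h | ⟨y, hy, rfl⟩)
      · exact Or.inl h
      · right; rwa [inv_inv]
    · rintro (h | h)
      · exact Or.inl h
      · right; exact ⟨x⁻¹, h, inv_inv x⟩
  have hfin : {κ : ConjClasses G | len κ < N}.Finite := by
    have h1 : ({l : List {x // x ∈ Sg} | l.length ≤ N}).Finite := List.finite_length_le _ N
    refine (h1.image (fun l => ConjClasses.mk (l.map Subtype.val).prod)).subset ?_
    intro κ hκ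
    obtain ⟨g, hg, l, hl, hl2, hl3⟩ := (hlen κ (len κ)).1 le_rfl
    have hmem : ∀ x ∈ l, x ∈ Sg := fun x hx => (hSg x).2 (hl2 x hx)
    refine ⟨l.attach.map (fun x => (⟨x.1, hmem x.1 x.2⟩ : {x // x ∈ Sg})), ?_, ?_⟩
    · simp only [Set.mem_setOf_eq, List.length_map, List.length_attach]
      exact hl.trans (le_of_lt hκ)
    · simp only [List.map_map]
      have : l.attach.map (Subtype.val ∘ fun x => (⟨x.1, hmem x.1 x.2⟩ : {x // x ∈ Sg})) = l := by
        conv_rhs => rw [← List.attach_map_subtype_val l]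
        rfl
      rw [this, hl3, hg]
  refine ⟨hfin.toFinset, fun κ => by simp, ?_⟩
  intro z
  have hcgc : ∀ n, cgc G S n = Set.ncard {κ : ConjClasses G | len κ = n} := by
    intro n
    unfold cgc
    congr 1
    ext κ
    simp only [Set.mem_setOf_eq]
    constructor
    · rintro ⟨⟨g, hg, l, h1, h2, h3⟩, h4⟩
      refine le_antisymm ((hlen κ n).2 ⟨g, hg, l, h1, h2, h3⟩) ?_
      obtain ⟨g', hg', l', hl', hl2', hl3'⟩ := (hlen κ (len κ)).1 le_rfl
      exact (h4 g' hg' l' hl2' hl3').trans hl'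
    · intro h
      refine ⟨?_, ?_⟩
      · obtain ⟨g', hg', l', hl', hl2', hl3'⟩ := (hlen κ n).1 h.le
        exact ⟨g', hg', l', hl', hl2', hl3'⟩
      · intro g hg l hl hl3
        rw [← h]
        exact (hlen κ l.length).2 ⟨g, hg, l, le_rfl, hl, hl3⟩
  have hmaps : ∀ κ ∈ hfin.toFinset, len κ ∈ Finset.range N := by
    intro κ hκ
    simpa using hκ
  rw [← Finset.sum_fiberwise_of_maps_to hmaps]
  apply Finset.sum_congr rfl
  intro n hn
  rw [hcgc n]
  have h1 : ∑ κ ∈ hfin.toFinset.filter (fun κ => len κ = n), z ^ (len κ) =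
      ∑ κ ∈ hfin.toFinset.filter (fun κ => len κ = n), z ^ n := by
    apply Finset.sum_congr rfl
    intro κ hκ
    rw [(Finset.mem_filter.1 hκ).2]
  rw [h1, Finset.sum_const, nsmul_eq_mul]
  congr 2
  rw [← Set.ncard_coe_finset]
  congr 1
  ext κ
  simp only [Set.mem_setOf_eq, Finset.coe_filter, Set.Finite.mem_toFinset]
  constructor
  · intro h
    refine ⟨?_, h⟩
    rw [h]
    exact Finset.mem_range.1 hn
  · rintro ⟨_, h⟩
    exact h

end COUNT

theorem specCount : SpecCount := by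
  intro G _ S hS
  exact COUNT.specCount_aux G S hS

end MPa1853d
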