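import Pool.Agent.Lib.MP_a1853d_al.Spec

set_option autoImplicit false

/-!
# Module LOG: at most logarithmic growth
-/

namespace MPa1853d

open Filter Topology

namespace LOG

theorem one_sub_pow_le (E : ℕ) (y : ℝ) (hy0 : 0 ≤ y) (hy1 : y ≤ 1) :
    1 - y ^ E ≤ E * (1 - y) := by
  induction E with
  | zero => simp
  | succ E ih =>
    have h1 : y ^ E ≤ 1 := pow_le_one₀ hy0 hy1
    rw [pow_succ]
    push_cast
    nlinarith [mul_nonneg (sub_nonneg.mpr h1) (sub_nonneg.mpr hy1)]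

end LOG

theorem specLog : SpecLog := by
  intro ρ C z₀ E F hρ hE hz₀ hF0 hF m
  have hE' : (0 : ℝ) < E := by exact_mod_cast hE
  set c : ℝ := 1 + Real.log E with hc
  -- the variable `v = e^c / (1 - z / ρ)`
  set v : ℝ → ℝ := fun z => Real.exp c / (1 - z / ρ) with hv
  have hev : ∀ᶠ z in 𝓝[<] ρ, z₀ < z ∧ 0 < z ∧ z < ρ := by
    have h1 : ∀ᶠ z in 𝓝[<] ρ, z < ρ := eventually_mem_nhdsWithin
    have h2 : ∀ᶠ z in 𝓝[<] ρ, z₀ < z := nhdsWithin_le_nhds (lt_mem_nhds hz₀)
    have h3 : ∀ᶠ z in 𝓝[<] ρ, 0 < z := nhdsWithin_le_nhds (lt_mem_nhds hρ)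
    filter_upwards [h1, h2, h3] with z a b d
    exact ⟨b, d, a⟩
  have hpos : ∀ z, z < ρ → 0 < 1 - z / ρ := by
    intro z hz
    have : z / ρ < 1 := (div_lt_one hρ).mpr hz
    linarith
  have hvt : Tendsto v (𝓝[<] ρ) atTop := by
    have h1 : Tendsto (fun z : ℝ => 1 - z / ρ) (𝓝[<] ρ) (𝓝[>] 0) := by
      rw [tendsto_nhdsWithin_iff]
      constructor
      · have h2 : Tendsto (fun z : ℝ => 1 - z / ρ) (𝓝 ρ) (𝓝 (1 - ρ / ρ)) :=
          (continuous_const.sub (continuous_id.div_const ρ)).tendsto ρ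
        rw [div_self hρ.ne', sub_self] at h2
        exact h2.mono_left nhdsWithin_le_nhds
      · filter_upwards [hev] with z hz
        exact hpos z hz.2.2
    have h3 : Tendsto (fun z : ℝ => (1 - z / ρ)⁻¹) (𝓝[<] ρ) atTop :=
      tendsto_inv_nhdsGT_zero.comp h1
    have h4 := h3.const_mul_atTop (Real.exp_pos c)
    refine h4.congr fun z => ?_
    rw [hv]
    simp only [div_eq_mul_inv]
  -- the bound for `F`
  have hFb : ∀ z, z₀ < z → 0 < z → z < ρ → F z ≤ |C| * Real.log (v z) := by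
    intro z h1 h2 h3
    set y : ℝ := (z / ρ) ^ ((E : ℝ)⁻¹) with hy
    have hzρ0 : 0 < z / ρ := div_pos h2 hρ
    have hzρ1 : z / ρ < 1 := (div_lt_one hρ).mpr h3
    have hy0 : 0 < y := Real.rpow_pos_of_pos hzρ0 _
    have hy1 : y < 1 := Real.rpow_lt_one hzρ0.le hzρ1 (inv_pos.mpr hE')
    have hyE : y ^ E = z / ρ := by
      rw [hy]
      exact Real.rpow_inv_natCast_pow hzρ0.le hE.ne'
    have h4 := hF z y h1 h2 h3 hy0 hy1 hyE
    have h5 : HasSum (fun n : ℕ => y ^ (n + 1) / ((n : ℝ) + 1)) (-Real.log (1 - y)) :=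
      Real.hasSum_pow_div_log_of_abs_lt_one (by rw [abs_of_pos hy0]; exact hy1)
    rw [h5.tsum_eq] at h4
    have h6 : (1 - z / ρ) / E ≤ 1 - y := by
      rw [div_le_iff₀ hE', ← hyE, mul_comm]
      exact LOG.one_sub_pow_le E y hy0.le hy1.le
    have h7 : 0 < (1 - z / ρ) / E := div_pos (hpos z h3) hE'
    have h8 : Real.log ((1 - z / ρ) / E) ≤ Real.log (1 - y) := Real.log_le_log h7 h6
    have h9 : Real.log ((1 - z / ρ) / E) = Real.log (1 - z / ρ) - Real.log E :=
      Real.log_div (hpos z h3).ne' hE'.ne'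
    have h10 : Real.log (v z) = c - Real.log (1 - z / ρ) := by
      rw [hv]
      simp only
      rw [Real.log_div (Real.exp_pos c).ne' (hpos z h3).ne', Real.log_exp]
    have h11 : Real.log (1 - y) ≤ 0 := Real.log_nonpos (by linarith) (by linarith)
    calc F z ≤ C * (1 + -Real.log (1 - y)) := h4
      _ ≤ |C| * (1 + -Real.log (1 - y)) :=
        mul_le_mul_of_nonneg_right (le_abs_self C) (by linarith)
      _ ≤ |C| * Real.log (v z) := by
        apply mul_le_mul_of_nonneg_left _ (abs_nonneg C)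
        rw [h10, hc]
        linarith
  -- the limit
  have hlim : Tendsto (fun w : ℝ => (Real.log w) ^ m / w) atTop (𝓝 0) := by
    have h := (Real.isLittleO_pow_log_id_atTop (n := m)).tendsto_div_nhds_zero
    simpa using h
  have hlim2 : Tendsto (fun z : ℝ => (ρ * Real.exp c * |C| ^ m) * ((Real.log (v z)) ^ m / v z))
      (𝓝[<] ρ) (𝓝 0) := by
    have h := (hlim.comp hvt).const_mul (ρ * Real.exp c * |C| ^ m)
    rw [mul_zero] at h
    exact h
  refine squeeze_zero' ?_ ?_ hlim2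
  · filter_upwards [hev] with z hz
    exact mul_nonneg (by linarith [hz.2.2]) (pow_nonneg (hF0 z hz.1 hz.2.2) m)
  · filter_upwards [hev] with z hz
    have h1 := hF0 z hz.1 hz.2.2
    have h2 := hFb z hz.1 hz.2.1 hz.2.2
    have h3 : (F z) ^ m ≤ (|C| * Real.log (v z)) ^ m := pow_le_pow_left₀ h1 h2 m
    have h4 : ρ - z = ρ * Real.exp c / v z := by
      have h5 := hpos z hz.2.2
      rw [hv]
      simp only
      have h6 : Real.exp c ≠ 0 := (Real.exp_pos c).ne'
      field_simp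
    have h7 : 0 < ρ - z := by linarith [hz.2.2]
    calc (ρ - z) * (F z) ^ m ≤ (ρ - z) * (|C| * Real.log (v z)) ^ m :=
        mul_le_mul_of_nonneg_left h3 h7.le
      _ = (ρ * Real.exp c * |C| ^ m) * ((Real.log (v z)) ^ m / v z) := by
        rw [h4, mul_pow]
        ring

end MPa1853d
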