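import Mathlib

set_option autoImplicit false

/-!
# Conjugacy growth of the soluble Baumslag-Solitar groups: statements of the independent modules

Everything is over Mathlib only.  Each module is one file with `theorem specXxx : SpecXxx`.
-/

namespace MPa1853d

open Filter Topology

/-- The integer with digits `W` (least significant digit first) in base `k`; digits in `Fin K`. -/
def dval (k : ℤ) {K H : ℕ} (W : Fin H → Fin K) : ℤ :=
  ∑ i : Fin H, ((W i : ℕ) : ℤ) * k ^ (i : ℕ)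

/-- Concrete description of a group as the group of pairs `(x, m)`, `x ∈ ℤ[1/k]`, `m ∈ ℤ`, with
product `(x, m) (y, n) = (x + k ^ m * y, m + n)`. -/
structure BSModel (k : ℤ) (G : Type) [Group G] where
  /-- first coordinate -/
  val : G → ℚ
  /-- second coordinate (height) -/
  ht : G → ℤ
  val_mul : ∀ g h : G, val (g * h) = val g + (k : ℚ) ^ (ht g) * val h
  ht_mul : ∀ g h : G, ht (g * h) = ht g + ht h
  inj : ∀ g h : G, val g = val h → ht g = ht h → g = h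
  int : ∀ g : G, ∃ (j : ℕ) (m : ℤ), (k : ℚ) ^ j * val g = m
  surj : ∀ (j : ℕ) (m i : ℤ), ∃ g : G, (k : ℚ) ^ j * val g = m ∧ ht g = i

/-- The presentation `⟨a, t | t a t⁻¹ = a ^ k⟩`, `a = of 0`, `t = of 1`. -/
def bsRels (k : ℤ) : Set (FreeGroup (Fin 2)) :=
  {FreeGroup.of 1 * FreeGroup.of 0 * (FreeGroup.of 1)⁻¹ * (FreeGroup.of 0 ^ k)⁻¹}

/-- Module PRES. -/
def SpecPres : Prop :=
  ∀ k : ℤ, 2 ≤ |k| → Nonempty (BSModel k (PresentedGroup (bsRels k)))

/-- Module TR: a power series with nonnegative coefficients which tends to infinity at its radius of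
convergence, but more slowly than every power, satisfies no polynomial equation. -/
def SpecTR : Prop :=
  ∀ (c : ℕ → ℕ) (ρ : ℝ), 0 < ρ →
    (∀ z : ℝ, 0 < z → z < ρ → Summable (fun n : ℕ => (c n : ℝ) * z ^ n)) →
    Tendsto (fun z : ℝ => ∑' n : ℕ, (c n : ℝ) * z ^ n) (𝓝[<] ρ) atTop →
    (∀ m : ℕ, Tendsto (fun z : ℝ => (ρ - z) * (∑' n : ℕ, (c n : ℝ) * z ^ n) ^ m)
      (𝓝[<] ρ) (𝓝 0)) →
    ¬ ∃ P : Polynomial (Polynomial ℚ), P ≠ 0 ∧
      Polynomial.eval₂ Polynomial.coeToPowerSeries.ringHom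
        (PowerSeries.mk (fun n : ℕ => ((c n : ℕ) : ℚ))) P = 0

/-- Module AN: an almost submultiplicative sequence (in the averaged sense) for which
`∑ y n / n` converges decays exponentially. -/
def SpecAN : Prop :=
  ∀ (y : ℕ → ℝ) (C : ℝ), y 0 = 1 → (∀ n, 0 ≤ y n) → (∀ n, y n ≤ 1) →
    (∀ H : ℕ, 1 ≤ H → (H : ℝ) * y H ≤ C * ∑ j ∈ Finset.range (H + 1), y j * y (H - j)) →
    Summable (fun n : ℕ => y n / (n : ℝ)) →
    ∃ A lam : ℝ, 1 < lam ∧ ∀ n : ℕ, y n * lam ^ n ≤ A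

/-- Module LOOP: a family of pairs of words with pairwise distinct differences has exponentially
small weight, for every weight `f` which changes by a bounded factor when one digit is changed. -/
def SpecLoop : Prop :=
  ∀ (K : ℕ) (η : ℝ), 2 ≤ K → 0 < η → η ≤ 1 → ∃ θ : ℝ, 0 < θ ∧ θ < 1 ∧
    ∀ (k : ℤ) (H : ℕ) (f : (Fin H → Fin K) → ℝ), (∀ W, 0 ≤ f W) →
      (∀ (W : Fin H → Fin K) (i : Fin H) (d : Fin K), η * f W ≤ f (Function.update W i d)) →
      ∀ Q : Finset ((Fin H → Fin K) × (Fin H → Fin K)),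
        Set.InjOn (fun p : (Fin H → Fin K) × (Fin H → Fin K) => dval k p.1 - dval k p.2)
          (Q : Set ((Fin H → Fin K) × (Fin H → Fin K))) →
        ∑ p ∈ Q, f p.1 * f p.2 ≤ θ ^ H * (∑ W : Fin H → Fin K, f W) ^ 2

/-- Module SPREAD: words which agree with `W₀` in the first `d` digits. -/
def SpecSpread : Prop :=
  ∀ (K : ℕ) (η : ℝ), 2 ≤ K → 0 < η → η ≤ 1 →
    ∀ (H d : ℕ) (f : (Fin H → Fin K) → ℝ), d ≤ H → (∀ W, 0 ≤ f W) →
      (∀ (W : Fin H → Fin K) (i : Fin H) (e : Fin K), η * f W ≤ f (Function.update W i e)) →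
      ∀ W₀ : Fin H → Fin K,
        (1 + η) ^ (H - d) * f W₀ ≤
          ∑ W ∈ (Finset.univ : Finset (Fin H → Fin K)).filter
            (fun W => ∀ i : Fin H, (i : ℕ) < d → W i = W₀ i), f W

/-- Module LOG: at most logarithmic growth implies the last hypothesis of `SpecTR`. -/
def SpecLog : Prop :=
  ∀ (ρ C z₀ : ℝ) (E : ℕ) (F : ℝ → ℝ), 0 < ρ → 0 < E → z₀ < ρ →
    (∀ z : ℝ, z₀ < z → z < ρ → 0 ≤ F z) →
    (∀ z y : ℝ, z₀ < z → 0 < z → z < ρ → 0 < y → y < 1 → y ^ E = z / ρ →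
      F z ≤ C * (1 + ∑' n : ℕ, y ^ (n + 1) / ((n : ℝ) + 1))) →
    ∀ m : ℕ, Tendsto (fun z : ℝ => (ρ - z) * (F z) ^ m) (𝓝[<] ρ) (𝓝 0)

end MPa1853d
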