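import Pool.Agent.Lib.MP_a1853d_al.Spec2
import Mathlib
import Pool.Agent.Lib.MP_a1853d_al.Spec3

section
set_option autoImplicit false

/-!
# Module ANA: the analytic part
-/

namespace MPa1853d

open Filter Topology

namespace ANA

variable {k : ℤ} {L : Finset (ℤ × ℤ)} {K E A Ct Ca : ℕ}

/-- The set of `z` at which all the partition functions are at most `1`. -/
def T (k : ℤ) (L : Finset (ℤ × ℤ)) (K : ℕ) : Set ℝ :=
  {z : ℝ | (0 ≤ z ∧ z ≤ 1) ∧ ∀ H : ℕ, YY k L K H z ≤ 1}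

theorem T_closed : IsClosed (T k L K) := by
  have h : T k L K = Set.Icc 0 1 ∩ ⋂ H : ℕ, {z : ℝ | YY k L K H z ≤ 1} := by
    ext z
    simp [T]
  rw [h]
  exact isClosed_Icc.inter (isClosed_iInter fun H => isClosed_le (YY_continuous H) continuous_const)

theorem T_bdd : BddAbove (T k L K) := ⟨1, fun _ hz => hz.1.2⟩

theorem mem_T_small (S : Sys k L K E A Ct Ca) : ((1 / (K : ℝ)) ^ E) ∈ T k L K := by
  have hK2 := S.hK2
  have hK : (0 : ℝ) < K := by
    have : 0 < K := by omega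
    exact_mod_cast this
  have hK1 : 1 / (K : ℝ) ≤ 1 := by
    rw [div_le_one hK]
    have : 1 ≤ K := by omega
    exact_mod_cast this
  have hpos : (0 : ℝ) ≤ 1 / (K : ℝ) := by positivity
  refine ⟨⟨by positivity, pow_le_one₀ hpos hK1⟩, ?_⟩
  intro H
  unfold YY
  calc ∑ W : Fin H → Fin K, ((1 / (K : ℝ)) ^ E) ^ yl k L W
      ≤ ∑ _W : Fin H → Fin K, (1 / (K : ℝ)) ^ H := by
        apply Finset.sum_le_sum
        intro W _
        rw [← pow_mul]
        exact pow_le_pow_of_le_one hpos hK1 (le_yl S W)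
    _ = 1 := by
        rw [Finset.sum_const, Finset.card_univ, Fintype.card_fun, Fintype.card_fin, Fintype.card_fin,
          nsmul_eq_mul]
        push_cast
        rw [← mul_pow, mul_one_div_cancel hK.ne', one_pow]

/-- the radius -/
noncomputable def rho (k : ℤ) (L : Finset (ℤ × ℤ)) (K : ℕ) : ℝ := sSup (T k L K)

theorem rho_mem (S : Sys k L K E A Ct Ca) : rho k L K ∈ T k L K :=
  T_closed.csSup_mem ⟨_, mem_T_small S⟩ T_bdd

theorem rho_pos (S : Sys k L K E A Ct Ca) : 0 < rho k L K := by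
  have hK2 := S.hK2
  have hK : (0 : ℝ) < K := by
    have : 0 < K := by omega
    exact_mod_cast this
  have h : (1 / (K : ℝ)) ^ E ≤ rho k L K := le_csSup T_bdd (mem_T_small S)
  exact lt_of_lt_of_le (by positivity) h

theorem rho_lt_one (S : Sys k L K E A Ct Ca) : rho k L K < 1 := by
  have h := rho_mem S
  refine lt_of_le_of_ne h.1.2 ?_
  intro h1
  have h2 := h.2 1
  rw [h1] at h2
  unfold YY at h2
  simp only [one_pow, Finset.sum_const, Finset.card_univ, Fintype.card_fun, Fintype.card_fin,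
    pow_one, nsmul_eq_mul, mul_one] at h2
  have h3 : K ≤ 1 := by exact_mod_cast h2
  have := S.hK2
  omega

theorem YY_le_one (S : Sys k L K E A Ct Ca) {z : ℝ} (hz : 0 ≤ z) (hz1 : z ≤ rho k L K) (H : ℕ) :
    YY k L K H z ≤ 1 :=
  (YY_mono H hz hz1).trans ((rho_mem S).2 H)

theorem exists_gt (S : Sys k L K E A Ct Ca) {z : ℝ} (hz : rho k L K < z) (hz1 : z ≤ 1) :
    ∃ H : ℕ, 1 < YY k L K H z := by
  by_contra h
  push Not at h
  have : z ∈ T k L K := ⟨⟨(rho_pos S).le.trans hz.le, hz1⟩, h⟩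
  exact absurd (le_csSup T_bdd this) (not_le.mpr hz)

theorem YY_pow_le (S : Sys k L K E A Ct Ca) (H : ℕ) {z : ℝ} (hz : 0 ≤ z) (hz1 : z ≤ 1) (j : ℕ) :
    (YY k L K H z) ^ j ≤ YY k L K (j * H) z := by
  induction j with
  | zero => simp [YY_zero S]
  | succ j ih =>
    rw [pow_succ, Nat.succ_mul]
    exact (mul_le_mul_of_nonneg_right ih (YY_nonneg H hz)).trans (YY_mul_le S _ _ hz hz1)

theorem diverges (hAN : SpecAN) (S : Sys k L K E A Ct Ca) :
    ¬ Summable (fun H : ℕ => YY k L K H (rho k L K) / (H : ℝ)) := by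
  intro hs
  set ρ := rho k L K with hρ
  have hρ0 : 0 < ρ := rho_pos S
  have hρ1 : ρ < 1 := rho_lt_one S
  obtain ⟨C, hC, hC2⟩ := avg_submul S hρ0
  obtain ⟨A', lam, hlam, hA'⟩ := hAN (fun H => YY k L K H ρ) C (YY_zero S ρ)
    (fun n => YY_nonneg n hρ0.le) (fun n => (rho_mem S).2 n)
    (fun H hH => hC2 ρ le_rfl hρ1.le H hH) hs
  -- choose `z` slightly larger than `ρ`
  have hcont : Continuous (fun z : ℝ => (z / ρ) ^ (Ct + Ca * K)) := by fun_prop
  have h1 : ∀ᶠ z in 𝓝 ρ, (z / ρ) ^ (Ct + Ca * K) < lam := by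
    have h2 : (ρ / ρ) ^ (Ct + Ca * K) < lam := by
      rw [div_self hρ0.ne', one_pow]
      exact hlam
    exact hcont.continuousAt.eventually_lt continuousAt_const h2
  have h3 : ∀ᶠ z in 𝓝[>] ρ, (z / ρ) ^ (Ct + Ca * K) < lam ∧ z < 1 ∧ ρ < z := by
    have h4 : ∀ᶠ z in 𝓝[>] ρ, ρ < z := eventually_mem_nhdsWithin
    have h5 : ∀ᶠ z in 𝓝[>] ρ, z < 1 := nhdsWithin_le_nhds (gt_mem_nhds hρ1)
    filter_upwards [nhdsWithin_le_nhds h1, h4, h5] with z a b d
    exact ⟨a, d, b⟩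
  obtain ⟨z, hz1, hz2, hz3⟩ := h3.exists
  obtain ⟨H, hH⟩ := exists_gt S hz3 hz2.le
  have hz0 : 0 < z := hρ0.trans hz3
  have hbound : ∀ j : ℕ, (YY k L K H z) ^ j ≤ A' := by
    intro j
    calc (YY k L K H z) ^ j ≤ YY k L K (j * H) z := YY_pow_le S H hz0.le hz2.le j
      _ ≤ (z / ρ) ^ ((Ct + Ca * K) * (j * H)) * YY k L K (j * H) ρ :=
        YY_le_of_le S _ hρ0 hz3.le
      _ ≤ lam ^ (j * H) * YY k L K (j * H) ρ := by
        apply mul_le_mul_of_nonneg_right _ (YY_nonneg _ hρ0.le)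
        rw [pow_mul]
        exact pow_le_pow_left₀ (by positivity) hz1.le _
      _ = YY k L K (j * H) ρ * lam ^ (j * H) := mul_comm _ _
      _ ≤ A' := hA' (j * H)
  obtain ⟨j, hj⟩ := pow_unbounded_of_one_lt A' hH
  exact absurd (hbound j) (not_le.mpr hj)

/-- the logarithmic series -/
noncomputable def Lg (y : ℝ) : ℝ := ∑' n : ℕ, y ^ (n + 1) / ((n : ℝ) + 1)

theorem Lg_hasSum {y : ℝ} (hy0 : 0 < y) (hy1 : y < 1) :
    HasSum (fun n : ℕ => y ^ (n + 1) / ((n : ℝ) + 1)) (Lg y) :=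
  (Real.hasSum_pow_div_log_of_abs_lt_one (by rw [abs_of_pos hy0]; exact hy1)).summable.hasSum

theorem Lg_nonneg {y : ℝ} (hy0 : 0 < y) : 0 ≤ Lg y :=
  tsum_nonneg fun n => by positivity

theorem icc_sum_eq (f : ℕ → ℝ) (N : ℕ) :
    ∑ H ∈ Finset.Icc 1 N, f H = ∑ n ∈ Finset.range N, f (n + 1) := by
  rw [Finset.range_eq_Ico, Finset.sum_Ico_add' f 0 N 1]
  rfl

theorem Lg_partial {y : ℝ} (hy0 : 0 < y) (hy1 : y < 1) (N : ℕ) :
    ∑ H ∈ Finset.Icc 1 N, y ^ H / (H : ℝ) ≤ Lg y := by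
  rw [icc_sum_eq]
  have h := sum_le_hasSum (Finset.range N) (fun n _ => by positivity) (Lg_hasSum hy0 hy1)
  refine le_trans (le_of_eq ?_) h
  apply Finset.sum_congr rfl
  intro n _
  push_cast
  rfl

theorem YY_le_y (S : Sys k L K E A Ct Ca) {w y : ℝ} (hw : rho k L K / 2 ≤ w)
    (hw1 : w < rho k L K) (hy0 : 0 < y) (hy1 : y < 1) (hy : y ^ E = w / rho k L K) (H : ℕ) :
    YY k L K H w ≤ 2 * y ^ H := by
  set ρ := rho k L K with hρ
  have hρ0 : 0 < ρ := rho_pos S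
  have hw0 : 0 < w := by linarith
  have hE := S.hE1
  have h1 : E * (H / E) ≤ H := Nat.mul_div_le H E
  have h2 : H ≤ E * (H / E) + E := by
    have := Nat.lt_mul_div_succ H (show 0 < E by omega)
    rw [Nat.mul_add, mul_one] at this
    omega
  have h3 := YY_le_pow_mul S H (H / E) hw0 hw1.le h1
  have h4 : YY k L K H ρ ≤ 1 := (rho_mem S).2 H
  have h5 : YY k L K H w ≤ (w / ρ) ^ (H / E) :=
    h3.trans (mul_le_of_le_one_right (by positivity) h4)
  rw [← hy, ← pow_mul] at h5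
  have h6 : y ^ (E * (H / E)) * y ^ E ≤ y ^ H := by
    rw [← pow_add]
    exact pow_le_pow_of_le_one hy0.le hy1.le h2
  have h7 : 1 / 2 ≤ y ^ E := by
    rw [hy, le_div_iff₀ hρ0]
    linarith
  have h8 : 0 ≤ y ^ (E * (H / E)) := by positivity
  nlinarith

theorem main_bound (S : Sys k L K E A Ct Ca) (c : ℕ → ℕ)
    (h2 : ∀ z₀ : ℝ, 0 < z₀ → ∃ C θ : ℝ, 0 < C ∧ 0 ≤ θ ∧ θ < 1 ∧
        ∀ z : ℝ, z₀ ≤ z → z ≤ 1 → (∀ H : ℕ, YY k L K H z ≤ 1) → ∀ N : ℕ, ∃ N' : ℕ,
          ∑ n ∈ Finset.range N, (c n : ℝ) * z ^ n ≤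
            C * (1 + ∑ H ∈ Finset.Icc 1 N', (1 / (H : ℝ) + (H : ℝ) * θ ^ H) * YY k L K H z)) :
    ∃ D : ℝ, 0 < D ∧ ∀ w y : ℝ, rho k L K / 2 ≤ w → w < rho k L K → 0 < y → y < 1 →
      y ^ E = w / rho k L K → ∀ N : ℕ,
        ∑ n ∈ Finset.range N, (c n : ℝ) * w ^ n ≤ D * (1 + Lg y) := by
  have hρ0 : 0 < rho k L K := rho_pos S
  have hρ1 : rho k L K < 1 := rho_lt_one S
  obtain ⟨C, θ, hC, hθ0, hθ1, hb⟩ := h2 (rho k L K / 2) (by linarith)
  have hsum : Summable (fun H : ℕ => (H : ℝ) * θ ^ H) := by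
    have h := summable_pow_mul_geometric_of_norm_lt_one (R := ℝ) 1 (r := θ)
      (by rw [Real.norm_eq_abs, abs_of_nonneg hθ0]; exact hθ1)
    simpa using h
  set B : ℝ := ∑' H : ℕ, (H : ℝ) * θ ^ H with hB
  have hB0 : 0 ≤ B := tsum_nonneg fun H => by positivity
  refine ⟨C * (2 + B), by positivity, ?_⟩
  intro w y hw hw1 hy0 hy1 hy N
  have hw0 : 0 < w := by linarith
  obtain ⟨N', hN'⟩ := hb w hw (hw1.le.trans hρ1.le)
    (fun H => YY_le_one S hw0.le hw1.le H) N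
  refine hN'.trans ?_
  have hL := Lg_nonneg hy0
  have h3 : ∑ H ∈ Finset.Icc 1 N', (1 / (H : ℝ) + (H : ℝ) * θ ^ H) * YY k L K H w ≤
      2 * Lg y + B := by
    calc ∑ H ∈ Finset.Icc 1 N', (1 / (H : ℝ) + (H : ℝ) * θ ^ H) * YY k L K H w
        ≤ ∑ H ∈ Finset.Icc 1 N', (2 * (y ^ H / (H : ℝ)) + (H : ℝ) * θ ^ H) := by
          apply Finset.sum_le_sum
          intro H _
          rw [add_mul]
          apply add_le_add
          · calc 1 / (H : ℝ) * YY k L K H w ≤ 1 / (H : ℝ) * (2 * y ^ H) :=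
                mul_le_mul_of_nonneg_left (YY_le_y S hw hw1 hy0 hy1 hy H) (by positivity)
              _ = 2 * (y ^ H / (H : ℝ)) := by ring
          · exact mul_le_of_le_one_right (by positivity) (YY_le_one S hw0.le hw1.le H)
      _ = 2 * ∑ H ∈ Finset.Icc 1 N', y ^ H / (H : ℝ) +
          ∑ H ∈ Finset.Icc 1 N', (H : ℝ) * θ ^ H := by
          rw [Finset.sum_add_distrib, Finset.mul_sum]
      _ ≤ 2 * Lg y + B := by
          apply add_le_add
          · exact mul_le_mul_of_nonneg_left (Lg_partial hy0 hy1 N') (by norm_num)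
          · exact hsum.sum_le_tsum _ (fun H _ => by positivity)
  have h4 : (1 + ∑ H ∈ Finset.Icc 1 N', (1 / (H : ℝ) + (H : ℝ) * θ ^ H) * YY k L K H w) ≤
      (2 + B) * (1 + Lg y) := by
    nlinarith [mul_nonneg hB0 hL]
  calc C * (1 + ∑ H ∈ Finset.Icc 1 N', (1 / (H : ℝ) + (H : ℝ) * θ ^ H) * YY k L K H w)
      ≤ C * ((2 + B) * (1 + Lg y)) := mul_le_mul_of_nonneg_left h4 hC.le
    _ = C * (2 + B) * (1 + Lg y) := by ring

end ANA

open ANA in
theorem specAna (hAN : SpecAN) (hTR : SpecTR) (hLog : SpecLog) : SpecAna := by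
  intro k L K E A Ct Ca S c h1 h2
  set ρ := rho k L K with hρ
  have hρ0 : 0 < ρ := rho_pos S
  have hρ1 : ρ < 1 := rho_lt_one S
  have hE1 : 1 ≤ E := S.hE1
  have hE' : (0 : ℝ) < E := by
    have : 0 < E := hE1
    exact_mod_cast this
  obtain ⟨D, hD, hbound⟩ := main_bound S c h2
  -- the root
  have hroot : ∀ w : ℝ, 0 < w → w < ρ → ∃ y : ℝ, 0 < y ∧ y < 1 ∧ y ^ E = w / ρ := by
    intro w hw0 hw1
    have hz0 : 0 < w / ρ := div_pos hw0 hρ0
    have hz1 : w / ρ < 1 := (div_lt_one hρ0).mpr hw1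
    refine ⟨(w / ρ) ^ ((E : ℝ)⁻¹), Real.rpow_pos_of_pos hz0 _,
      Real.rpow_lt_one hz0.le hz1 (inv_pos.mpr hE'), ?_⟩
    exact Real.rpow_inv_natCast_pow hz0.le (by omega)
  -- summability
  have hsum0 : ∀ w : ℝ, ρ / 2 ≤ w → w < ρ → Summable (fun n : ℕ => (c n : ℝ) * w ^ n) := by
    intro w hw hw1
    have hw0 : 0 < w := by linarith
    obtain ⟨y, hy0, hy1, hy⟩ := hroot w hw0 hw1
    exact summable_of_sum_range_le (fun n => by positivity)
      (fun N => hbound w y hw hw1 hy0 hy1 hy N)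
  have hsum : ∀ z : ℝ, 0 < z → z < ρ → Summable (fun n : ℕ => (c n : ℝ) * z ^ n) := by
    intro z hz0 hz1
    have h3 := hsum0 (max z (ρ / 2)) (le_max_right _ _) (max_lt hz1 (by linarith))
    refine Summable.of_nonneg_of_le (fun n => by positivity) (fun n => ?_) h3
    exact mul_le_mul_of_nonneg_left (pow_le_pow_left₀ hz0.le (le_max_left _ _) n) (by positivity)
  set F : ℝ → ℝ := fun z => ∑' n : ℕ, (c n : ℝ) * z ^ n with hF
  have hev : ∀ᶠ z in 𝓝[<] ρ, 0 < z ∧ z < ρ := by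
    have h3 : ∀ᶠ z in 𝓝[<] ρ, z < ρ := eventually_mem_nhdsWithin
    have h4 : ∀ᶠ z in 𝓝[<] ρ, 0 < z := nhdsWithin_le_nhds (lt_mem_nhds hρ0)
    filter_upwards [h3, h4] with z a b
    exact ⟨b, a⟩
  -- limit at the radius
  have hinf : Tendsto F (𝓝[<] ρ) atTop := by
    rw [tendsto_atTop]
    intro b
    have hdiv := diverges hAN S
    have hnn : ∀ H : ℕ, 0 ≤ YY k L K H ρ / (H : ℝ) := fun H =>
      div_nonneg (YY_nonneg H hρ0.le) (Nat.cast_nonneg H)
    rw [not_summable_iff_tendsto_nat_atTop_of_nonneg hnn] at hdiv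
    obtain ⟨N, hN⟩ := (hdiv.eventually_gt_atTop (5 * b)).exists
    have h5 : ∑ H ∈ Finset.range N, YY k L K H ρ / (H : ℝ) ≤
        ∑ H ∈ Finset.Icc 1 N, YY k L K H ρ / (H : ℝ) := by
      rw [icc_sum_eq]
      cases N with
      | zero => simp
      | succ N =>
        rw [Finset.sum_range_succ', Finset.sum_range_succ]
        have h6 := hnn (N + 1)
        simp only [Nat.cast_zero, div_zero, add_zero]
        linarith
    have hg : Continuous (fun z : ℝ => ∑ H ∈ Finset.Icc 1 N, YY k L K H z / (5 * (H : ℝ))) := by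
      apply continuous_finsetSum
      intro H _
      exact (YY_continuous H).div_const _
    have h7 : b < ∑ H ∈ Finset.Icc 1 N, YY k L K H ρ / (5 * (H : ℝ)) := by
      have h8 : ∑ H ∈ Finset.Icc 1 N, YY k L K H ρ / (5 * (H : ℝ)) =
          (1 / 5) * ∑ H ∈ Finset.Icc 1 N, YY k L K H ρ / (H : ℝ) := by
        rw [Finset.mul_sum]
        apply Finset.sum_congr rfl
        intro H _
        rw [div_mul_eq_div_div_swap]
        ring
      rw [h8]
      linarith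
    have h9 : ∀ᶠ z in 𝓝 ρ, b < ∑ H ∈ Finset.Icc 1 N, YY k L K H z / (5 * (H : ℝ)) :=
      continuousAt_const.eventually_lt hg.continuousAt h7
    filter_upwards [hev, nhdsWithin_le_nhds h9] with z hz hz2
    obtain ⟨N', hN'⟩ := h1 z hz.1 (hz.2.trans hρ1) N
    calc b ≤ ∑ H ∈ Finset.Icc 1 N, YY k L K H z / (5 * (H : ℝ)) := hz2.le
      _ ≤ ∑ n ∈ Finset.range N', (c n : ℝ) * z ^ n := hN'
      _ ≤ F z := (hsum z hz.1 hz.2).sum_le_tsum _ (fun n _ => by
          have := hz.1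
          positivity)
  -- logarithmic growth
  have hlog : ∀ m : ℕ, Tendsto (fun z : ℝ => (ρ - z) * (F z) ^ m) (𝓝[<] ρ) (𝓝 0) := by
    apply hLog ρ D (ρ / 2) E F hρ0 (by omega) (by linarith)
    · intro z hz hz1
      have hz0 : 0 < z := by linarith
      exact tsum_nonneg fun n => by positivity
    · intro z y hz hz0 hz1 hy0 hy1 hy
      exact (hsum z hz0 hz1).tsum_le_of_sum_range_le
        (fun N => hbound z y hz.le hz1 hy0 hy1 hy N)
  exact hTR c ρ hρ0 hsum hinf hlog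

end MPa1853d
end

section
set_option autoImplicit false

/-! # Assembly -/

namespace MPa1853d

/-- The main theorem for every group with a model, from the modules. -/
theorem assemble (hCount : SpecCount) (hSys : SpecSys) (hB1 : SpecB1) (hB2 : SpecB2)
    (hAna : SpecAna) (k : ℤ) (hk : 2 ≤ |k|) (G : Type) [Group G] (M : BSModel k G)
    (S : Finset G) (hS : Subgroup.closure (S : Set G) = ⊤) :
    ¬ ∃ P : Polynomial (Polynomial ℚ), P ≠ 0 ∧
      Polynomial.eval₂ Polynomial.coeToPowerSeries.ringHom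
        (PowerSeries.mk (fun n : ℕ => ((cgc G S n : ℕ) : ℚ))) P = 0 := by
  obtain ⟨len, hlen, hT⟩ := hCount G S hS
  obtain ⟨c₀, L, K, E, A, Ct, Ca, Sy, hR⟩ := hSys k G M S hk hS
  apply hAna k L K E A Ct Ca Sy (cgc G S)
  · intro z hz hz1 N
    obtain ⟨s, hs⟩ := hB1 k G M S len c₀ L K E A Ct Ca hlen Sy hR z hz hz1 N
    obtain ⟨T, hT1, hT2⟩ := hT (s.sup len + 1)
    refine ⟨s.sup len + 1, hs.trans ?_⟩
    rw [hT2 z]
    apply Finset.sum_le_sum_of_subset_of_nonneg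
    · intro κ hκ
      rw [hT1]
      exact Nat.lt_succ_of_le (Finset.le_sup (f := len) hκ)
    · intro κ _ _
      positivity
  · intro z₀ hz₀
    obtain ⟨C, θ, hC, hθ0, hθ1, hb⟩ := hB2 k G M S len c₀ L K E A Ct Ca hlen Sy hR z₀ hz₀
    refine ⟨C, θ, hC, hθ0, hθ1, ?_⟩
    intro z hz hz1 hY N
    obtain ⟨T, _, hT2⟩ := hT N
    obtain ⟨N', hN'⟩ := hb z hz hz1 hY T
    exact ⟨N', by rw [hT2 z]; exact hN'⟩

end MPa1853d
end

section
set_option autoImplicit false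

/-! # Module COUNT: counting conjugacy classes by minimal length -/

namespace MPa1853d

namespace COUNT

open Classical in
theorem specCount_aux (G : Type) [Group G] (S : Finset G)
    (hS : Subgroup.closure (S : Set G) = ⊤) :
    ∃ len : ConjClasses G → ℕ, IsLen S len ∧
      ∀ N : ℕ, ∃ T : Finset (ConjClasses G), (∀ κ, κ ∈ T ↔ len κ < N) ∧
        ∀ z : ℝ, ∑ n ∈ Finset.range N, (cgc G S n : ℝ) * z ^ n = ∑ κ ∈ T, z ^ (len κ) := by
  have hgen : ∀ g : G, ∃ n : ℕ, Rch S g n := by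
    intro g
    have hg : g ∈ Subgroup.closure (S : Set G) := by rw [hS]; trivial
    have hg' : g ∈ (Subgroup.closure (S : Set G)).toSubmonoid := hg
    rw [Subgroup.closure_toSubmonoid] at hg'
    obtain ⟨l, h1, h2⟩ := Submonoid.exists_list_of_mem_closure hg'
    exact ⟨l.length, l, le_rfl, fun x hx => by simpa using h1 x hx, h2⟩
  let A : ConjClasses G → Set ℕ := fun κ => {n | ∃ g : G, ConjClasses.mk g = κ ∧ Rch S g n}
  have hA : ∀ κ, (A κ).Nonempty := by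
    intro κ
    obtain ⟨g, hg⟩ := ConjClasses.exists_rep κ
    obtain ⟨n, hn⟩ := hgen g
    exact ⟨n, g, hg, hn⟩
  let len : ConjClasses G → ℕ := fun κ => sInf (A κ)
  have hlen : IsLen S len := by
    intro κ n
    constructor
    · intro h
      obtain ⟨g, hg, l, hl, hl2⟩ := Nat.sInf_mem (hA κ)
      exact ⟨g, hg, l, hl.trans h, hl2⟩
    · rintro ⟨g, hg, hr⟩
      exact Nat.sInf_le ⟨g, hg, hr⟩
  refine ⟨len, hlen, ?_⟩
  intro N
  let Sg : Finset G := S ∪ S.image (fun x => x⁻¹)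
  have hSg : ∀ x : G, x ∈ Sg ↔ (x ∈ S ∨ x⁻¹ ∈ S) := by
    intro x
    simp only [Sg, Finset.mem_union, Finset.mem_image]
    constructor
    · rintro (h | ⟨y, hy, rfl⟩)
      · exact Or.inl h
      · right; rwa [inv_inv]
    · rintro (h | h)
      · exact Or.inl h
      · right; exact ⟨x⁻¹, h, inv_inv x⟩
  have hfin : {κ : ConjClasses G | len κ < N}.Finite := by
    have h1 : ({l : List {x // x ∈ Sg} | l.length ≤ N}).Finite := List.finite_length_le _ N
    refine (h1.image (fun l => ConjClasses.mk (l.map Subtype.val).prod)).subset ?_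
    intro κ hκ
    obtain ⟨g, hg, l, hl, hl2, hl3⟩ := (hlen κ (len κ)).1 le_rfl
    have hmem : ∀ x ∈ l, x ∈ Sg := fun x hx => (hSg x).2 (hl2 x hx)
    refine ⟨l.attach.map (fun x => (⟨x.1, hmem x.1 x.2⟩ : {x // x ∈ Sg})), ?_, ?_⟩
    · simp only [Set.mem_setOf_eq, List.length_map, List.length_attach]
      exact hl.trans (le_of_lt hκ)
    · simp only [List.map_map]
      have : l.attach.map (Subtype.val ∘ fun x => (⟨x.1, hmem x.1 x.2⟩ : {x // x ∈ Sg})) = l := by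
        conv_rhs => rw [← List.attach_map_subtype_val l]
        rfl
      rw [this, hl3, hg]
  refine ⟨hfin.toFinset, fun κ => by simp, ?_⟩
  intro z
  have hcgc : ∀ n, cgc G S n = Set.ncard {κ : ConjClasses G | len κ = n} := by
    intro n
    unfold cgc
    congr 1
    ext κ
    simp only [Set.mem_setOf_eq]
    constructor
    · rintro ⟨⟨g, hg, l, h1, h2, h3⟩, h4⟩
      refine le_antisymm ((hlen κ n).2 ⟨g, hg, l, h1, h2, h3⟩) ?_
      obtain ⟨g', hg', l', hl', hl2', hl3'⟩ := (hlen κ (len κ)).1 le_rfl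
      exact (h4 g' hg' l' hl2' hl3').trans hl'
    · intro h
      refine ⟨?_, ?_⟩
      · obtain ⟨g', hg', l', hl', hl2', hl3'⟩ := (hlen κ n).1 h.le
        exact ⟨g', hg', l', hl', hl2', hl3'⟩
      · intro g hg l hl hl3
        rw [← h]
        exact (hlen κ l.length).2 ⟨g, hg, l, le_rfl, hl, hl3⟩
  have hmaps : ∀ κ ∈ hfin.toFinset, len κ ∈ Finset.range N := by
    intro κ hκ
    simpa using hκ
  rw [← Finset.sum_fiberwise_of_maps_to hmaps]
  apply Finset.sum_congr rfl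
  intro n hn
  rw [hcgc n]
  have h1 : ∑ κ ∈ hfin.toFinset.filter (fun κ => len κ = n), z ^ (len κ) =
      ∑ κ ∈ hfin.toFinset.filter (fun κ => len κ = n), z ^ n := by
    apply Finset.sum_congr rfl
    intro κ hκ
    rw [(Finset.mem_filter.1 hκ).2]
  rw [h1, Finset.sum_const, nsmul_eq_mul]
  congr 2
  rw [← Set.ncard_coe_finset]
  congr 1
  ext κ
  simp only [Set.mem_setOf_eq, Finset.coe_filter, Set.Finite.mem_toFinset]
  constructor
  · intro h
    refine ⟨?_, h⟩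
    rw [h]
    exact Finset.mem_range.1 hn
  · rintro ⟨_, h⟩
    exact h

end COUNT

theorem specCount : SpecCount := by
  intro G _ S hS
  exact COUNT.specCount_aux G S hS

end MPa1853d
end

section
set_option autoImplicit false

/-!
# Conjugacy growth of the higher Heisenberg groups: common definitions and first facts

`G` is a group with infinite cyclic centre `⟨z⟩` and `G / ⟨z⟩ = ℤ^m` (through `φ`);
`x⁻¹ y⁻¹ x y = z ^ ω x y`.
-/

namespace MPa1853d.HH

open MPa1853d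

/-- class-2 group with infinite cyclic centre and quotient `ℤ^m`. -/
structure HData (G : Type) [Group G] (m : ℕ) where
  z : G
  φ : G → (Fin m → ℤ)
  ω : G → G → ℤ
  zc : ∀ x, z * x = x * z
  zinf : ∀ k : ℤ, z ^ k = 1 → k = 0
  φ_mul : ∀ x y, φ (x * y) = φ x + φ y
  φ_surj : ∀ v, ∃ x, φ x = v
  φ_ker : ∀ x, φ x = 0 ↔ ∃ k : ℤ, x = z ^ k
  comm : ∀ x y, x⁻¹ * y⁻¹ * x * y = z ^ (ω x y)
  nondeg : ∀ x, (∀ y, ω x y = 0) → φ x = 0

/-- minimal word length of the elements of a set. -/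
noncomputable def ln {G : Type} [Group G] (S : Finset G) (X : Set G) : ℕ :=
  sInf {n | ∃ l : List G, l.length = n ∧ IsW S l ∧ l.prod ∈ X}

section ln

variable {G : Type} [Group G] {S : Finset G}

theorem exists_word (hS : Subgroup.closure (S : Set G) = ⊤) (g : G) :
    ∃ l : List G, IsW S l ∧ l.prod = g := by
  have hg : g ∈ Subgroup.closure (S : Set G) := by rw [hS]; trivial
  have hg' : g ∈ (Subgroup.closure (S : Set G)).toSubmonoid := hg
  rw [Subgroup.closure_toSubmonoid] at hg'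
  obtain ⟨l, h1, h2⟩ := Submonoid.exists_list_of_mem_closure hg'
  exact ⟨l, fun x hx => by simpa using h1 x hx, h2⟩

theorem ln_spec (hS : Subgroup.closure (S : Set G) = ⊤) {X : Set G} (hX : X.Nonempty) :
    ∃ l : List G, l.length = ln S X ∧ IsW S l ∧ l.prod ∈ X := by
  have : {n | ∃ l : List G, l.length = n ∧ IsW S l ∧ l.prod ∈ X}.Nonempty := by
    obtain ⟨x, hx⟩ := hX
    obtain ⟨l, h1, h2⟩ := exists_word hS x
    exact ⟨l.length, l, rfl, h1, by rw [h2]; exact hx⟩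
  exact Nat.sInf_mem this

theorem ln_le {X : Set G} {l : List G} (hl : IsW S l) (h : l.prod ∈ X) : ln S X ≤ l.length :=
  Nat.sInf_le ⟨l, rfl, hl, h⟩

theorem ln_anti (hS : Subgroup.closure (S : Set G) = ⊤) {X Y : Set G} (hX : X.Nonempty)
    (h : X ⊆ Y) : ln S Y ≤ ln S X := by
  obtain ⟨l, h1, h2, h3⟩ := ln_spec hS hX
  rw [← h1]
  exact ln_le h2 (h h3)

theorem IsW.append {l l' : List G} (h : IsW S l) (h' : IsW S l') : IsW S (l ++ l') := by
  intro x hx
  rcases List.mem_append.1 hx with h1 | h1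
  · exact h x h1
  · exact h' x h1

theorem IsW.replicate {s : G} (n : ℕ) (h : s ∈ S ∨ s⁻¹ ∈ S) : IsW S (List.replicate n s) := by
  intro x hx
  rw [List.eq_of_mem_replicate hx]
  exact h

theorem IsW.nil : IsW S ([] : List G) := by
  intro x hx
  cases hx

end ln

namespace HData

variable {G : Type} [Group G] {m : ℕ} (D : HData G m)

theorem zcp (k : ℤ) (x : G) : D.z ^ k * x = x * D.z ^ k :=
  (show Commute D.z x from D.zc x).zpow_left k |>.eq

theorem zinj {k l : ℤ} (h : D.z ^ k = D.z ^ l) : k = l := by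
  have : D.z ^ (k - l) = 1 := by rw [zpow_sub, h, mul_inv_cancel]
  have := D.zinf _ this
  omega

theorem φ_one : D.φ 1 = 0 := by
  have := D.φ_mul 1 1
  rw [mul_one] at this
  simpa using this

theorem φ_inv (x : G) : D.φ x⁻¹ = -D.φ x := by
  have := D.φ_mul x x⁻¹
  rw [mul_inv_cancel, φ_one] at this
  exact (neg_eq_of_add_eq_zero_right this.symm).symm

/-- `φ` as a homomorphism. -/
def φh : G →* Multiplicative (Fin m → ℤ) where
  toFun x := Multiplicative.ofAdd (D.φ x)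
  map_one' := by rw [D.φ_one]; rfl
  map_mul' x y := by rw [D.φ_mul]; rfl

theorem φ_pow (x : G) (n : ℕ) : D.φ (x ^ n) = (n : ℤ) • D.φ x := by
  induction n with
  | zero => simp [D.φ_one]
  | succ n ih => rw [pow_succ, D.φ_mul, ih]; push_cast; rw [add_smul, one_smul]

theorem φ_zpow (x : G) (n : ℤ) : D.φ (x ^ n) = n • D.φ x := by
  obtain ⟨k, rfl | rfl⟩ := n.eq_nat_or_neg
  · rw [zpow_natCast, D.φ_pow]
  · rw [zpow_neg, D.φ_inv, zpow_natCast, D.φ_pow, neg_smul]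

theorem φ_z (k : ℤ) : D.φ (D.z ^ k) = 0 := (D.φ_ker _).2 ⟨k, rfl⟩

theorem φ_mul_z (x : G) (k : ℤ) : D.φ (x * D.z ^ k) = D.φ x := by
  rw [D.φ_mul, D.φ_z, add_zero]

theorem φ_list (l : List G) : D.φ l.prod = (l.map D.φ).sum := by
  induction l with
  | nil => simp [D.φ_one]
  | cons a l ih => rw [List.prod_cons, D.φ_mul, ih, List.map_cons, List.sum_cons]

/-- two elements with the same image differ by a power of `z`. -/
theorem eq_of_φ {x y : G} (h : D.φ x = D.φ y) : ∃ k : ℤ, y = x * D.z ^ k := by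
  have : D.φ (x⁻¹ * y) = 0 := by rw [D.φ_mul, D.φ_inv, h, neg_add_cancel]
  obtain ⟨k, hk⟩ := (D.φ_ker _).1 this
  exact ⟨k, by rw [← hk, mul_inv_cancel_left]⟩

/-- moving `y` over `x`. -/
theorem swap (x y : G) : x * y = y * x * D.z ^ (D.ω x y) := by
  rw [← D.comm]; group

theorem ω_eq_of {x y : G} {k : ℤ} (h : x * y = y * x * D.z ^ k) : D.ω x y = k := by
  apply D.zinj
  rw [← D.comm]
  have : D.z ^ k = (y * x)⁻¹ * (x * y) := by rw [h]; group
  rw [this]; group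

theorem ω_mul_left (x y w : G) : D.ω (x * y) w = D.ω x w + D.ω y w := by
  apply D.ω_eq_of
  calc x * y * w = x * (y * w) := mul_assoc _ _ _
    _ = x * (w * y * D.z ^ (D.ω y w)) := by rw [D.swap y w]
    _ = (x * w) * y * D.z ^ (D.ω y w) := by group
    _ = (w * x * D.z ^ (D.ω x w)) * y * D.z ^ (D.ω y w) := by rw [D.swap x w]
    _ = w * x * (D.z ^ (D.ω x w) * y) * D.z ^ (D.ω y w) := by group
    _ = w * x * (y * D.z ^ (D.ω x w)) * D.z ^ (D.ω y w) := by rw [D.zcp]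
    _ = w * (x * y) * D.z ^ (D.ω x w + D.ω y w) := by rw [zpow_add]; group

theorem ω_anti (x y : G) : D.ω y x = -D.ω x y := by
  apply D.ω_eq_of
  rw [D.swap x y, mul_assoc, ← zpow_add, add_neg_cancel, zpow_zero, mul_one]

theorem ω_mul_right (x y w : G) : D.ω x (y * w) = D.ω x y + D.ω x w := by
  rw [D.ω_anti, D.ω_mul_left, D.ω_anti x y, D.ω_anti x w]; ring

theorem ω_self (x : G) : D.ω x x = 0 := D.ω_eq_of (by simp)

theorem ω_one_left (x : G) : D.ω 1 x = 0 := D.ω_eq_of (by simp)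

theorem ω_one_right (x : G) : D.ω x 1 = 0 := D.ω_eq_of (by simp)

theorem ω_inv_left (x y : G) : D.ω x⁻¹ y = -D.ω x y := by
  have := D.ω_mul_left x x⁻¹ y
  rw [mul_inv_cancel, D.ω_one_left] at this
  omega

theorem ω_inv_right (x y : G) : D.ω x y⁻¹ = -D.ω x y := by
  rw [D.ω_anti, D.ω_inv_left, D.ω_anti x y]; ring

theorem ω_pow_left (x y : G) (n : ℕ) : D.ω (x ^ n) y = n * D.ω x y := by
  induction n with
  | zero => simp [D.ω_one_left]
  | succ n ih => rw [pow_succ, D.ω_mul_left, ih]; push_cast; ring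

theorem ω_zpow_left (x y : G) (n : ℤ) : D.ω (x ^ n) y = n * D.ω x y := by
  obtain ⟨k, rfl | rfl⟩ := n.eq_nat_or_neg
  · rw [zpow_natCast, D.ω_pow_left]
  · rw [zpow_neg, D.ω_inv_left, zpow_natCast, D.ω_pow_left]; ring

theorem ω_zpow_right (x y : G) (n : ℤ) : D.ω x (y ^ n) = n * D.ω x y := by
  rw [D.ω_anti, D.ω_zpow_left, D.ω_anti x y]; ring

theorem ω_pow_right (x y : G) (n : ℕ) : D.ω x (y ^ n) = n * D.ω x y := by
  rw [D.ω_anti, D.ω_pow_left, D.ω_anti x y]; ring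

theorem ω_z_left (k : ℤ) (y : G) : D.ω (D.z ^ k) y = 0 :=
  D.ω_eq_of (by rw [D.zcp, zpow_zero, mul_one])

theorem ω_z_right (k : ℤ) (y : G) : D.ω y (D.z ^ k) = 0 := by
  rw [D.ω_anti, D.ω_z_left, neg_zero]

theorem ω_congr {x x' y y' : G} (h : D.φ x = D.φ x') (h' : D.φ y = D.φ y') :
    D.ω x y = D.ω x' y' := by
  obtain ⟨k, rfl⟩ := D.eq_of_φ h
  obtain ⟨k', rfl⟩ := D.eq_of_φ h'
  rw [D.ω_mul_left, D.ω_mul_right, D.ω_mul_right, D.ω_z_left, D.ω_z_left, D.ω_z_right]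
  ring

theorem exists_gg (x : G) : ∃ g : ℕ, (∀ y, (g : ℤ) ∣ D.ω x y) ∧ ∃ y, D.ω x y = g := by
  let H : AddSubgroup ℤ :=
    { carrier := {k | ∃ y, D.ω x y = k}
      add_mem' := by
        rintro a b ⟨y, rfl⟩ ⟨y', rfl⟩
        exact ⟨y * y', D.ω_mul_right x y y'⟩
      zero_mem' := ⟨1, D.ω_one_right x⟩
      neg_mem' := by
        rintro a ⟨y, rfl⟩
        exact ⟨y⁻¹, D.ω_inv_right x y⟩ }
  obtain ⟨a, ha⟩ := Int.subgroup_cyclic H
  have hmem : ∀ k : ℤ, (∃ y, D.ω x y = k) ↔ a ∣ k := by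
    intro k
    have : k ∈ H ↔ a ∣ k := by
      rw [ha, AddSubgroup.mem_closure_singleton]
      constructor
      · rintro ⟨n, rfl⟩; exact ⟨n, by simp [mul_comm]⟩
      · rintro ⟨n, rfl⟩; exact ⟨n, by simp [mul_comm]⟩
    exact this
  refine ⟨a.natAbs, fun y => ?_, ?_⟩
  · rw [Int.natAbs_dvd]; exact (hmem _).1 ⟨y, rfl⟩
  · exact (hmem _).2 (Int.dvd_natAbs.2 dvd_rfl)

/-- the nonnegative generator of the group of the `ω x y`. -/
noncomputable def gg (x : G) : ℕ := (D.exists_gg x).choose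

theorem gg_dvd (x y : G) : (D.gg x : ℤ) ∣ D.ω x y := (D.exists_gg x).choose_spec.1 y

theorem gg_mem (x : G) : ∃ y, D.ω x y = D.gg x := (D.exists_gg x).choose_spec.2

theorem dvd_gg {x : G} {d : ℕ} : d ∣ D.gg x ↔ ∀ y, (d : ℤ) ∣ D.ω x y := by
  constructor
  · intro h y
    exact (Int.natCast_dvd_natCast.2 h).trans (D.gg_dvd x y)
  · intro h
    obtain ⟨y, hy⟩ := D.gg_mem x
    have := h y
    rw [hy] at this
    exact Int.natCast_dvd_natCast.1 this

theorem gg_congr {x x' : G} (h : D.φ x = D.φ x') : D.gg x = D.gg x' := by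
  apply Nat.dvd_antisymm
  · rw [D.dvd_gg]; intro y; rw [← D.ω_congr h rfl]; exact D.gg_dvd x y
  · rw [D.dvd_gg]; intro y; rw [D.ω_congr h rfl]; exact D.gg_dvd x' y

theorem gg_eq_zero {x : G} : D.gg x = 0 ↔ D.φ x = 0 := by
  constructor
  · intro h
    apply D.nondeg
    intro y
    have := D.gg_dvd x y
    rw [h] at this
    simpa using this
  · intro h
    obtain ⟨k, rfl⟩ := (D.φ_ker _).1 h
    obtain ⟨y, hy⟩ := D.gg_mem (D.z ^ k)
    rw [D.ω_z_left] at hy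
    exact_mod_cast hy.symm

theorem gg_pos {x : G} (h : D.φ x ≠ 0) : 0 < D.gg x :=
  Nat.pos_of_ne_zero fun h' => h (D.gg_eq_zero.1 h')

/-- `gcd (gg x) K` does not change if `x` is multiplied by a `K`-th power. -/
theorem gcd_mul_pow (x y : G) (K : ℕ) (k : ℤ) :
    Nat.gcd (D.gg (x * y ^ ((K : ℤ) * k))) K = Nat.gcd (D.gg x) K := by
  apply Nat.dvd_antisymm
  · refine Nat.dvd_gcd ?_ (Nat.gcd_dvd_right _ _)
    rw [D.dvd_gg]
    intro w
    have h1 : ((Nat.gcd (D.gg (x * y ^ ((K : ℤ) * k))) K : ℕ) : ℤ) ∣ D.ω (x * y ^ ((K : ℤ) * k)) w :=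
      (Int.natCast_dvd_natCast.2 (Nat.gcd_dvd_left _ _)).trans (D.gg_dvd _ _)
    rw [D.ω_mul_left, D.ω_zpow_left] at h1
    have h2 : ((Nat.gcd (D.gg (x * y ^ ((K : ℤ) * k))) K : ℕ) : ℤ) ∣ (K : ℤ) * k * D.ω y w :=
      ((Int.natCast_dvd_natCast.2 (Nat.gcd_dvd_right _ _)).mul_right k).mul_right _
    exact (dvd_add_left h2).1 h1
  · refine Nat.dvd_gcd ?_ (Nat.gcd_dvd_right _ _)
    rw [D.dvd_gg]
    intro w
    rw [D.ω_mul_left, D.ω_zpow_left]
    exact dvd_add ((Int.natCast_dvd_natCast.2 (Nat.gcd_dvd_left _ _)).trans (D.gg_dvd _ _))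
      (((Int.natCast_dvd_natCast.2 (Nat.gcd_dvd_right _ _)).mul_right k).mul_right _)

/-- conjugacy classes. -/
theorem isConj_iff {x y : G} : IsConj x y ↔ ∃ j : ℤ, y = x * D.z ^ (j * (D.gg x : ℤ)) := by
  rw [_root_.isConj_iff]
  constructor
  · rintro ⟨c, rfl⟩
    obtain ⟨j, hj⟩ := D.gg_dvd x c
    refine ⟨-j, ?_⟩
    have h1 : c * x * c⁻¹ = x * D.z ^ (-D.ω x c) := by
      have := D.swap c x
      rw [D.ω_anti x c] at this
      rw [this, mul_assoc x c, ← D.zcp, ← mul_assoc, mul_assoc, mul_inv_cancel, mul_one]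
    rw [h1, hj]
    congr 2
    ring
  · rintro ⟨j, rfl⟩
    obtain ⟨w, hw⟩ := D.gg_mem x
    refine ⟨w ^ (-j), ?_⟩
    have h1 : w ^ (-j) * x = x * w ^ (-j) * D.z ^ (j * (D.gg x : ℤ)) := by
      rw [D.swap (w ^ (-j)) x, D.ω_anti x, D.ω_zpow_right, hw]
      congr 2
      ring
    rw [h1, mul_assoc x, ← D.zcp, ← mul_assoc, mul_assoc, mul_inv_cancel, mul_one]

/-- fibre of `φ`. -/
def fib (v : Fin m → ℤ) : Set G := {y | D.φ y = v}

/-- `x ⟨z ^ gcd (gg x, K)⟩`. -/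
def qc (K : ℕ) (x : G) : Set G :=
  {y | ∃ j : ℤ, y = x * D.z ^ (j * ((Nat.gcd (D.gg x) K : ℕ) : ℤ))}

/-- the sets `qc K x`, a partition of `G`. -/
def QK (K : ℕ) : Type := {X : Set G // ∃ x, X = D.qc K x}

theorem fib_nonempty (v : Fin m → ℤ) : (D.fib v).Nonempty := D.φ_surj v

theorem mem_qc_self (K : ℕ) (x : G) : x ∈ D.qc K x := ⟨0, by simp⟩

theorem φ_of_mem_qc {K : ℕ} {x y : G} (h : y ∈ D.qc K x) : D.φ y = D.φ x := by
  obtain ⟨j, rfl⟩ := h
  exact D.φ_mul_z _ _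

theorem qc_eq_of_mem {K : ℕ} {x y : G} (h : y ∈ D.qc K x) : D.qc K y = D.qc K x := by
  have hg : D.gg y = D.gg x := D.gg_congr (D.φ_of_mem_qc h)
  obtain ⟨j, rfl⟩ := h
  ext w
  unfold qc
  rw [hg]
  constructor
  · rintro ⟨i, rfl⟩
    exact ⟨j + i, by rw [mul_assoc, ← zpow_add]; congr 2; ring⟩
  · rintro ⟨i, rfl⟩
    exact ⟨i - j, by rw [mul_assoc, ← zpow_add]; congr 2; ring⟩

/-- the class of `x` lies in `qc K x`. -/
theorem mem_qc_of_isConj {K : ℕ} {x y : G} (h : IsConj x y) : y ∈ D.qc K x := by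
  obtain ⟨j, rfl⟩ := D.isConj_iff.1 h
  obtain ⟨c, hc⟩ := Nat.gcd_dvd_left (D.gg x) K
  refine ⟨j * c, ?_⟩
  congr 2
  rw [mul_assoc]
  congr 1
  rw [mul_comm]
  exact_mod_cast hc

end HData

end MPa1853d.HH
end

section
set_option autoImplicit false

/-! # Module ZERO: the conjugacy classes of height zero -/

namespace MPa1853d

namespace ZERO

variable {k : ℤ} {L : Finset (ℤ × ℤ)} {K E A Ct Ca : ℕ}

theorem allH_append (p : ℤ → Prop) (l₁ l₂ : List (ℤ × ℤ)) (h : ℤ) :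
    allH p h (l₁ ++ l₂) ↔ allH p h l₁ ∧ allH p (fin h l₁) l₂ := by
  induction l₁ generalizing h with
  | nil => simp [allH]
  | cons q l ih => simp [allH, ih, and_assoc]

theorem allH_imp {p q : ℤ → Prop} (l : List (ℤ × ℤ)) (h : ℤ) (hl : allH p h l)
    (hpq : ∀ x, p x → q x) : allH q h l := by
  induction l generalizing h with
  | nil => trivial
  | cons r l ih => exact ⟨hpq _ hl.1, ih _ hl.2⟩

theorem allH_and {p q : ℤ → Prop} (l : List (ℤ × ℤ)) (h : ℤ) (hp : allH p h l)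
    (hq : allH q h l) : allH (fun x => p x ∧ q x) h l := by
  induction l generalizing h with
  | nil => trivial
  | cons r l ih => exact ⟨⟨hp.1, hq.1⟩, ih _ hp.2 hq.2⟩

theorem allH_shift (p : ℤ → Prop) (l : List (ℤ × ℤ)) (h i : ℤ)
    (hl : allH (fun x => p (x + i)) h l) : allH p (h + i) l := by
  induction l generalizing h with
  | nil => trivial
  | cons q l ih =>
    refine ⟨hl.1, ?_⟩
    have e : h + i + q.2 = h + q.2 + i := by ring
    rw [e]
    exact ih _ hl.2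

/-- An extremal point of a path. -/
theorem split_gen (r : ℤ → ℤ → Prop) (hr : ∀ a, r a a) (ht : ∀ a b c, r a b → r b c → r a c)
    (htot : ∀ a b, r a b ∨ r b a) (l : List (ℤ × ℤ)) (h : ℤ) :
    ∃ l₁ l₂, l = l₁ ++ l₂ ∧ allH (r (fin h l₁)) h l ∧ r (fin h l₁) (fin h l) := by
  induction l generalizing h with
  | nil => exact ⟨[], [], rfl, trivial, hr _⟩
  | cons p l ih =>
    obtain ⟨l₁, l₂, h1, h2, h3⟩ := ih (h + p.2)
    rcases htot (fin (h + p.2) l₁) h with hc | hc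
    · exact ⟨p :: l₁, l₂, by rw [h1]; rfl, ⟨hc, h2⟩, h3⟩
    · exact ⟨[], p :: l, rfl, ⟨hr _, allH_imp _ _ h2 fun x hx => ht _ _ _ hc hx⟩, ht _ _ _ hc h3⟩

/-- Contributions of a path between the levels `0` and `M` are integers of bounded size. -/
theorem int_bound (S : Sys k L K E A Ct Ca) (M : ℕ) (l : List (ℤ × ℤ)) (hl : ∀ p ∈ l, p ∈ L)
    (h : ℤ) (hh : allH (fun x => 0 ≤ x ∧ x ≤ (M : ℤ)) h l) :
    ∃ u : ℤ, psum (ctr k) h l = u ∧ |u| ≤ A * l.length * (K : ℤ) ^ M := by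
  induction l generalizing h with
  | nil => exact ⟨0, by simp, by simp⟩
  | cons p l ih =>
    obtain ⟨u, h1, h2⟩ := ih (fun q hq => hl q (by simp [hq])) (h + p.2) hh.2
    obtain ⟨⟨h3, h4⟩, -⟩ := hh
    obtain ⟨a, rfl⟩ := Int.eq_ofNat_of_zero_le h3
    refine ⟨p.1 * k ^ a + u, ?_, ?_⟩
    · rw [psum_cons, h1]
      unfold ctr
      push_cast
      simp
    · have h5 : |p.1 * k ^ a| ≤ A * (K : ℤ) ^ M := by
        rw [abs_mul, abs_pow, S.kabs]
        have h6 := S.hA p (hl p (by simp))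
        have h7 : (K : ℤ) ^ a ≤ (K : ℤ) ^ M := by
          apply pow_le_pow_right₀
          · have := S.hK2
            omega
          · exact_mod_cast h4
        exact mul_le_mul h6 h7 (by positivity) (by positivity)
      have h8 := abs_add_le (p.1 * k ^ a) u
      simp only [List.length_cons]
      push_cast
      have h9 : (A : ℤ) * ((l.length : ℤ) + 1) * (K : ℤ) ^ M =
          A * l.length * (K : ℤ) ^ M + A * (K : ℤ) ^ M := by ring
      rw [h9]
      linarith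

/-- A closed path can be moved to the levels between `0` and some `M` and cut into two paths from
level `0` to level `M`. -/
theorem step1 (S : Sys k L K E A Ct Ca) {x : ℚ} {n : ℕ} (hx : PP k L 0 0 x n) :
    ∃ (j : ℤ) (M : ℕ) (u v : ℤ) (n₁ n₂ : ℕ), PP k L 0 M u n₁ ∧ PP k L 0 M v n₂ ∧
      n₁ + n₂ ≤ n ∧ (k : ℚ) ^ j * x = (u : ℚ) - v ∧
      |u| ≤ A * n * (K : ℤ) ^ M ∧ |v| ≤ A * n * (K : ℤ) ^ M := by
  obtain ⟨l, hl, hn, hf, hv⟩ := hx
  -- lowest point
  obtain ⟨l₁, l₂, rfl, h2, h3⟩ := split_gen (fun a b => a ≤ b) (fun a => le_rfl)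
    (fun a b c hab hbc => hab.trans hbc) (fun a b => le_total a b) l 0
  set m := fin 0 l₁ with hm
  rw [allH_append, ← hm] at h2
  rw [fin_append, ← hm] at hf
  -- the rotated path, started at level `0`
  have hf' : fin (m + -m) (l₂ ++ l₁) = 0 := by
    rw [fin_shift, fin_append, hf, ← hm]; ring
  have hv' : psum (ctr k) (m + -m) (l₂ ++ l₁) = (k : ℚ) ^ (-m) * x := by
    rw [psum_shift, ← hv, ← psum_mul_left, psum_append, psum_append, ← hm, hf, add_comm]
    congr 1 <;>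
    · apply psum_congr'
      intro h p _
      unfold ctr
      rw [zpow_add₀ S.k_ne]
      ring
  have hh' : allH (fun y => 0 ≤ y) (m + -m) (l₂ ++ l₁) := by
    apply allH_shift
    rw [allH_append, hf]
    exact ⟨allH_imp _ _ h2.2 fun y hy => by simpa using hy,
      allH_imp _ _ h2.1 fun y hy => by simpa using hy⟩
  have e0 : m + -m = 0 := by ring
  rw [e0] at hf' hv' hh'
  have hlen : (l₂ ++ l₁).length ≤ n := by
    rw [List.length_append, add_comm, ← List.length_append]; exact hn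
  have hl' : ∀ p ∈ l₂ ++ l₁, p ∈ L := by
    intro p hp
    apply hl p
    rw [List.mem_append] at hp ⊢
    exact hp.symm
  clear hn hl hv hf h2 h3
  generalize l₂ ++ l₁ = l' at hf' hv' hh' hlen hl'
  -- highest point
  obtain ⟨l₃, l₄, rfl, h4, h5⟩ := split_gen (fun a b => b ≤ a) (fun a => le_rfl)
    (fun a b c hab hbc => hbc.trans hab) (fun a b => le_total b a) l' 0
  have hM : 0 ≤ fin 0 l₃ := by rw [hf'] at h5; exact h5
  obtain ⟨M, hMe⟩ := Int.eq_ofNat_of_zero_le hM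
  rw [hMe] at h4
  have h6 := allH_and _ _ hh' h4
  rw [allH_append, hMe] at h6
  rw [fin_append, hMe] at hf'
  rw [psum_append, hMe] at hv'
  have hl3 : ∀ p ∈ l₃, p ∈ L := fun p hp => hl' p (List.mem_append_left _ hp)
  have hl4 : ∀ p ∈ l₄, p ∈ L := fun p hp => hl' p (List.mem_append_right _ hp)
  obtain ⟨u, hu1, hu2⟩ := int_bound S M l₃ hl3 0 h6.1
  obtain ⟨v, hv1, hv2⟩ := int_bound S M l₄ hl4 M h6.2
  rw [List.length_append] at hlen
  have hpow : (0 : ℤ) ≤ (K : ℤ) ^ M := by positivity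
  refine ⟨-m, M, u, -v, l₃.length, l₄.length, ⟨l₃, hl3, le_rfl, hMe, hu1⟩, ?_, hlen, ?_, ?_, ?_⟩
  · have h7 : PP k L M 0 (v : ℚ) l₄.length := ⟨l₄, hl4, le_rfl, hf', hv1⟩
    have h8 := h7.symm S
    push_cast
    exact h8
  · rw [← hv', hu1, hv1]
    push_cast
    ring
  · refine hu2.trans (mul_le_mul_of_nonneg_right ?_ hpow)
    exact mul_le_mul_of_nonneg_left (by exact_mod_cast (by omega : l₃.length ≤ n)) (by positivity)
  · rw [abs_neg]
    refine hv2.trans (mul_le_mul_of_nonneg_right ?_ hpow)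
    exact mul_le_mul_of_nonneg_left (by exact_mod_cast (by omega : l₄.length ≤ n)) (by positivity)

/-- the word of length `H` cut out of a sequence of digits. -/
def wd {K : ℕ} (H : ℕ) (W : ℕ → Fin K) : Fin H → Fin K := fun i => W i

theorem exists_wd (hK2 : 2 ≤ K) {H : ℕ} (W : Fin H → Fin K) : ∃ W' : ℕ → Fin K, wd H W' = W := by
  refine ⟨fun i => if h : i < H then W ⟨i, h⟩ else ⟨0, by omega⟩, ?_⟩
  funext i
  simp [wd]

/-- The two words attached to a closed path of minimal length. -/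
theorem step2 (S : Sys k L K E A Ct Ca) (N CN : ℕ) (hN : ∀ n, A * n ≤ 2 ^ (n / N + CN))
    {x : ℚ} {n : ℕ} (h1 : PP k L 0 0 x n)
    (h2 : ∀ (j : ℤ) (m : ℕ), PP k L 0 0 ((k : ℚ) ^ j * x) m → n ≤ m) :
    ∃ (j : ℤ) (H : ℕ) (W W' : ℕ → Fin K) (d : ℤ), d ∈ Finset.Icc (-2 : ℤ) 2 ∧
      (k : ℚ) ^ j * x = ((dval k (wd H W) - dval k (wd H W') + d * k ^ H : ℤ) : ℚ) ∧
      yl k L (wd H W) + yl k L (wd H W') ≤ n + (2 * Ct * (n / N + CN) + 2 * Ca) ∧
      n ≤ 2 * (Ct + Ca * K) * H + 2 * Ca := by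
  obtain ⟨j, M, u, v, n₁, n₂, hu, hv, hn, hx, hub, hvb⟩ := step1 S h1
  set r := n / N + CN with hr
  have hK2 := S.hK2
  have hpow : (A : ℤ) * n * (K : ℤ) ^ M ≤ ((1 : ℕ) : ℤ) * (K : ℤ) ^ (M + r) := by
    have a1 : A * n ≤ K ^ r := (hN n).trans (Nat.pow_le_pow_left hK2 r)
    have a2 : A * n * K ^ M ≤ K ^ (M + r) := by
      rw [pow_add, mul_comm (K ^ M)]
      exact Nat.mul_le_mul_right _ a1
    rw [Nat.cast_one, one_mul]
    exact_mod_cast a2
  obtain ⟨W, c, hW, hc⟩ := dval_repr_bound k S.hK hK2 (M + r) u 1 (hub.trans hpow)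
  obtain ⟨W', c', hW', hc'⟩ := dval_repr_bound k S.hK hK2 (M + r) v 1 (hvb.trans hpow)
  have key : ∀ (w : ℤ) (V : Fin (M + r) → Fin K) (e : ℤ) (a : ℕ), w = dval k V + e * k ^ (M + r) →
      |e| ≤ ((1 : ℕ) : ℤ) → PP k L 0 M w a → yl k L V ≤ a + Ct * r + Ca := by
    intro w V e a hw he hp
    apply yl_le
    have b1 := PP.tmove S (M : ℤ) ((M + r : ℕ) : ℤ)
    have b2 := PP.const S ((M + r : ℕ) : ℤ) (-e)
    refine ((hp.trans b1).trans b2).of_eq ?_ ?_
    · rw [hw]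
      push_cast
      rw [show ((M : ℤ) + (r : ℤ)) = ((M + r : ℕ) : ℤ) by push_cast; ring, zpow_natCast]
      ring
    · have e1 : (((M + r : ℕ) : ℤ) - (M : ℤ)).natAbs = r := by
        push_cast
        simp
      have e2 : (-e).natAbs ≤ 1 := by
        rw [Int.natAbs_neg]
        have : (e.natAbs : ℤ) ≤ 1 := by rw [Int.natCast_natAbs]; simpa using he
        exact_mod_cast this
      rw [e1]
      have := Nat.mul_le_mul_left Ca e2
      omega
  have k1 := key u W c n₁ hW hc hu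
  have k2 := key v W' c' n₂ hW' hc' hv
  have hd : c - c' ∈ Finset.Icc (-2 : ℤ) 2 := by
    rw [abs_le] at hc hc'
    push_cast at hc hc'
    rw [Finset.mem_Icc]
    constructor <;> omega
  have hx2 : (k : ℚ) ^ j * x =
      ((dval k W - dval k W' + (c - c') * k ^ (M + r) : ℤ) : ℚ) := by
    rw [hx, hW, hW']
    push_cast
    ring
  have hmin : n ≤ yl k L W + yl k L W' + 2 * Ca := by
    apply h2 j
    have b1 := yl_spec S W
    have b2 := PP.const S ((M + r : ℕ) : ℤ) (c - c')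
    have b3 := (yl_spec S W').symm S
    refine ((b1.trans b2).trans b3).of_eq ?_ ?_
    · rw [hx2, zpow_natCast]
      push_cast
      ring
    · rw [Finset.mem_Icc] at hd
      have : (c - c').natAbs ≤ 2 := by omega
      have := Nat.mul_le_mul_left Ca this
      omega
  have y1 := yl_le_linear S W
  have y2 := yl_le_linear S W'
  obtain ⟨V, hV⟩ := exists_wd hK2 W
  obtain ⟨V', hV'⟩ := exists_wd hK2 W'
  refine ⟨j, M + r, V, V', c - c', hd, ?_, ?_, ?_⟩
  · rw [hV, hV']; exact hx2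
  · rw [hV, hV']
    have : 2 * Ct * r = Ct * r + Ct * r := by ring
    omega
  · have : 2 * (Ct + Ca * K) * (M + r) = (Ct + Ca * K) * (M + r) + (Ct + Ca * K) * (M + r) := by
      ring
    omega

/-- A power estimate. -/
theorem exists_CN (A N : ℕ) (hN : 1 ≤ N) : ∃ CN : ℕ, ∀ n, A * n ≤ 2 ^ (n / N + CN) := by
  refine ⟨A * N, fun n => ?_⟩
  have h1 : n ≤ N * (n / N + 1) := by
    have := Nat.div_add_mod n N
    have h2 := Nat.mod_lt n hN
    rw [Nat.mul_add, Nat.mul_one]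
    omega
  have h2 : n / N + 1 ≤ 2 ^ (n / N) := Nat.lt_two_pow_self
  have h3 : A * N ≤ 2 ^ (A * N) := Nat.lt_two_pow_self.le
  calc A * n ≤ A * (N * (n / N + 1)) := Nat.mul_le_mul_left _ h1
    _ = (n / N + 1) * (A * N) := by ring
    _ ≤ 2 ^ (n / N) * 2 ^ (A * N) := Nat.mul_le_mul h2 h3
    _ = 2 ^ (n / N + A * N) := (pow_add _ _ _).symm

/-- Sum over one fibre. -/
theorem fibre (S : Sys k L K E A Ct Ca) {z₀ θ : ℝ} (hz₀ : 0 < z₀)
    (hθ : ∀ (k : ℤ) (H : ℕ) (f : (Fin H → Fin K) → ℝ), (∀ W, 0 ≤ f W) →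
      (∀ (W : Fin H → Fin K) (i : Fin H) (d : Fin K),
        z₀ ^ (Lip K E Ct Ca) * f W ≤ f (Function.update W i d)) →
      ∀ Q : Finset ((Fin H → Fin K) × (Fin H → Fin K)),
        Set.InjOn (fun p : (Fin H → Fin K) × (Fin H → Fin K) => dval k p.1 - dval k p.2)
          (Q : Set ((Fin H → Fin K) × (Fin H → Fin K))) →
        ∑ p ∈ Q, f p.1 * f p.2 ≤ θ ^ H * (∑ W : Fin H → Fin K, f W) ^ 2)
    (hθ0 : 0 < θ) {z : ℝ} (hz : z₀ ≤ z) (hz1 : z ≤ 1) (H : ℕ) (hY : YY k L K H z ≤ 1) {ι : Type}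
    (s : Finset ι) (x : ι → ℚ) (j : ι → ℤ) (W W' : ι → ℕ → Fin K) (d : ℤ)
    (hx : ∀ i ∈ s, (k : ℚ) ^ (j i) * x i =
      ((dval k (wd H (W i)) - dval k (wd H (W' i)) + d * k ^ H : ℤ) : ℚ))
    (hdist : ∀ i ∈ s, ∀ i' ∈ s, ∀ j : ℤ, x i' = (k : ℚ) ^ j * x i → i = i') :
    ∑ i ∈ s, z ^ (yl k L (wd H (W i)) + yl k L (wd H (W' i))) ≤ θ ^ H := by
  classical
  have hz0 : 0 < z := hz₀.trans_le hz
  have hk := S.k_ne
  have hinj : ∀ i ∈ s, ∀ i' ∈ s, dval k (wd H (W i)) - dval k (wd H (W' i)) =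
      dval k (wd H (W i')) - dval k (wd H (W' i')) → i = i' := by
    intro i hi i' hi' he
    have h1 := hx i hi
    have h2 := hx i' hi'
    rw [he, ← h2] at h1
    apply hdist i hi i' hi' (j i - j i')
    rw [zpow_sub₀ hk, div_mul_eq_mul_div, h1, mul_div_assoc, mul_comm, div_mul_cancel₀]
    exact zpow_ne_zero _ hk
  set φ : ι → (Fin H → Fin K) × (Fin H → Fin K) := fun i => (wd H (W i), wd H (W' i)) with hφ
  have hφinj : Set.InjOn φ s := by
    intro i hi i' hi' he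
    apply hinj i hi i' hi'
    have e1 : (φ i).1 = (φ i').1 := by rw [he]
    have e2 : (φ i).2 = (φ i').2 := by rw [he]
    simp only [hφ] at e1 e2
    rw [e1, e2]
  have h3 := hθ k H (fun V => z ^ (yl k L V)) (fun V => pow_nonneg hz0.le _) ?_ (s.image φ) ?_
  · rw [Finset.sum_image hφinj] at h3
    calc ∑ i ∈ s, z ^ (yl k L (wd H (W i)) + yl k L (wd H (W' i)))
        = ∑ i ∈ s, z ^ (yl k L (φ i).1) * z ^ (yl k L (φ i).2) := by
          apply Finset.sum_congr rfl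
          intro i _
          rw [pow_add]
      _ ≤ θ ^ H * (∑ V : Fin H → Fin K, z ^ (yl k L V)) ^ 2 := h3
      _ ≤ θ ^ H * 1 := by
          apply mul_le_mul_of_nonneg_left _ (by positivity)
          exact pow_le_one₀ (YY_nonneg H hz0.le) hY
      _ = θ ^ H := mul_one _
  · intro V i e
    have h4 := yl_update S V i e
    calc z₀ ^ (Lip K E Ct Ca) * z ^ (yl k L V) ≤ z ^ (Lip K E Ct Ca) * z ^ (yl k L V) := by
          apply mul_le_mul_of_nonneg_right _ (by positivity)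
          exact pow_le_pow_left₀ hz₀.le hz _
      _ = z ^ (yl k L V + Lip K E Ct Ca) := by rw [pow_add, mul_comm]
      _ ≤ z ^ (yl k L (Function.update V i e)) := pow_le_pow_of_le_one hz0.le hz1 h4
  · intro p hp q hq he
    simp only [Finset.coe_image, Set.mem_image, Finset.mem_coe] at hp hq
    obtain ⟨i, hi, rfl⟩ := hp
    obtain ⟨i', hi', rfl⟩ := hq
    rw [hinj i hi i' hi' he]

theorem exists_nu {θ : ℝ} (hθ0 : 0 < θ) (hθ1 : θ < 1) (m : ℕ) :
    ∃ ν : ℝ, 1 < ν ∧ ν ^ m * θ < (1 + θ) / 2 := by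
  have h1 : Filter.Tendsto (fun ν : ℝ => ν ^ m * θ) (nhdsWithin 1 (Set.Ioi 1)) (nhds (1 ^ m * θ)) :=
    (((continuous_pow m).mul continuous_const).tendsto 1).mono_left nhdsWithin_le_nhds
  have h2 : (1 : ℝ) ^ m * θ < (1 + θ) / 2 := by rw [one_pow]; linarith
  have h3 := (h1.eventually_lt_const h2).and self_mem_nhdsWithin
  obtain ⟨ν, h4, h5⟩ := h3.exists
  exact ⟨ν, h5, h4⟩

end ZERO

open ZERO in
theorem specZero (hLoop : SpecLoop) : SpecZero := by
  classical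
  intro k L K E A Ct Ca S z₀ hz₀
  by_cases hz₀1 : z₀ ≤ 1
  swap
  · refine ⟨1, one_pos, fun z hz hz1 => ?_⟩
    exact absurd (hz.trans hz1) hz₀1
  obtain ⟨θ, hθ0, hθ1, hθ⟩ := hLoop K (z₀ ^ (Lip K E Ct Ca)) S.hK2 (by positivity)
    (pow_le_one₀ hz₀.le hz₀1)
  obtain ⟨ν, hν1, hν⟩ := exists_nu hθ0 hθ1 (2 * (Ct + Ca * K))
  set b : ℝ := 1 / z₀ with hb
  have hb1 : 1 ≤ b := by rw [hb, le_div_iff₀ hz₀]; linarith
  obtain ⟨N, hN⟩ := pow_unbounded_of_one_lt (b ^ (2 * Ct)) hν1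
  have hN1 : 1 ≤ N := by
    rcases Nat.eq_zero_or_pos N with h | h
    · subst h
      rw [pow_zero] at hN
      exact absurd hN (not_lt.2 (one_le_pow₀ hb1))
    · exact h
  obtain ⟨CN, hCN⟩ := exists_CN A N hN1
  set σ : ℝ := (1 + θ) / 2 with hσ
  have hσ0 : 0 < σ := by rw [hσ]; linarith
  have hσ1 : σ < 1 := by rw [hσ]; linarith
  set c : ℝ := b ^ (2 * Ct * CN + 2 * Ca) * ν ^ (2 * Ca) with hc
  have hν0 : 0 < ν := by linarith
  have hb0 : 0 < b := by linarith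
  have hc0 : 0 < c := by positivity
  have hσ2 : 0 < 1 - σ := by linarith
  refine ⟨5 * c * (1 - σ)⁻¹, by positivity, ?_⟩
  intro z hz hz1 hY ι s n x h1 h2 h3
  have hz0 : 0 < z := hz₀.trans_le hz
  have hK2 := S.hK2
  have key : ∀ i : ι, ∃ (j : ℤ) (H : ℕ) (W W' : ℕ → Fin K) (d : ℤ), i ∈ s →
      (d ∈ Finset.Icc (-2 : ℤ) 2 ∧
      (k : ℚ) ^ j * x i = ((dval k (wd H W) - dval k (wd H W') + d * k ^ H : ℤ) : ℚ) ∧
      yl k L (wd H W) + yl k L (wd H W') ≤ n i + (2 * Ct * (n i / N + CN) + 2 * Ca) ∧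
      n i ≤ 2 * (Ct + Ca * K) * H + 2 * Ca) := by
    intro i
    by_cases hi : i ∈ s
    · obtain ⟨j, H, W, W', d, hh⟩ := step2 S N CN hCN (h1 i hi) (h2 i hi)
      exact ⟨j, H, W, W', d, fun _ => hh⟩
    · exact ⟨0, 0, fun _ => ⟨0, by omega⟩, fun _ => ⟨0, by omega⟩, 0, fun h => absurd h hi⟩
  choose j H W W' d hh using key
  -- termwise bound
  have hterm : ∀ i ∈ s, z ^ (n i) ≤
      c * (ν ^ (2 * (Ct + Ca * K))) ^ (H i) *
        z ^ (yl k L (wd (H i) (W i)) + yl k L (wd (H i) (W' i))) := by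
    intro i hi
    obtain ⟨-, -, a3, a4⟩ := hh i hi
    set q := n i / N with hq
    set y := yl k L (wd (H i) (W i)) + yl k L (wd (H i) (W' i)) with hy
    set e := 2 * Ct * (q + CN) + 2 * Ca with he
    have b1 : z ^ (n i) * z ^ e ≤ z ^ y := by
      rw [← pow_add]
      exact pow_le_pow_of_le_one hz0.le hz1 a3
    have b2 : (1 : ℝ) ≤ b ^ e * z ^ e := by
      rw [← mul_pow]
      apply one_le_pow₀
      rw [hb, one_div, ← div_eq_inv_mul, le_div_iff₀ hz₀]
      linarith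
    have b3 : z ^ (n i) ≤ b ^ e * z ^ y := by
      calc z ^ (n i) = z ^ (n i) * 1 := (mul_one _).symm
        _ ≤ z ^ (n i) * (b ^ e * z ^ e) := mul_le_mul_of_nonneg_left b2 (by positivity)
        _ = b ^ e * (z ^ (n i) * z ^ e) := by ring
        _ ≤ b ^ e * z ^ y := mul_le_mul_of_nonneg_left b1 (by positivity)
    have b4 : b ^ e ≤ c * (ν ^ (2 * (Ct + Ca * K))) ^ (H i) := by
      have e1 : e = (2 * Ct * CN + 2 * Ca) + 2 * Ct * q := by rw [he]; ring
      have e2 : c * (ν ^ (2 * (Ct + Ca * K))) ^ (H i) =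
          b ^ (2 * Ct * CN + 2 * Ca) * (ν ^ (2 * Ca) * (ν ^ (2 * (Ct + Ca * K))) ^ (H i)) := by
        rw [hc]; ring
      rw [e1, pow_add b (2 * Ct * CN + 2 * Ca) (2 * Ct * q), e2]
      apply mul_le_mul_of_nonneg_left _ (by positivity)
      calc b ^ (2 * Ct * q) = (b ^ (2 * Ct)) ^ q := pow_mul _ _ _
        _ ≤ (ν ^ N) ^ q := pow_le_pow_left₀ (by positivity) hN.le _
        _ = ν ^ (N * q) := (pow_mul _ _ _).symm
        _ ≤ ν ^ (2 * Ca + 2 * (Ct + Ca * K) * H i) := by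
            apply pow_le_pow_right₀ hν1.le
            have : N * q ≤ n i := by rw [hq]; exact Nat.mul_div_le _ _
            omega
        _ = ν ^ (2 * Ca) * (ν ^ (2 * (Ct + Ca * K))) ^ (H i) := by
            rw [pow_add, pow_mul ν (2 * (Ct + Ca * K)) (H i)]
    exact b3.trans (mul_le_mul_of_nonneg_right b4 (by positivity))
  -- sum over the fibres
  set R := (s.sup H) + 1 with hR
  have hmaps : ∀ i ∈ s, (H i, d i) ∈ (Finset.range R) ×ˢ (Finset.Icc (-2 : ℤ) 2) := by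
    intro i hi
    rw [Finset.mem_product, Finset.mem_range, hR]
    exact ⟨Nat.lt_succ_of_le (Finset.le_sup (f := H) hi), (hh i hi).1⟩
  have hfib : ∀ p ∈ (Finset.range R) ×ˢ (Finset.Icc (-2 : ℤ) 2),
      ∑ i ∈ s.filter (fun i => (H i, d i) = p), z ^ (n i) ≤ c * σ ^ p.1 := by
    rintro ⟨h, e⟩ -
    have h5 : ∀ i ∈ s.filter (fun i => (H i, d i) = (h, e)), i ∈ s ∧ H i = h ∧ d i = e := by
      intro i hi
      rw [Finset.mem_filter, Prod.mk.injEq] at hi
      exact hi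
    have h6 := fibre S hz₀ hθ hθ0 hz hz1 h (hY h) (s.filter (fun i => (H i, d i) = (h, e))) x j
      W W' e (by
        intro i hi
        obtain ⟨c1, c2, c3⟩ := h5 i hi
        have := (hh i c1).2.1
        rw [c2, c3] at this
        exact this)
      (by
        intro i hi i' hi' jj hjj
        exact h3 i (h5 i hi).1 i' (h5 i' hi').1 jj hjj)
    calc ∑ i ∈ s.filter (fun i => (H i, d i) = (h, e)), z ^ (n i)
        ≤ ∑ i ∈ s.filter (fun i => (H i, d i) = (h, e)),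
            c * (ν ^ (2 * (Ct + Ca * K))) ^ h *
              z ^ (yl k L (wd h (W i)) + yl k L (wd h (W' i))) := by
          apply Finset.sum_le_sum
          intro i hi
          obtain ⟨c1, c2, c3⟩ := h5 i hi
          have := hterm i c1
          rw [c2] at this
          exact this
      _ = c * (ν ^ (2 * (Ct + Ca * K))) ^ h * ∑ i ∈ s.filter (fun i => (H i, d i) = (h, e)),
              z ^ (yl k L (wd h (W i)) + yl k L (wd h (W' i))) := by rw [Finset.mul_sum]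
      _ ≤ c * (ν ^ (2 * (Ct + Ca * K))) ^ h * θ ^ h :=
          mul_le_mul_of_nonneg_left h6 (by positivity)
      _ = c * (ν ^ (2 * (Ct + Ca * K)) * θ) ^ h := by rw [mul_pow]; ring
      _ ≤ c * σ ^ h := by
          apply mul_le_mul_of_nonneg_left _ hc0.le
          exact pow_le_pow_left₀ (by positivity) hν.le _
  calc ∑ i ∈ s, z ^ (n i)
      = ∑ p ∈ (Finset.range R) ×ˢ (Finset.Icc (-2 : ℤ) 2),
          ∑ i ∈ s.filter (fun i => (H i, d i) = p), z ^ (n i) :=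
        (Finset.sum_fiberwise_of_maps_to hmaps _).symm
    _ ≤ ∑ p ∈ (Finset.range R) ×ˢ (Finset.Icc (-2 : ℤ) 2), c * σ ^ p.1 := Finset.sum_le_sum hfib
    _ = ∑ h ∈ Finset.range R, ∑ e ∈ Finset.Icc (-2 : ℤ) 2, c * σ ^ h := Finset.sum_product _ _ _
    _ = 5 * c * ∑ h ∈ Finset.range R, σ ^ h := by
        rw [Finset.mul_sum]
        apply Finset.sum_congr rfl
        intro h _
        rw [Finset.sum_const]
        simp
        ring
    _ ≤ 5 * c * (1 - σ)⁻¹ := by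
        apply mul_le_mul_of_nonneg_left _ (by positivity)
        rw [← tsum_geometric_of_lt_one hσ0.le hσ1]
        exact (summable_geometric_of_lt_one hσ0.le hσ1).sum_le_tsum _ (fun i _ => by positivity)

end MPa1853d
end
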